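import Pool.Agent.Helper41.BJ.Defs

/-! General degree version (project BJ, MP_5d2531_al) of the corresponding file of helper58 / helper76. -/

namespace Pool.Agent.Helper41.BJ

open Matrix Finset

variable {n : ℕ} [NeZero n] {F : Type*} {Ω : Type*} [Field F] [Field Ω] [Algebra F Ω]

theorem A1 [Infinite F] (D : Subalgebra F (MN n Ω)) (hD : IsForm D)
    (f : MvPolynomial (Fin n × Fin n) Ω) (hf : f ≠ 0) :
    ∃ d ∈ D, MvPolynomial.eval (fun p : Fin n × Fin n => d p.1 p.2) f ≠ 0 := by
  classical
  obtain ⟨b, hb, hli, _⟩ := hD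
  have hinj : Function.Injective (algebraMap F Ω) := (algebraMap F Ω).injective
  have hΩ : Infinite Ω := Infinite.of_injective _ hinj
  have hcard : Fintype.card (Fin (n * n)) = Module.finrank Ω (MN n Ω) := by
    rw [Module.finrank_matrix]
    simp
  have hsurj : ∀ x : MN n Ω, ∃ c : Fin (n * n) → Ω, x = ∑ i, c i • b i := by
    intro x
    let B := basisOfLinearIndependentOfCardEqFinrank hli hcard
    refine ⟨fun i => B.repr x i, ?_⟩
    have h1 := B.sum_repr x
    have hB : ⇑B = b := coe_basisOfLinearIndependentOfCardEqFinrank hli hcard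
    rw [hB] at h1
    exact h1.symm
  obtain ⟨g, hg⟩ : ∃ g : MvPolynomial (Fin (n * n)) Ω, ∀ c : Fin (n * n) → Ω, MvPolynomial.eval c g =
      MvPolynomial.eval (fun p : Fin n × Fin n => (∑ i, c i • b i) p.1 p.2) f := by
    refine ⟨MvPolynomial.bind₁ (fun p : Fin n × Fin n =>
      ∑ i, MvPolynomial.X i * MvPolynomial.C (b i p.1 p.2)) f, fun c => ?_⟩
    have h1 : MvPolynomial.eval c (MvPolynomial.bind₁ (fun p : Fin n × Fin n =>
        ∑ i, MvPolynomial.X i * MvPolynomial.C (b i p.1 p.2)) f) =
        MvPolynomial.eval (fun p : Fin n × Fin n => MvPolynomial.eval c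
          (∑ i, MvPolynomial.X i * MvPolynomial.C (b i p.1 p.2))) f := by
      rw [MvPolynomial.eval, MvPolynomial.eval₂Hom_bind₁]
      rfl
    rw [h1]
    congr 1
    congr 1
    funext p
    rw [map_sum, Matrix.sum_apply]
    refine Finset.sum_congr rfl fun i _ => ?_
    rw [map_mul, MvPolynomial.eval_X, MvPolynomial.eval_C, Matrix.smul_apply, smul_eq_mul]
  have hg0 : g ≠ 0 := by
    intro h0
    apply hf
    apply MvPolynomial.funext
    intro x
    rw [map_zero]
    obtain ⟨c, hc⟩ := hsurj (Matrix.of fun i j => x (i, j))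
    have h1 := hg c
    rw [h0, map_zero, ← hc] at h1
    exact h1.symm
  by_contra hcon
  push Not at hcon
  apply hg0
  refine MvPolynomial.funext_set (fun _ : Fin (n * n) => Set.range (algebraMap F Ω))
    (fun _ => Set.infinite_range_of_injective hinj) fun x hx => ?_
  rw [map_zero, hg]
  choose c hc using fun i => hx i (Set.mem_univ i)
  apply hcon
  refine D.sum_mem fun i _ => ?_
  rw [← hc i, algebraMap_smul]
  exact D.smul_mem (hb i) _

end Pool.Agent.Helper41.BJ
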