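import Pool.Agent.Helper41.BJ.A1

/-! General degree version (project BJ, MP_5d2531_al) of the corresponding file of helper58 / helper76. -/

namespace Pool.Agent.Helper41.BJ

open Matrix Finset

variable {n : ℕ} [NeZero n] {F : Type*} {Ω : Type*} [Field F] [Field Ω] [Algebra F Ω]

theorem A2 [Infinite F] (D : Subalgebra F (MN n Ω)) (hD : IsForm D) :
    ∃ s ∈ D, ∀ i j : Fin n, i ≠ j → s i j ≠ 0 := by
  classical
  obtain ⟨s, hs, hne⟩ := A1 D hD
    (∏ p ∈ (Finset.univ : Finset (Fin n × Fin n)).filter (fun p => p.1 ≠ p.2),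
      (MvPolynomial.X p : MvPolynomial (Fin n × Fin n) Ω))
    (Finset.prod_ne_zero_iff.2 fun p _ => MvPolynomial.X_ne_zero p)
  refine ⟨s, hs, fun i j hij h0 => hne ?_⟩
  rw [map_prod]
  refine Finset.prod_eq_zero (i := (i, j)) (Finset.mem_filter.2 ⟨Finset.mem_univ _, hij⟩) ?_
  rw [MvPolynomial.eval_X]
  exact h0

end Pool.Agent.Helper41.BJ
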