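import Pool.Agent.Helper41.BJ.Defs

/-! General degree version (project BJ, MP_5d2531_al) of the corresponding file of helper58 / helper76. -/

namespace Pool.Agent.Helper41.BJ

open Matrix Finset

variable {n : ℕ} [NeZero n] {Ω : Type*} [Field Ω]

theorem A3a (a : Fin n → Ω) (ha : Function.Injective a) :
    discM (Matrix.diagonal a) ≠ 0 := by
  have h : (Matrix.of fun i j : Fin n =>
      Matrix.trace ((Matrix.diagonal a : MN n Ω) ^ ((i : ℕ) + (j : ℕ)))) =
      (Matrix.vandermonde a)ᵀ * Matrix.vandermonde a := by
    ext i j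
    rw [Matrix.of_apply, Matrix.mul_apply, Matrix.diagonal_pow, Matrix.trace_diagonal]
    refine Finset.sum_congr rfl fun k _ => ?_
    rw [Matrix.transpose_apply, Matrix.vandermonde_apply, Matrix.vandermonde_apply, ← pow_add]
    rfl
  unfold discM
  rw [h, Matrix.det_mul, Matrix.det_transpose]
  have hv := Matrix.det_vandermonde_ne_zero_iff.2 ha
  exact mul_ne_zero hv hv

end Pool.Agent.Helper41.BJ
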