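import Pool.Agent.Helper41.BJ.Defs

/-! General degree version (project BJ, MP_5d2531_al) of the corresponding file of helper58 / helper76. -/

namespace Pool.Agent.Helper41.BJ

open Matrix Finset

variable {n : ℕ} [NeZero n] {Ω : Type*} [Field Ω]

theorem A3b [IsAlgClosed Ω] (θ : MN n Ω) (h : discM θ ≠ 0) :
    ∃ (S S' : MN n Ω) (a : Fin n → Ω), S * S' = 1 ∧ S' * θ * S = Matrix.diagonal a ∧ Function.Injective a := by
  classical
  have hnd : θ.charpoly.natDegree = n := by
    rw [Matrix.charpoly_natDegree_eq_dim]; simp
  have hcne : θ.charpoly ≠ 0 := (Matrix.charpoly_monic θ).ne_zero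
  have hsp : θ.charpoly.Splits := IsAlgClosed.splits _
  have hcard5 : Multiset.card θ.charpoly.roots = n := by
    rw [← hsp.natDegree_eq_card_roots, hnd]
  -- at least five distinct eigenvalues
  have hcard : n ≤ θ.charpoly.roots.toFinset.card := by
    by_contra hlt
    push Not at hlt
    set R := θ.charpoly.roots.toFinset with hR
    set m : Polynomial Ω := ∏ μ ∈ R, (Polynomial.X - Polynomial.C μ) with hm
    have hmm : m.Monic := Polynomial.monic_prod_of_monic _ _ fun μ _ => Polynomial.monic_X_sub_C μ
    have hmd : m.natDegree < n := by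
      rw [hm, Polynomial.natDegree_prod_of_monic _ _ fun μ _ => Polynomial.monic_X_sub_C μ]
      simpa using hlt
    have hdvd : θ.charpoly ∣ m ^ n := by
      have e : θ.charpoly = (Multiset.map (fun x => Polynomial.X - Polynomial.C x) θ.charpoly.roots).prod := by
        have e1 := hsp.eq_prod_roots
        rw [(Matrix.charpoly_monic θ).leadingCoeff, Polynomial.C_1, one_mul] at e1
        exact e1
      rw [e]
      have h2 := Multiset.prod_dvd_prod_of_dvd (S := θ.charpoly.roots)
        (fun x => Polynomial.X - Polynomial.C x) (fun _ => m) (fun a ha => by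
          have : a ∈ R := by rw [hR]; exact Multiset.mem_toFinset.mpr ha
          exact Finset.dvd_prod_of_mem (fun μ => Polynomial.X - Polynomial.C μ) this)
      rw [Multiset.map_const', Multiset.prod_replicate, hcard5] at h2
      exact h2
    have hnil : (Polynomial.aeval θ m) ^ n = 0 := by
      obtain ⟨q, hq⟩ := hdvd
      rw [← map_pow, hq, map_mul, Matrix.aeval_self_charpoly, zero_mul]
    have htr : ∀ j : ℕ, Matrix.trace (Polynomial.aeval θ m * θ ^ j) = 0 := by
      intro j
      have hc : Commute (Polynomial.aeval θ m) (θ ^ j) := by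
        have hx : θ ^ j = Polynomial.aeval θ (Polynomial.X ^ j : Polynomial Ω) := by simp
        rw [hx]
        show _ * _ = _ * _
        rw [← map_mul, ← map_mul, mul_comm]
      have hn : IsNilpotent (Polynomial.aeval θ m * θ ^ j) := by
        refine ⟨n, ?_⟩
        rw [hc.mul_pow, hnil, zero_mul]
      exact (Matrix.isNilpotent_trace_of_isNilpotent hn).eq_zero
    apply h
    unfold discM
    rw [← Matrix.exists_mulVec_eq_zero_iff]
    refine ⟨fun k => m.coeff (k : ℕ), ?_, ?_⟩
    · intro h0
      have h1 := congrFun h0 ⟨m.natDegree, hmd⟩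
      simp only [Pi.zero_apply] at h1
      have h2 := hmm.leadingCoeff
      rw [Polynomial.leadingCoeff] at h2
      rw [h2] at h1
      exact one_ne_zero h1
    · funext i
      have h1 := htr (i : ℕ)
      rw [Polynomial.aeval_eq_sum_range' hmd, Finset.sum_mul, Matrix.trace_sum,
        Finset.sum_range (fun k => Matrix.trace (m.coeff k • θ ^ k * θ ^ (i : ℕ)))] at h1
      rw [Pi.zero_apply, ← h1]
      simp only [Matrix.mulVec, dotProduct, Matrix.of_apply]
      refine Finset.sum_congr rfl fun k _ => ?_
      rw [smul_mul_assoc, Matrix.trace_smul, smul_eq_mul, ← pow_add, add_comm (k : ℕ) (i : ℕ), mul_comm]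
  -- choose five distinct eigenvalues
  obtain ⟨T, hT, hTc⟩ := Finset.exists_subset_card_eq hcard
  have e : Fin n ≃ T := (Finset.equivFinOfCardEq hTc).symm
  have hev : ∀ i : Fin n, Module.End.HasEigenvalue (Matrix.toLin' θ) ((e i : T) : Ω) := by
    intro i
    rw [Module.End.hasEigenvalue_iff_isRoot_charpoly, Matrix.charpoly_toLin']
    have h1 := hT (e i).2
    rw [Multiset.mem_toFinset] at h1
    exact (Polynomial.mem_roots hcne).mp h1
  choose v hv using fun i => (hev i).exists_hasEigenvector
  have hinj : Function.Injective fun i : Fin n => ((e i : T) : Ω) :=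
    Subtype.val_injective.comp e.injective
  have hli : LinearIndependent Ω v :=
    Module.End.eigenvectors_linearIndependent' (Matrix.toLin' θ) _ hinj v hv
  set S : MN n Ω := Matrix.of fun i j => v j i with hS
  have hcol : S.col = v := by
    funext j i; rfl
  have hunit : IsUnit S := by
    rw [← Matrix.linearIndependent_cols_iff_isUnit, hcol]; exact hli
  obtain ⟨u, hu⟩ := hunit
  have hθS : θ * S = S * Matrix.diagonal fun i => ((e i : T) : Ω) := by
    ext i j
    rw [Matrix.mul_diagonal]
    have h1 := (hv j).apply_eq_smul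
    rw [Matrix.toLin'_apply] at h1
    have h2 := congrFun h1 i
    rw [Pi.smul_apply, smul_eq_mul, mul_comm] at h2
    exact h2
  refine ⟨S, ((u⁻¹ : (MN n Ω)ˣ) : MN n Ω), fun i => ((e i : T) : Ω), ?_, ?_, hinj⟩
  · rw [← hu]; exact u.mul_inv
  · rw [mul_assoc, hθS, ← mul_assoc]
    have : ((u⁻¹ : (MN n Ω)ˣ) : MN n Ω) * S = 1 := by rw [← hu]; exact u.inv_mul
    rw [this, one_mul]

end Pool.Agent.Helper41.BJ
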