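import Pool.Agent.Helper41.BJ.A1
import Pool.Agent.Helper41.BJ.A3a

/-! General degree version (project BJ, MP_5d2531_al) of the corresponding file of helper58 / helper76. -/

namespace Pool.Agent.Helper41.BJ

open Matrix Finset

variable {n : ℕ} [NeZero n] {F : Type*} {Ω : Type*} [Field F] [Field Ω] [Algebra F Ω]

/-- `discM` commutes with ring homomorphisms -/
theorem map_discM {R S : Type*} [CommRing R] [CommRing S] (φ : R →+* S) (θ : MN n R) :
    φ (discM θ) = discM (θ.map φ) := by
  unfold discM
  rw [RingHom.map_det]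
  congr 1
  ext i j
  simp only [RingHom.mapMatrix_apply, Matrix.map_apply, Matrix.of_apply]
  rw [← Matrix.map_pow]
  simp only [Matrix.trace, Matrix.diag_apply, Matrix.map_apply, map_sum]

theorem A3c [Infinite F] (D : Subalgebra F (MN n Ω)) (hD : IsForm D) :
    ∃ θ ∈ D, discM θ ≠ 0 := by
  have key : ∀ d : MN n Ω, MvPolynomial.eval (fun p : Fin n × Fin n => d p.1 p.2)
      (discM (Matrix.mvPolynomialX (Fin n) (Fin n) Ω)) = discM d := by
    intro d
    have h := map_discM (MvPolynomial.eval (fun p : Fin n × Fin n => d p.1 p.2))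
      (Matrix.mvPolynomialX (Fin n) (Fin n) Ω)
    rw [h]
    congr 1
    ext i j
    simp [Matrix.mvPolynomialX]
  have : Infinite Ω := Infinite.of_injective _ (algebraMap F Ω).injective
  obtain ⟨a⟩ : Nonempty (Fin n ↪ Ω) := ⟨(Fin.valEmbedding).trans (Infinite.natEmbedding Ω)⟩
  have hne : discM (Matrix.mvPolynomialX (Fin n) (Fin n) Ω) ≠ 0 := by
    intro h0
    have h1 := key (Matrix.diagonal a)
    rw [h0, map_zero] at h1
    exact A3a a a.injective h1.symm
  obtain ⟨d, hd, hd'⟩ := A1 D hD _ hne
  exact ⟨d, hd, by rwa [key] at hd'⟩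

end Pool.Agent.Helper41.BJ
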