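import Pool.Agent.Helper41.BJ.A5
import Pool.Agent.Helper41.BJ.A6

/-! General degree version (project BJ, MP_5d2531_al) of the corresponding file of helper58 / helper76. -/

namespace Pool.Agent.Helper41.BJ

open Matrix Finset

variable {n : ℕ} [NeZero n] {F : Type*} {Ω : Type*} [Field F] [Field Ω] [Algebra F Ω]

theorem A7 (D : Subalgebra F (MN n Ω)) (hD : IsForm D) (a : Fin n → Ω) (ha : Function.Injective a)
    (hθ : Matrix.diagonal a ∈ D) (d : MN n Ω) (hd : d ∈ D) :
    ∃ c : F, Matrix.trace d = algebraMap F Ω c := by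
  set l : Fin n → Ω := fun i => d i i with hl
  have hlD : Matrix.diagonal l ∈ D := A5 D hD a ha hθ d hd
  have h1 : ∀ k : Fin n, Matrix.diagonal (fun i => l i * a i ^ (k : ℕ)) ∈ D := by
    intro k
    have h := D.mul_mem hlD (D.pow_mem hθ (k : ℕ))
    rw [Matrix.diagonal_pow, Matrix.diagonal_mul_diagonal] at h
    exact h
  choose c hc using fun k => A6 D hD a ha hθ _ (h1 k)
  have h2 : ∀ i k : Fin n, l i * a i ^ (k : ℕ) = ∑ j : Fin n, algebraMap F Ω (c k j) * a i ^ (j : ℕ) := by
    intro i k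
    have h := congrFun (congrFun (hc k) i) i
    rw [Matrix.diagonal_apply_eq, Matrix.sum_apply] at h
    rw [h]
    apply Finset.sum_congr rfl
    intro j _
    rw [Matrix.smul_apply, Matrix.diagonal_pow, Matrix.diagonal_apply_eq, Algebra.smul_def]
    rfl
  set V := Matrix.vandermonde a with hV
  have hdet : IsUnit V.det := isUnit_iff_ne_zero.mpr ((Matrix.det_vandermonde_ne_zero_iff).mpr ha)
  have h3 : Matrix.diagonal l * V = V * Matrix.of (fun j k => algebraMap F Ω (c k j)) := by
    ext i k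
    rw [Matrix.diagonal_mul, Matrix.mul_apply, hV, Matrix.vandermonde_apply, h2 i k]
    apply Finset.sum_congr rfl
    intro j _
    rw [Matrix.vandermonde_apply, Matrix.of_apply, mul_comm]
  refine ⟨∑ k, c k k, ?_⟩
  have h4 : Matrix.trace (Matrix.diagonal l) = ∑ k, algebraMap F Ω (c k k) := by
    have h5 : Matrix.diagonal l = V * Matrix.of (fun j k => algebraMap F Ω (c k j)) * V⁻¹ := by
      rw [← h3, mul_assoc, Matrix.mul_nonsing_inv _ hdet, mul_one]
    rw [h5, Matrix.trace_mul_comm, ← mul_assoc, Matrix.nonsing_inv_mul _ hdet, one_mul]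
    rfl
  rw [map_sum, ← h4, Matrix.trace_diagonal]
  rfl

end Pool.Agent.Helper41.BJ
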