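import Mathlib
import Pool.Agent.Helper96.CY.B0

/-! Prime degree version (project BJ, MP_5d2531_al) of the corresponding file of helper96. -/

namespace Pool.Agent.Helper41.BJ

open Pool.Agent.Helper96.CY

universe u v

theorem exists_subfield {p : ℕ} (hp : p.Prime) {F : Type u} {D : Type v} [Field F] [DivisionRing D] [Algebra F D]
    (hcen : ∀ x : D, (∀ y, x * y = y * x) → ∃ c : F, algebraMap F D c = x)
    (hdim : Module.finrank F D = p * p) :
    ∃ (L : Type u) (_ : Field L) (_ : Algebra F L) (θ : L) (_ : L →ₐ[F] D),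
      Module.finrank F L = p ∧ (minpoly F θ).natDegree = p := by
  classical
  have hfin : FiniteDimensional F D := Module.finite_of_finrank_pos (by rw [hdim]; exact Nat.mul_pos hp.pos hp.pos)
  have hex : ∃ t : D, t ∉ (algebraMap F D).range := by
    by_contra hcon
    push Not at hcon
    have h1 : (⊥ : Subalgebra F D) = ⊤ := by
      rw [eq_top_iff]
      intro x _
      rw [Algebra.mem_bot]
      exact hcon x
    have h2 : Module.finrank F D = 1 := (Subalgebra.bot_eq_top_iff_finrank_eq_one).1 h1
    rw [hdim] at h2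
    have h3 := hp.two_le
    nlinarith
  obtain ⟨t, ht⟩ := hex
  have hint : IsIntegral F t := Algebra.IsIntegral.isIntegral t
  obtain ⟨f, hf⟩ : ∃ f, f = minpoly F t := ⟨_, rfl⟩
  have hirr : Irreducible f := by rw [hf]; exact minpoly.irreducible hint
  have hmon : f.Monic := by rw [hf]; exact minpoly.monic hint
  have hfact : Fact (Irreducible f) := ⟨hirr⟩
  have hker : ∀ a : Polynomial F, a ∈ Ideal.span {f} → Polynomial.aeval t a = 0 := by
    intro a ha
    rw [Ideal.mem_span_singleton] at ha
    obtain ⟨c, rfl⟩ := ha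
    rw [map_mul, hf, minpoly.aeval, zero_mul]
  let ι : AdjoinRoot f →ₐ[F] D := Ideal.Quotient.liftₐ (Ideal.span {f}) (Polynomial.aeval t) hker
  have hinj : Function.Injective ι := ι.toRingHom.injective
  have hdimL : Module.finrank F (AdjoinRoot f) = f.natDegree := by
    rw [(AdjoinRoot.powerBasis hirr.ne_zero).finrank, AdjoinRoot.powerBasis_dim]
  have hdvd : f.natDegree ∣ p ^ 2 := by
    have h1 := natDegree_minpoly_dvd (F := F) t
    rw [hdim, ← hf, ← sq] at h1
    exact h1
  have h5 : f.natDegree = p := by
    obtain ⟨i, hi, hi'⟩ := (Nat.dvd_prime_pow hp).1 hdvd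
    have hi3 : i = 0 ∨ i = 1 ∨ i = 2 := by omega
    rcases hi3 with rfl | rfl | rfl
    · exfalso
      apply ht
      rw [← minpoly.natDegree_eq_one_iff, ← hf]
      simpa using hi'
    · simpa using hi'
    · exfalso
      have h25 : f.natDegree = p * p := by rw [hi', sq]
      have hfinL : FiniteDimensional F (AdjoinRoot f) :=
        Module.finite_of_finrank_pos (by rw [hdimL, h25]; exact Nat.mul_pos hp.pos hp.pos)
      have hsurj : Function.Surjective ι.toLinearMap :=
        (LinearMap.injective_iff_surjective_of_finrank_eq_finrank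
          (by rw [hdimL, h25, hdim])).1 hinj
      apply ht
      obtain ⟨c, hc⟩ := hcen t (fun y => by
        obtain ⟨a, ha⟩ := hsurj t
        obtain ⟨b, hb⟩ := hsurj y
        have ha' : ι a = t := ha
        have hb' : ι b = y := hb
        rw [← ha', ← hb', ← map_mul, ← map_mul, mul_comm])
      exact ⟨c, hc⟩
  refine ⟨AdjoinRoot f, inferInstance, inferInstance, AdjoinRoot.root f, ι, ?_, ?_⟩
  · rw [hdimL, h5]
  · rw [AdjoinRoot.minpoly_root hirr.ne_zero, hmon.leadingCoeff, inv_one, Polynomial.C_1, mul_one,
      h5]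

end Pool.Agent.Helper41.BJ
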