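import Mathlib
import Pool.Agent.Helper41.BJ.B2a
import Pool.Agent.Helper41.BJ.B2b
import Pool.Agent.Helper96.CY.B2c

/-! Prime degree version (project BJ, MP_5d2531_al) of the corresponding file of helper96. -/

namespace Pool.Agent.Helper41.BJ

open Pool.Agent.Helper96.CY

theorem exists_rep {p : ℕ} (hp : 0 < p) {F L D : Type*} [Field F] [Field L] [Algebra F L] [DivisionRing D]
    [Algebra F D] (hcen : ∀ x : D, (∀ y, x * y = y * x) → ∃ c : F, algebraMap F D c = x)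
    (hdim : Module.finrank F D = p * p) (ι : L →ₐ[F] D)
    (hL : Module.finrank F L = p) (θ : L) (hθ : (minpoly F θ).natDegree = p) :
    ∃ ρ : D →ₐ[F] Matrix (Fin p) (Fin p) L,
      ∀ d : Fin p → D, ∑ i : Fin p, θ ^ (i : ℕ) • ρ (d i) = 0 → ∀ i, d i = 0 := by
  classical
  obtain ⟨b, hb⟩ := exists_left_basis hp hdim ι hL
  obtain ⟨ρ, hρ⟩ := exists_row_rep ι b hb
  refine ⟨ρ, fun d hd => ?_⟩
  have he : LinearIndependent F (fun i : Fin p => (ι θ) ^ (i : ℕ)) := by
    have h1 : LinearIndependent F (fun i : Fin (minpoly F θ).natDegree => θ ^ (i : ℕ)) :=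
      linearIndependent_pow θ
    rw [hθ] at h1
    have hinj : Function.Injective ι := ι.toRingHom.injective
    have h2 := h1.map' ι.toLinearMap (LinearMap.ker_eq_bot.mpr hinj)
    have h3 : (fun i : Fin p => (ι θ) ^ (i : ℕ)) =
        (ι.toLinearMap : L →ₗ[F] D) ∘ (fun i : Fin p => θ ^ (i : ℕ)) := by
      funext i
      simp
    rw [h3]
    exact h2
  have hk : ∀ k, ∑ i : Fin p, (ι θ) ^ (i : ℕ) * (b k * d i) = 0 := by
    intro k
    have h1 : ∀ i : Fin p, (ι θ) ^ (i : ℕ) * (b k * d i) =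
        ∑ j, ι (θ ^ (i : ℕ) * ρ (d i) k j) * b j := by
      intro i
      rw [hρ, Finset.mul_sum]
      refine Finset.sum_congr rfl fun j _ => ?_
      rw [map_mul, map_pow, mul_assoc]
    rw [Finset.sum_congr rfl fun i _ => h1 i, Finset.sum_comm]
    refine Finset.sum_eq_zero fun j _ => ?_
    rw [← Finset.sum_mul, ← map_sum]
    have h2 : ∑ i : Fin p, θ ^ (i : ℕ) * ρ (d i) k j = 0 := by
      have h3 := congrFun (congrFun hd k) j
      rw [Matrix.sum_apply] at h3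
      simpa [Matrix.smul_apply] using h3
    rw [h2, map_zero, zero_mul]
  refine mul_mul_eq_zero hcen (fun i : Fin p => (ι θ) ^ (i : ℕ)) d he ?_
  intro x
  obtain ⟨l, hl⟩ := hb.2 x
  have hx : ∑ k, ι (l k) * b k = x := hl
  have h4 : ∀ i : Fin p, (ι θ) ^ (i : ℕ) * x * d i =
      ∑ k, ι (l k) * ((ι θ) ^ (i : ℕ) * (b k * d i)) := by
    intro i
    rw [← hx, Finset.mul_sum, Finset.sum_mul]
    refine Finset.sum_congr rfl fun k _ => ?_
    have hcomm : (ι θ) ^ (i : ℕ) * ι (l k) = ι (l k) * (ι θ) ^ (i : ℕ) := by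
      rw [← map_pow, ← map_mul, ← map_mul, mul_comm]
    calc (ι θ) ^ (i : ℕ) * (ι (l k) * b k) * d i
        = ((ι θ) ^ (i : ℕ) * ι (l k)) * (b k * d i) := by simp only [mul_assoc]
      _ = (ι (l k) * (ι θ) ^ (i : ℕ)) * (b k * d i) := by rw [hcomm]
      _ = ι (l k) * ((ι θ) ^ (i : ℕ) * (b k * d i)) := by rw [mul_assoc]
  show ∑ i : Fin p, (ι θ) ^ (i : ℕ) * x * d i = 0
  rw [Finset.sum_congr rfl fun i _ => h4 i, Finset.sum_comm]
  refine Finset.sum_eq_zero fun k _ => ?_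
  rw [← Finset.mul_sum, hk k, mul_zero]

end Pool.Agent.Helper41.BJ
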