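import Pool.Agent.Helper41.BJ.A3a
import Pool.Agent.Helper41.BJ.A6
import Pool.Agent.Helper41.BJ.A7

/-!
PROJECT BJ (MP_5d2531_al): a basis of the trace zero part of the maximal subfield of diagonal
elements.
-/

namespace Pool.Agent.Helper41.BJ

open Matrix Finset

variable {m : ℕ} {F : Type*} {Ω : Type*} [Field F] [Field Ω] [Algebra F Ω]

theorem basis_E (D : Subalgebra F (MN (m + 1) Ω)) (hD : IsForm D) (a : Fin (m + 1) → Ω)
    (ha : Function.Injective a) (hθ : Matrix.diagonal a ∈ D) :
    ∃ (b : Fin m → Fin (m + 1) → Ω) (w0 : Fin (m + 1) → Ω),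
      (∀ j, Matrix.diagonal (b j) ∈ D) ∧ (∀ j, ∑ i, b j i = 0) ∧ Matrix.diagonal w0 ∈ D ∧
      ∑ i, w0 i = 1 ∧ (∀ x : Fin m → Ω, ∑ j, x j • b j = 0 → x = 0) ∧
      ∀ w : Fin (m + 1) → Ω, ∃ (x : Fin m → Ω) (c : Ω), w = ∑ j, x j • b j + c • w0 := by
  classical
  let L : Submodule F (Fin (m + 1) → Ω) :=
    { carrier := {v | Matrix.diagonal v ∈ D}
      add_mem' := by
        intro v w hv hw
        change Matrix.diagonal (v + w) ∈ D
        have := D.add_mem hv hw
        rwa [Matrix.diagonal_add] at this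
      zero_mem' := by
        change Matrix.diagonal (0 : Fin (m + 1) → Ω) ∈ D
        have := D.zero_mem
        rwa [← Matrix.diagonal_zero] at this
      smul_mem' := by
        intro c v hv
        change Matrix.diagonal (c • v) ∈ D
        have := D.smul_mem hv c
        rwa [← Matrix.diagonal_smul] at this }
  have hL : ∀ v, v ∈ L ↔ Matrix.diagonal v ∈ D := fun v => Iff.rfl
  let p : Fin (m + 1) → Fin (m + 1) → Ω := fun k => a ^ (k : ℕ)
  have hp : ∀ k, p k ∈ L := by
    intro k
    rw [hL]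
    have := D.pow_mem hθ (k : ℕ)
    rwa [Matrix.diagonal_pow] at this
  -- traces
  have htr : ∀ v ∈ L, ∃ c : F, ∑ i, v i = algebraMap F Ω c := by
    intro v hv
    obtain ⟨c, hc⟩ := A7 D hD a ha hθ _ hv
    refine ⟨c, ?_⟩
    rw [← hc, Matrix.trace_diagonal]
  choose tr htr using htr
  -- independence of the powers
  have hdet : (Matrix.vandermonde a).det ≠ 0 := (Matrix.det_vandermonde_ne_zero_iff).mpr ha
  have hind : ∀ z : Fin (m + 1) → Ω, ∑ k, z k • p k = 0 → z = 0 := by
    intro z hz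
    have h1 : (Matrix.vandermonde a).mulVec z = 0 := by
      ext i
      have := congrFun hz i
      simp only [Finset.sum_apply, Pi.smul_apply, smul_eq_mul, Pi.zero_apply, p, Pi.pow_apply] at this
      simp only [Matrix.mulVec, dotProduct, Matrix.vandermonde_apply, Pi.zero_apply]
      rw [← this]
      exact Finset.sum_congr rfl fun k _ => mul_comm _ _
    exact Matrix.eq_zero_of_mulVec_eq_zero hdet h1
  have hspan : ∀ w : Fin (m + 1) → Ω, ∃ z : Fin (m + 1) → Ω, w = ∑ k, z k • p k := by
    intro w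
    refine ⟨(Matrix.vandermonde a)⁻¹.mulVec w, ?_⟩
    have h1 : (Matrix.vandermonde a).mulVec ((Matrix.vandermonde a)⁻¹.mulVec w) = w := by
      rw [Matrix.mulVec_mulVec, Matrix.mul_nonsing_inv _ (isUnit_iff_ne_zero.mpr hdet),
        Matrix.one_mulVec]
    ext i
    conv_lhs => rw [← h1]
    simp only [Finset.sum_apply, Pi.smul_apply, smul_eq_mul, p, Pi.pow_apply]
    simp only [Matrix.mulVec, dotProduct, Matrix.vandermonde_apply]
    exact Finset.sum_congr rfl fun k _ => mul_comm _ _
  -- some power has nonzero trace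
  obtain ⟨k0, hk0⟩ : ∃ k0 : Fin (m + 1), tr (p k0) (hp k0) ≠ 0 := by
    by_contra hcon
    push Not at hcon
    apply A3a a ha
    unfold discM
    apply Matrix.det_eq_zero_of_row_eq_zero (0 : Fin (m + 1))
    intro j
    rw [Matrix.of_apply, Matrix.diagonal_pow, Matrix.trace_diagonal]
    have h1 := htr (p j) (hp j)
    rw [hcon j, map_zero] at h1
    simpa [p] using h1
  set c0 := tr (p k0) (hp k0) with hc0
  let w0 : Fin (m + 1) → Ω := c0⁻¹ • p k0
  have hw0L : w0 ∈ L := L.smul_mem _ (hp k0)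
  have hw0 : ∑ i, w0 i = 1 := by
    have h1 := htr (p k0) (hp k0)
    simp only [w0, Pi.smul_apply]
    rw [← Finset.smul_sum, h1, ← hc0, Algebra.smul_def, ← map_mul, inv_mul_cancel₀ hk0, map_one]
  let q : Fin m → Fin (m + 1) := k0.succAbove
  let cc : Fin m → F := fun j => tr (p (q j)) (hp (q j))
  let b : Fin m → Fin (m + 1) → Ω := fun j => p (q j) - cc j • w0
  have hbL : ∀ j, b j ∈ L := fun j => L.sub_mem (hp _) (L.smul_mem _ hw0L)
  have hb0 : ∀ j, ∑ i, b j i = 0 := by
    intro j
    simp only [b, Pi.sub_apply, Pi.smul_apply]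
    rw [Finset.sum_sub_distrib, htr (p (q j)) (hp (q j)), ← Finset.smul_sum, hw0,
      Algebra.smul_def, mul_one, sub_self]
  have hexp : ∀ y : Fin m → Ω, ∑ j, y j • b j =
      ∑ j, y j • p (k0.succAbove j) - (∑ j, y j * algebraMap F Ω (cc j)) • w0 := by
    intro y
    simp only [b, smul_sub, Finset.sum_sub_distrib, Finset.sum_smul, mul_smul]
    congr 1
    exact Finset.sum_congr rfl fun j _ => by rw [algebraMap_smul]
  refine ⟨b, w0, hbL, hb0, hw0L, hw0, ?_, ?_⟩
  · intro y hy
    let z : Fin (m + 1) → Ω := k0.insertNth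
      (-((∑ j, y j * algebraMap F Ω (cc j)) * algebraMap F Ω c0⁻¹)) y
    have hz : ∑ k, z k • p k = 0 := by
      rw [Fin.sum_univ_succAbove _ k0]
      simp only [z, Fin.insertNth_apply_same, Fin.insertNth_apply_succAbove]
      rw [hexp] at hy
      rw [neg_smul, mul_smul, algebraMap_smul, neg_add_eq_sub]
      exact hy
    have hz0 := hind z hz
    ext j
    have := congrFun hz0 (k0.succAbove j)
    simpa only [z, Fin.insertNth_apply_succAbove, Pi.zero_apply] using this
  · intro w
    obtain ⟨z, rfl⟩ := hspan w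
    refine ⟨fun j => z (k0.succAbove j), z k0 * algebraMap F Ω c0 +
      ∑ j, z (k0.succAbove j) * algebraMap F Ω (cc j), ?_⟩
    rw [hexp, Fin.sum_univ_succAbove _ k0]
    have h1 : (algebraMap F Ω c0) • w0 = p k0 := by
      simp only [w0]
      rw [algebraMap_smul, smul_smul, mul_inv_cancel₀ hk0, one_smul]
    rw [add_smul, mul_smul, h1]
    abel

end Pool.Agent.Helper41.BJ
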