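import Pool.Agent.Helper41.BJ.S1

/-!
PROJECT BJ (MP_5d2531_al): the coefficients of the characteristic polynomial of a matrix with zero
diagonal.
-/

namespace Pool.Agent.Helper41.BJ

open Matrix Finset

section

variable {n : ℕ} {Ω : Type*} [CommRing Ω]

/-- sum over the pairs `i < j` -/
def S2 (f : Fin n → Fin n → Ω) : Ω := ∑ i, ∑ j, if i < j then f i j else 0

theorem sum_pairs (f : Fin n → Fin n → Ω) (h1 : ∀ i, f i i = 0) :
    ∑ i, ∑ j, f i j = S2 (fun i j => f i j + f j i) := by
  have e : ∀ i j, f i j = (if i < j then f i j else 0) + (if j < i then f i j else 0) := by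
    intro i j
    rcases lt_trichotomy i j with h | h | h
    · simp [h, h.not_gt]
    · subst h
      simp [h1]
    · simp [h, h.not_gt]
  have hsum : ∑ i, ∑ j, f i j =
      (∑ i, ∑ j, if i < j then f i j else 0) + (∑ i, ∑ j, if j < i then f i j else 0) := by
    simp only [← Finset.sum_add_distrib]
    exact Finset.sum_congr rfl fun i _ => Finset.sum_congr rfl fun j _ => e i j
  have r2 : (∑ i, ∑ j, if j < i then f i j else 0) = ∑ i, ∑ j, if i < j then f j i else 0 :=
    Finset.sum_comm
  rw [hsum, r2]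
  simp only [S2, ← Finset.sum_add_distrib]
  refine Finset.sum_congr rfl fun i _ => Finset.sum_congr rfl fun j _ => ?_
  split_ifs
  · rfl
  · simp

theorem sum_powersetCard_two (g : Finset (Fin n) → Ω) :
    ∑ s ∈ Finset.univ.powersetCard 2, g s = S2 (fun i j => g {i, j}) := by
  have e : S2 (fun i j => g {i, j}) =
      ∑ t ∈ (Finset.univ : Finset (Fin n × Fin n)).filter (fun t => t.1 < t.2), g {t.1, t.2} := by
    rw [Finset.sum_filter, Fintype.sum_prod_type]
    rfl
  rw [e]
  symm
  refine Finset.sum_bij (fun t _ => {t.1, t.2}) ?_ ?_ ?_ ?_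
  · rintro ⟨i, j⟩ ht
    have hij : i < j := (Finset.mem_filter.mp ht).2
    rw [Finset.mem_powersetCard]
    exact ⟨Finset.subset_univ _, Finset.card_pair hij.ne⟩
  · rintro ⟨i, j⟩ ht ⟨i', j'⟩ ht' h
    have hij : i < j := (Finset.mem_filter.mp ht).2
    have hij' : i' < j' := (Finset.mem_filter.mp ht').2
    have hi : i ∈ ({i', j'} : Finset (Fin n)) := by rw [← h]; simp
    have hj : j ∈ ({i', j'} : Finset (Fin n)) := by rw [← h]; simp
    simp only [Finset.mem_insert, Finset.mem_singleton] at hi hj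
    rw [Prod.mk.injEq]
    rcases hi with rfl | rfl <;> rcases hj with rfl | rfl
    · exact absurd hij (lt_irrefl _)
    · exact ⟨rfl, rfl⟩
    · exact absurd hij hij'.not_gt
    · exact absurd hij (lt_irrefl _)
  · intro s hs
    obtain ⟨x, y, hxy, rfl⟩ := Finset.card_eq_two.mp (Finset.mem_powersetCard.mp hs).2
    rcases lt_or_gt_of_ne hxy with h | h
    · exact ⟨(x, y), Finset.mem_filter.mpr ⟨Finset.mem_univ _, h⟩, rfl⟩
    · exact ⟨(y, x), Finset.mem_filter.mpr ⟨Finset.mem_univ _, h⟩, Finset.pair_comm _ _⟩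
  · intro t _
    rfl

theorem sum_powersetCard_three (g : Finset (Fin n) → Ω) :
    ∑ s ∈ Finset.univ.powersetCard 3, g s = S3 (fun i j k => g {i, j, k}) := by
  have e : S3 (fun i j k => g {i, j, k}) =
      ∑ t ∈ (Finset.univ : Finset (Fin n × Fin n × Fin n)).filter
        (fun t => t.1 < t.2.1 ∧ t.2.1 < t.2.2), g {t.1, t.2.1, t.2.2} := by
    rw [Finset.sum_filter, Fintype.sum_prod_type]
    unfold S3
    refine Finset.sum_congr rfl fun i _ => ?_
    rw [Fintype.sum_prod_type]
  rw [e]
  symm
  refine Finset.sum_bij (fun t _ => {t.1, t.2.1, t.2.2}) ?_ ?_ ?_ ?_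
  · rintro ⟨i, j, k⟩ ht
    obtain ⟨hij, hjk⟩ := (Finset.mem_filter.mp ht).2
    simp only at hij hjk
    rw [Finset.mem_powersetCard]
    exact ⟨Finset.subset_univ _, Finset.card_eq_three.mpr
      ⟨i, j, k, hij.ne, (hij.trans hjk).ne, hjk.ne, rfl⟩⟩
  · rintro ⟨i, j, k⟩ ht ⟨i', j', k'⟩ ht' h
    obtain ⟨hij, hjk⟩ := (Finset.mem_filter.mp ht).2
    obtain ⟨hij', hjk'⟩ := (Finset.mem_filter.mp ht').2
    simp only at hij hjk hij' hjk' h
    have hi : i ∈ ({i', j', k'} : Finset (Fin n)) := by rw [← h]; simp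
    have hj : j ∈ ({i', j', k'} : Finset (Fin n)) := by rw [← h]; simp
    have hk : k ∈ ({i', j', k'} : Finset (Fin n)) := by rw [← h]; simp
    simp only [Finset.mem_insert, Finset.mem_singleton] at hi hj hk
    have h3 : i = i' ∧ j = j' ∧ k = k' := by
      simp only [Fin.ext_iff, Fin.lt_def] at *
      omega
    obtain ⟨rfl, rfl, rfl⟩ := h3
    rfl
  · intro s hs
    have hc := (Finset.mem_powersetCard.mp hs).2
    let f := s.orderEmbOfFin hc
    have hr : Set.range f = s := Finset.range_orderEmbOfFin s hc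
    refine ⟨(f 0, f 1, f 2), Finset.mem_filter.mpr ⟨Finset.mem_univ _, ?_, ?_⟩, ?_⟩
    · exact f.lt_iff_lt.mpr (by decide)
    · exact f.lt_iff_lt.mpr (by decide)
    · apply Finset.coe_injective
      rw [← hr]
      ext x
      simp only [Finset.coe_insert, Finset.coe_singleton, Set.mem_insert_iff,
        Set.mem_singleton_iff, Set.mem_range]
      constructor
      · rintro (rfl | rfl | rfl)
        · exact ⟨0, rfl⟩
        · exact ⟨1, rfl⟩
        · exact ⟨2, rfl⟩
      · rintro ⟨y, rfl⟩
        fin_cases y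
        · exact Or.inl rfl
        · exact Or.inr (Or.inl rfl)
        · exact Or.inr (Or.inr rfl)
  · intro t _
    rfl

theorem minor_two (M : MN n Ω) (i j : Fin n) (hij : i ≠ j) :
    (M.submatrix (Subtype.val : ({i, j} : Finset (Fin n)) → Fin n)
      (Subtype.val : ({i, j} : Finset (Fin n)) → Fin n)).det = M i i * M j j - M i j * M j i := by
  let f : Fin 2 → ({i, j} : Finset (Fin n)) := ![⟨i, by simp⟩, ⟨j, by simp⟩]
  have hf : Function.Bijective f := by
    rw [Fintype.bijective_iff_injective_and_card]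
    refine ⟨?_, ?_⟩
    · intro x y hxy
      have h := congrArg Subtype.val hxy
      fin_cases x <;> fin_cases y
      · rfl
      · exact absurd h hij
      · exact absurd h.symm hij
      · rfl
    · rw [Fintype.card_fin, Fintype.card_coe]
      exact (Finset.card_pair hij).symm
  rw [← Matrix.det_submatrix_equiv_self (Equiv.ofBijective f hf), Matrix.det_fin_two]
  rfl

theorem minor_three (M : MN n Ω) (i j k : Fin n) (hij : i ≠ j) (hik : i ≠ k) (hjk : j ≠ k)
    (hi : M i i = 0) (hj : M j j = 0) (hk : M k k = 0) :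
    (M.submatrix (Subtype.val : ({i, j, k} : Finset (Fin n)) → Fin n)
      (Subtype.val : ({i, j, k} : Finset (Fin n)) → Fin n)).det = cyc3 M i j k := by
  let f : Fin 3 → ({i, j, k} : Finset (Fin n)) :=
    ![⟨i, by simp⟩, ⟨j, by simp⟩, ⟨k, by simp⟩]
  have hf : Function.Bijective f := by
    rw [Fintype.bijective_iff_injective_and_card]
    refine ⟨?_, ?_⟩
    · intro x y hxy
      have h := congrArg Subtype.val hxy
      fin_cases x <;> fin_cases y
      · rfl
      · exact absurd h hij
      · exact absurd h hik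
      · exact absurd h.symm hij
      · rfl
      · exact absurd h hjk
      · exact absurd h.symm hik
      · exact absurd h.symm hjk
      · rfl
    · rw [Fintype.card_fin, Fintype.card_coe]
      exact (Finset.card_eq_three.mpr ⟨i, j, k, hij, hik, hjk, rfl⟩).symm
  rw [← Matrix.det_submatrix_equiv_self (Equiv.ofBijective f hf), Matrix.det_fin_three]
  change M i i * M j j * M k k - M i i * M j k * M k j - M i j * M j i * M k k +
    M i j * M j k * M k i + M i k * M j i * M k j - M i k * M j j * M k i = _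
  rw [hi, hj, hk]
  unfold cyc3
  ring

theorem coeff_two (M : MN n Ω) (h0 : ∀ i, M i i = 0) (hn : 2 ≤ n)
    (h2 : IsUnit (2 : Ω)) (ht : Matrix.trace (M * M) = 0) : M.charpoly.coeff (n - 2) = 0 := by
  have h := Matrix.charpoly_coeff_eq_sum_minors M 2 (by simpa using hn)
  rw [Fintype.card_fin, sum_powersetCard_two
    (fun s => (M.submatrix (Subtype.val : s → Fin n) (Subtype.val : s → Fin n)).det)] at h
  have e : S2 (fun i j => (M.submatrix (Subtype.val : ({i, j} : Finset (Fin n)) → Fin n)
      (Subtype.val : ({i, j} : Finset (Fin n)) → Fin n)).det) = S2 (fun i j => -(M i j * M j i)) := by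
    unfold S2
    refine Finset.sum_congr rfl fun i _ => Finset.sum_congr rfl fun j _ => ?_
    split_ifs with hij
    · refine (minor_two M i j hij.ne).trans ?_
      rw [h0, zero_mul, zero_sub]
    · rfl
  have e2 : Matrix.trace (M * M) = -(2 * S2 (fun i j => -(M i j * M j i))) := by
    have e3 : Matrix.trace (M * M) = ∑ i, ∑ j, M i j * M j i := by
      unfold Matrix.trace
      exact Finset.sum_congr rfl fun i _ => by rw [Matrix.diag_apply, Matrix.mul_apply]
    rw [e3, sum_pairs _ (fun i => by rw [h0, mul_zero])]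
    simp only [S2, Finset.mul_sum, ← Finset.sum_neg_distrib]
    refine Finset.sum_congr rfl fun i _ => Finset.sum_congr rfl fun j _ => ?_
    split_ifs
    · ring
    · simp
  have e4 : S2 (fun i j => -(M i j * M j i)) = 0 := by
    rw [ht] at e2
    have e5 : (2 : Ω) * S2 (fun i j => -(M i j * M j i)) = 0 := by
      rw [← neg_eq_zero, ← e2]
    exact (h2.mul_right_eq_zero).mp e5
  rw [h, e, e4, mul_zero]

theorem coeff_three (M : MN n Ω) (h0 : ∀ i, M i i = 0) (hn : 3 ≤ n) :
    M.charpoly.coeff (n - 3) = - E3 M := by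
  have h := Matrix.charpoly_coeff_eq_sum_minors M 3 (by simpa using hn)
  rw [Fintype.card_fin, sum_powersetCard_three
    (fun s => (M.submatrix (Subtype.val : s → Fin n) (Subtype.val : s → Fin n)).det)] at h
  have e : S3 (fun i j k => (M.submatrix (Subtype.val : ({i, j, k} : Finset (Fin n)) → Fin n)
      (Subtype.val : ({i, j, k} : Finset (Fin n)) → Fin n)).det) = S3 (cyc3 M) := by
    unfold S3
    refine Finset.sum_congr rfl fun i _ => Finset.sum_congr rfl fun j _ =>
      Finset.sum_congr rfl fun k _ => ?_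
    split_ifs with hij
    · exact minor_three M i j k hij.1.ne (hij.1.trans hij.2).ne hij.2.ne (h0 i) (h0 j) (h0 k)
    · rfl
  rw [h, e]
  unfold E3
  ring

theorem coeff_one (M : MN n Ω) [NeZero n] (h0 : ∀ i, M i i = 0) :
    M.charpoly.coeff (n - 1) = 0 := by
  have h := Matrix.trace_eq_neg_charpoly_coeff M
  rw [Fintype.card_fin] at h
  have h1 : M.trace = 0 := Finset.sum_eq_zero fun i _ => h0 i
  rw [h1] at h
  exact neg_eq_zero.mp h.symm

/-- the characteristic polynomial of a 7 x 7 matrix with `e₁ = e₂ = e₃ = 0` -/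
theorem seven (M : MN 7 Ω) (h0 : ∀ i, M i i = 0) (h2 : IsUnit (2 : Ω))
    (ht : Matrix.trace (M * M) = 0) (h3 : E3 M = 0) :
    ∃ a b c d : Ω, M ^ 7 + a • M ^ 3 + b • M ^ 2 + c • M + d • (1 : MN 7 Ω) = 0 := by
  nontriviality Ω
  have h := Matrix.aeval_self_charpoly M
  have hd : M.charpoly.natDegree < 8 := by
    rw [Matrix.charpoly_natDegree_eq_dim]
    simp
  have h7 : M.charpoly.coeff 7 = 1 := by
    have := (Matrix.charpoly_monic M).coeff_natDegree
    rw [Matrix.charpoly_natDegree_eq_dim, Fintype.card_fin] at this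
    exact this
  have h6 : M.charpoly.coeff 6 = 0 := coeff_one M h0
  have h5 : M.charpoly.coeff 5 = 0 := coeff_two M h0 (by norm_num) h2 ht
  have h4 : M.charpoly.coeff 4 = 0 := by
    have := coeff_three M h0 (by norm_num)
    rw [h3, neg_zero] at this
    exact this
  rw [Polynomial.aeval_eq_sum_range' hd] at h
  simp only [Finset.sum_range_succ, Finset.sum_range_zero, h7, h6, h5, h4, zero_smul, one_smul,
    add_zero, zero_add, pow_zero, pow_one] at h
  refine ⟨M.charpoly.coeff 3, M.charpoly.coeff 2, M.charpoly.coeff 1, M.charpoly.coeff 0, ?_⟩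
  rw [← h]
  abel

end

end Pool.Agent.Helper41.BJ
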