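import Pool.Agent.Helper41.BJ.C1

/-!
PROJECT BJ (MP_5d2531_al): the second coefficient in all characteristics.
-/

namespace Pool.Agent.Helper41.BJ

open Matrix Finset

section

variable {n : ℕ} {Ω : Type*} [CommRing Ω]

theorem S2_add (f g : Fin n → Fin n → Ω) : S2 (fun i j => f i j + g i j) = S2 f + S2 g := by
  simp only [S2, ← Finset.sum_add_distrib]
  refine Finset.sum_congr rfl fun i _ => Finset.sum_congr rfl fun j _ => ?_
  split_ifs
  · rfl
  · rw [add_zero]

theorem S2_smul (c : Ω) (f : Fin n → Fin n → Ω) : S2 (fun i j => c * f i j) = c * S2 f := by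
  simp only [S2, Finset.mul_sum]
  refine Finset.sum_congr rfl fun i _ => Finset.sum_congr rfl fun j _ => ?_
  split_ifs
  · rfl
  · rw [mul_zero]

theorem sum_pairs' (f : Fin n → Fin n → Ω) :
    ∑ i, ∑ j, f i j = ∑ i, f i i + S2 (fun i j => f i j + f j i) := by
  have h1 := sum_pairs (fun i j => if i = j then 0 else f i j) (fun i => if_pos rfl)
  have h2 : S2 (fun i j => (if i = j then 0 else f i j) + (if j = i then 0 else f j i)) =
      S2 (fun i j => f i j + f j i) := by
    unfold S2
    refine Finset.sum_congr rfl fun i _ => Finset.sum_congr rfl fun j _ => ?_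
    by_cases h : i < j
    · rw [if_pos h, if_pos h]
      simp only [if_neg h.ne, if_neg h.ne']
    · rw [if_neg h, if_neg h]
  rw [h2] at h1
  rw [← h1, ← Finset.sum_add_distrib]
  refine Finset.sum_congr rfl fun i _ => ?_
  have h3 : f i i = ∑ j, if i = j then f i j else 0 := by simp
  rw [h3, ← Finset.sum_add_distrib]
  refine Finset.sum_congr rfl fun j _ => ?_
  split_ifs
  · rw [add_zero]
  · rw [zero_add]

theorem S2_bil (p q : Fin n → Ω) :
    S2 (fun i j => p i * q j + p j * q i) = (∑ i, p i) * (∑ i, q i) - ∑ i, p i * q i := by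
  have h := sum_pairs' (fun i j => p i * q j)
  have h2 : ∑ i, ∑ j, p i * q j = (∑ i, p i) * (∑ i, q i) := by
    rw [Finset.sum_mul_sum]
  rw [h2] at h
  rw [h]
  ring

/-- second coefficient (up to sign) of a matrix with zero diagonal -/
def E2 (M : MN n Ω) : Ω := S2 (fun i j => M i j * M j i)

theorem coeff_two' (M : MN n Ω) (h0 : ∀ i, M i i = 0) (hn : 2 ≤ n) :
    M.charpoly.coeff (n - 2) = - E2 M := by
  have h := Matrix.charpoly_coeff_eq_sum_minors M 2 (by simpa using hn)
  rw [Fintype.card_fin, sum_powersetCard_two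
    (fun s => (M.submatrix (Subtype.val : s → Fin n) (Subtype.val : s → Fin n)).det)] at h
  have e : S2 (fun i j => (M.submatrix (Subtype.val : ({i, j} : Finset (Fin n)) → Fin n)
      (Subtype.val : ({i, j} : Finset (Fin n)) → Fin n)).det) =
      S2 (fun i j => (-1) * (M i j * M j i)) := by
    unfold S2
    refine Finset.sum_congr rfl fun i _ => Finset.sum_congr rfl fun j _ => ?_
    split_ifs with hij
    · refine (minor_two M i j hij.ne).trans ?_
      rw [h0, zero_mul, zero_sub]
      exact (neg_one_mul _).symm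
    · rfl
  rw [h, e, S2_smul]
  unfold E2
  ring

theorem trace_two (M N : MN n Ω) (hM : ∀ i, M i i = 0) :
    Matrix.trace (M * N) = S2 (fun i j => M i j * N j i + M j i * N i j) := by
  have e3 : Matrix.trace (M * N) = ∑ i, ∑ j, M i j * N j i := by
    unfold Matrix.trace
    exact Finset.sum_congr rfl fun i _ => by rw [Matrix.diag_apply, Matrix.mul_apply]
  rw [e3, sum_pairs _ (fun i => by rw [hM, zero_mul])]

theorem E2_pencil (u v : MN n Ω) (hu : ∀ i, u i i = 0) (s t : Ω) :
    E2 (s • u + t • v) = s ^ 2 * E2 u + s * t * Matrix.trace (u * v) + t ^ 2 * E2 v := by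
  rw [trace_two u v hu]
  unfold E2
  rw [← S2_smul, ← S2_smul, ← S2_smul, ← S2_add, ← S2_add]
  congr 1
  funext i j
  simp only [Matrix.add_apply, Matrix.smul_apply, smul_eq_mul]
  ring

/-- the matrix with entries `h_ij (c_j - c_i) a_j`, that is `h (c a) - c h a` -/
def XC (h : MN n Ω) (a c : Fin n → Ω) : MN n Ω := Matrix.of fun i j => h i j * ((c j - c i) * a j)

theorem XC_eq (h : MN n Ω) (a c : Fin n → Ω) : XC h a c =
    h * Matrix.diagonal (fun i => c i * a i) - Matrix.diagonal c * h * Matrix.diagonal a := by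
  ext i j
  rw [Matrix.sub_apply, Matrix.mul_diagonal, Matrix.mul_diagonal, Matrix.diagonal_mul]
  simp only [XC, Matrix.of_apply]
  ring

theorem XC_diag (h : MN n Ω) (a c : Fin n → Ω) (i : Fin n) : XC h a c i i = 0 := by
  simp [XC]

/-- the second coefficient of `XC h p c + XC h q c'` -/
theorem E2_XC (h : MN n Ω) (hs : ∀ i j, h i j * h j i = 1) (p q c c' : Fin n → Ω)
    (hp : ∑ i, p i = 0) (hq : ∑ i, q i = 0) :
    E2 (XC h p c + XC h q c') = (∑ i, c i * p i) ^ 2 + (∑ i, c i * q i) * (∑ i, c' i * p i) +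
      (∑ i, c' i * q i) * (∑ i, c i * p i) + (∑ i, c' i * q i) ^ 2 := by
  have e : ∀ i j, (XC h p c + XC h q c') i j * (XC h p c + XC h q c') j i =
      (-1) * (((c i ^ 2 * p i) * p j + (c j ^ 2 * p j) * p i)
      + (-1) * ((c i * p i) * (c j * p j) + (c j * p j) * (c i * p i))
      + ((c i * c' i * q i) * p j + (c j * c' j * q j) * p i)
      + (-1) * ((c i * q i) * (c' j * p j) + (c j * q j) * (c' i * p i))
      + (-1) * ((c' i * q i) * (c j * p j) + (c' j * q j) * (c i * p i))
      + (q i * (c j * c' j * p j) + q j * (c i * c' i * p i))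
      + ((c' i ^ 2 * q i) * q j + (c' j ^ 2 * q j) * q i)
      + (-1) * ((c' i * q i) * (c' j * q j) + (c' j * q j) * (c' i * q i))) := by
    intro i j
    simp only [Matrix.add_apply, XC, Matrix.of_apply]
    have h1 : (h i j * ((c j - c i) * p j) + h i j * ((c' j - c' i) * q j)) *
        (h j i * ((c i - c j) * p i) + h j i * ((c' i - c' j) * q i)) =
        (h i j * h j i) * (((c j - c i) * p j + (c' j - c' i) * q j) *
          ((c i - c j) * p i + (c' i - c' j) * q i)) := by ring
    rw [h1, hs, one_mul]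
    by_cases hij : i = j
    · subst hij
      ring
    · ring
  unfold E2
  have e2 : (fun i j => (XC h p c + XC h q c') i j * (XC h p c + XC h q c') j i) = _ :=
    funext fun i => funext fun j => e i j
  rw [e2, S2_smul, S2_add, S2_add, S2_add, S2_add, S2_add, S2_add, S2_add, S2_smul, S2_smul,
    S2_smul, S2_smul, S2_bil, S2_bil, S2_bil, S2_bil, S2_bil, S2_bil, S2_bil, S2_bil, hp, hq]
  have r1 : ∑ i, c i ^ 2 * p i * p i = ∑ i, c i * p i * (c i * p i) :=
    Finset.sum_congr rfl fun i _ => by ring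
  have r2 : ∑ i, c i * c' i * q i * p i = ∑ i, c i * q i * (c' i * p i) :=
    Finset.sum_congr rfl fun i _ => by ring
  have r3 : ∑ i, q i * (c i * c' i * p i) = ∑ i, c' i * q i * (c i * p i) :=
    Finset.sum_congr rfl fun i _ => by ring
  have r4 : ∑ i, c' i ^ 2 * q i * q i = ∑ i, c' i * q i * (c' i * q i) :=
    Finset.sum_congr rfl fun i _ => by ring
  rw [r1, r2, r3, r4]
  ring

theorem E2_XC_one (h : MN n Ω) (hs : ∀ i j, h i j * h j i = 1) (a c : Fin n → Ω)
    (ha : ∑ i, a i = 0) (hc : ∑ i, c i * a i = 0) : E2 (XC h a c) = 0 := by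
  have h1 := E2_XC h hs a 0 c 0 ha (by simp)
  have h2 : XC h a c + XC h 0 0 = XC h a c := by
    ext i j
    simp [XC]
  rw [h2] at h1
  rw [h1, hc]
  simp

/-- the third coefficient of `XC h a c` -/
theorem E3_XC (h : MN n Ω) (a c : Fin n → Ω) :
    E3 (XC h a c) = - om h a (fun i => c i * a i) (fun i => c i ^ 2 * a i) := by
  rw [om_S3]
  have e : - S3 (fun i j k => alt3 h i j k *
      det3 a (fun i => c i * a i) (fun i => c i ^ 2 * a i) i j k) =
      S3 (fun i j k => (-1) * (alt3 h i j k *
        det3 a (fun i => c i * a i) (fun i => c i ^ 2 * a i) i j k)) := by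
    rw [S3_smul]; ring
  rw [e]
  unfold E3
  congr 1
  funext i j k
  simp only [cyc3, XC, Matrix.of_apply, alt3, det3]
  ring

end

end Pool.Agent.Helper41.BJ
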