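import Mathlib

/-!
PROJECT BJ (MP_5d2531_al): definitions. General degree `n` versions of the definitions of
`Helper58/CY/Defs.lean` and `Helper76/C5/Defs.lean`.
-/

namespace Pool.Agent.Helper41.BJ

open Matrix Finset

/-- n x n matrices -/
abbrev MN (n : ℕ) (Ω : Type*) := Matrix (Fin n) (Fin n) Ω

section Form

variable {n : ℕ} {F : Type*} {Ω : Type*} [Field F] [Field Ω] [Algebra F Ω]

/-- `D` is an `F`-form of `M_n(Ω)`: `n²` elements of `D`, linearly independent over `Ω`, span `D`
over `F`. -/
def IsForm (D : Subalgebra F (MN n Ω)) : Prop :=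
  ∃ b : Fin (n * n) → MN n Ω, (∀ i, b i ∈ D) ∧ LinearIndependent Ω b ∧
    ∀ d ∈ D, ∃ c : Fin (n * n) → F, d = ∑ i, c i • b i

/-- every nonzero element of `D` is invertible in `D` -/
def IsDiv (D : Subalgebra F (MN n Ω)) : Prop :=
  ∀ d ∈ D, d ≠ 0 → ∃ d' ∈ D, d * d' = 1

/-- conjugation `x ↦ S x S'` with `S S' = 1` -/
def conjHom (F : Type*) {Ω : Type*} [Field F] [Field Ω] [Algebra F Ω]
    (S S' : MN n Ω) (h : S * S' = 1) : MN n Ω →ₐ[F] MN n Ω where
  toFun x := S * x * S'
  map_one' := by rw [mul_one, h]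
  map_mul' x y := by
    have h' : S' * S = 1 := mul_eq_one_comm.mp h
    calc S * (x * y) * S' = S * x * 1 * y * S' := by simp only [mul_one, mul_assoc]
      _ = S * x * (S' * S) * y * S' := by rw [h']
      _ = S * x * S' * (S * y * S') := by simp only [mul_assoc]
  map_zero' := by simp
  map_add' x y := by rw [mul_add, add_mul]
  commutes' r := by
    rw [Algebra.algebraMap_eq_smul_one, mul_smul_comm, mul_one, smul_mul_assoc, h]

/-- the conjugate of `D`: all `x` with `S x S' ∈ D` -/
def conjD (D : Subalgebra F (MN n Ω)) (S S' : MN n Ω) (h : S * S' = 1) : Subalgebra F (MN n Ω) :=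
  D.comap (conjHom F S S' h)

lemma mem_conjD (D : Subalgebra F (MN n Ω)) (S S' : MN n Ω) (h : S * S' = 1) (x : MN n Ω) :
    x ∈ conjD D S S' h ↔ S * x * S' ∈ D := Iff.rfl

end Form

section Arr

variable {n : ℕ} {F : Type*} {Ω : Type*} [Field F] [Field Ω] [Algebra F Ω]

/-- entrywise product of an array with a matrix -/
def had (f : Fin n → Fin n → Ω) (d : MN n Ω) : MN n Ω := Matrix.of fun i j => f i j * d i j

/-- arrays whose entrywise product maps `D` to `D` -/
def Arr (D : Subalgebra F (MN n Ω)) : Subalgebra F (Fin n → Fin n → Ω) where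
  carrier := {f | ∀ d ∈ D, had f d ∈ D}
  mul_mem' := by
    intro f g hf hg d hd
    have h := hf _ (hg d hd)
    have e : had (f * g) d = had f (had g d) := by
      ext i j
      simp [had, mul_assoc]
    rw [e]
    exact h
  add_mem' := by
    intro f g hf hg d hd
    have h := D.add_mem (hf d hd) (hg d hd)
    have e : had (f + g) d = had f d + had g d := by
      ext i j
      simp [had, add_mul]
    rw [e]
    exact h
  algebraMap_mem' := by
    intro c d hd
    have h := D.smul_mem hd c
    have e : had (algebraMap F (Fin n → Fin n → Ω) c) d = c • d := by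
      ext i j
      simp [had, Algebra.smul_def]
    rw [e]
    exact h

lemma mem_Arr (D : Subalgebra F (MN n Ω)) (f : Fin n → Fin n → Ω) :
    f ∈ Arr D ↔ ∀ d ∈ D, had f d ∈ D := Iff.rfl

end Arr

section Comm

variable {n : ℕ} {Ω : Type*} [CommRing Ω]

/-- discriminant of the characteristic polynomial, as the determinant of the trace form on powers -/
def discM (θ : MN n Ω) : Ω :=
  Matrix.det (Matrix.of fun i j : Fin n => Matrix.trace (θ ^ ((i : ℕ) + (j : ℕ))))

/-- `ω(u,v,w) = tr (u h v h w h) - tr (u h w h v h)` -/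
def om (h : MN n Ω) (u v w : Fin n → Ω) : Ω :=
  ∑ i, ∑ j, ∑ k, (h i j * h j k * h k i - h i k * h k j * h j i) * (u i * v j * w k)

/-- sum over the triples `i < j < k` -/
def S3 (f : Fin n → Fin n → Fin n → Ω) : Ω :=
  ∑ i, ∑ j, ∑ k, if i < j ∧ j < k then f i j k else 0

/-- the two 3-cycles on `i, j, k` -/
def cyc3 (M : MN n Ω) (i j k : Fin n) : Ω := M i j * M j k * M k i + M i k * M k j * M j i

/-- third elementary coefficient of a matrix with zero diagonal -/
def E3 (M : MN n Ω) : Ω := S3 (cyc3 M)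

end Comm

/-- the matrix `x = r⁻¹ (s h r - r h s)` up to sign: entries `r_i⁻¹ (r_i s_j - r_j s_i) h_ij` -/
def XX {n : ℕ} {Ω : Type*} [Field Ω] (h : MN n Ω) (r s : Fin n → Ω) : MN n Ω :=
  Matrix.of fun i j => (r i)⁻¹ * ((r i * s j - r j * s i) * h i j)

end Pool.Agent.Helper41.BJ
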