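import Pool.Agent.Helper41.BJ.Defs
import Pool.Agent.Helper41.BJ.A3a
import Pool.Agent.Helper41.BJ.A5
import Pool.Agent.Helper41.BJ.A6
import Pool.Agent.Helper41.BJ.A7

/-! General degree version (project BJ, MP_5d2531_al) of the corresponding file of helper58 / helper76. -/

namespace Pool.Agent.Helper41.BJ

open Matrix Finset

variable {n : ℕ} [NeZero n] {F : Type*} {Ω : Type*} [Field F] [Field Ω] [Algebra F Ω]

theorem H1 (D : Subalgebra F (MN n Ω)) (hD : IsForm D) (a : Fin n → Ω) (ha : Function.Injective a)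
    (hθ : Matrix.diagonal a ∈ D) :
    ∃ ρ : Fin n → Fin n → Ω, (∀ l, Matrix.diagonal (ρ l) ∈ D) ∧
      ∀ j k : Fin n, ∑ l : Fin n, ρ l j * a k ^ (l : ℕ) = if j = k then 1 else 0 := by
  classical
  have hpow : ∀ n : ℕ, (Matrix.diagonal a) ^ n ∈ D := fun n => D.pow_mem hθ n
  choose c hc using fun n : ℕ => A7 D hD a ha hθ _ (hpow n)
  set V : MN n Ω := Matrix.vandermonde a with hV
  have hVdet : V.det ≠ 0 := by
    rw [hV, Matrix.det_vandermonde_ne_zero_iff]
    exact ha
  let T0 : Matrix (Fin n) (Fin n) F := Matrix.of fun l m => c ((l : ℕ) + (m : ℕ))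
  have hT : (algebraMap F Ω).mapMatrix T0 = Vᵀ * V := by
    ext l m
    have h1 : ((algebraMap F Ω).mapMatrix T0) l m = algebraMap F Ω (c ((l : ℕ) + (m : ℕ))) := rfl
    rw [h1, ← hc, Matrix.diagonal_pow, Matrix.trace_diagonal, Matrix.mul_apply]
    refine Finset.sum_congr rfl fun j _ => ?_
    simp [hV, Matrix.vandermonde_apply, pow_add]
  have hdet : algebraMap F Ω T0.det = V.det * V.det := by
    rw [RingHom.map_det, hT, Matrix.det_mul, Matrix.det_transpose]
  have hT0 : T0.det ≠ 0 := by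
    intro h0
    rw [h0, map_zero] at hdet
    exact mul_ne_zero hVdet hVdet hdet.symm
  have hT0u : IsUnit T0.det := isUnit_iff_ne_zero.mpr hT0
  have hVu : IsUnit V.det := isUnit_iff_ne_zero.mpr hVdet
  set S : MN n Ω := (algebraMap F Ω).mapMatrix T0⁻¹ with hS
  have hST : S * (Vᵀ * V) = 1 := by
    rw [hS, ← hT, ← map_mul, Matrix.nonsing_inv_mul _ hT0u, map_one]
  have hmain : V * (S * Vᵀ) = 1 := by
    rw [mul_eq_one_comm, Matrix.mul_assoc]
    exact hST
  refine ⟨fun l j => (S * Vᵀ) l j, ?_, ?_⟩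
  · intro l
    have h1 : Matrix.diagonal (fun j => (S * Vᵀ) l j) =
        ∑ m : Fin n, T0⁻¹ l m • (Matrix.diagonal a) ^ (m : ℕ) := by
      ext i j
      rw [Matrix.sum_apply]
      by_cases hij : i = j
      · subst hij
        rw [Matrix.diagonal_apply_eq, Matrix.mul_apply]
        refine Finset.sum_congr rfl fun m _ => ?_
        rw [Matrix.smul_apply, Matrix.diagonal_pow, Matrix.diagonal_apply_eq, Algebra.smul_def]
        simp [hS, hV, Matrix.vandermonde_apply]
      · rw [Matrix.diagonal_apply_ne _ hij]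
        symm
        refine Finset.sum_eq_zero fun m _ => ?_
        rw [Matrix.smul_apply, Matrix.diagonal_pow, Matrix.diagonal_apply_ne _ hij, smul_zero]
    rw [h1]
    exact D.sum_mem fun m _ => D.smul_mem (hpow m) _
  · intro j k
    have h2 : (V * (S * Vᵀ)) k j = ∑ l : Fin n, (S * Vᵀ) l j * a k ^ (l : ℕ) := by
      rw [Matrix.mul_apply]
      refine Finset.sum_congr rfl fun l _ => ?_
      rw [hV, Matrix.vandermonde_apply, mul_comm]
    rw [← h2, hmain, Matrix.one_apply]
    by_cases hjk : j = k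
    · rw [if_pos hjk, if_pos hjk.symm]
    · rw [if_neg hjk, if_neg (fun h => hjk h.symm)]

end Pool.Agent.Helper41.BJ
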