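import Pool.Agent.Helper41.BJ.H1

/-! General degree version (project BJ, MP_5d2531_al) of the corresponding file of helper58 / helper76. -/

namespace Pool.Agent.Helper41.BJ

open Matrix Finset

variable {n : ℕ} [NeZero n] {F : Type*} {Ω : Type*} [Field F] [Field Ω] [Algebra F Ω]

theorem row_mem (D : Subalgebra F (MN n Ω)) (v : Fin n → Ω) (hv : Matrix.diagonal v ∈ D) :
    (fun i _ => v i : Fin n → Fin n → Ω) ∈ Arr D := by
  intro d hd
  have h : had (fun i _ => v i) d = Matrix.diagonal v * d := by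
    ext i j
    rw [Matrix.diagonal_mul]
    rfl
  rw [h]
  exact D.mul_mem hv hd

theorem col_mem (D : Subalgebra F (MN n Ω)) (v : Fin n → Ω) (hv : Matrix.diagonal v ∈ D) :
    (fun _ j => v j : Fin n → Fin n → Ω) ∈ Arr D := by
  intro d hd
  have h : had (fun _ j => v j) d = d * Matrix.diagonal v := by
    ext i j
    rw [Matrix.mul_diagonal, mul_comm]
    rfl
  rw [h]
  exact D.mul_mem hd hv

theorem H2 (D : Subalgebra F (MN n Ω)) (hD : IsForm D) (a : Fin n → Ω) (ha : Function.Injective a)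
    (hθ : Matrix.diagonal a ∈ D) (d d1 : MN n Ω) (hd : d ∈ D) (hd1 : d1 ∈ D) :
    (fun i j => d i j * d1 j i : Fin n → Fin n → Ω) ∈ Arr D := by
  obtain ⟨ρ, hρ, hdual⟩ := H1 D hD a ha hθ
  have hw : ∀ l : Fin n, (fun i _ => (d * Matrix.diagonal a ^ (l : ℕ) * d1) i i :
      Fin n → Fin n → Ω) ∈ Arr D := by
    intro l
    refine row_mem D _ (A5 D hD a ha hθ _ ?_)
    exact D.mul_mem (D.mul_mem hd (D.pow_mem hθ _)) hd1
  have hsum : (∑ l : Fin n, (fun _ j => ρ l j : Fin n → Fin n → Ω) *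
      (fun i _ => (d * Matrix.diagonal a ^ (l : ℕ) * d1) i i : Fin n → Fin n → Ω)) ∈ Arr D :=
    (Arr D).sum_mem fun l _ => (Arr D).mul_mem (col_mem D (ρ l) (hρ l)) (hw l)
  have he : (fun i j => d i j * d1 j i : Fin n → Fin n → Ω) =
      ∑ l : Fin n, (fun _ j => ρ l j : Fin n → Fin n → Ω) *
        (fun i _ => (d * Matrix.diagonal a ^ (l : ℕ) * d1) i i : Fin n → Fin n → Ω) := by
    funext i j
    rw [Finset.sum_apply, Finset.sum_apply]
    have h1 : ∀ l : Fin n, ((fun _ j => ρ l j : Fin n → Fin n → Ω) *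
        (fun i _ => (d * Matrix.diagonal a ^ (l : ℕ) * d1) i i : Fin n → Fin n → Ω)) i j =
        ∑ k : Fin n, d i k * d1 k i * (ρ l j * a k ^ (l : ℕ)) := by
      intro l
      change ρ l j * (d * Matrix.diagonal a ^ (l : ℕ) * d1) i i = _
      rw [Matrix.diagonal_pow, Matrix.mul_apply, Finset.mul_sum]
      refine Finset.sum_congr rfl fun k _ => ?_
      rw [Matrix.mul_diagonal, Pi.pow_apply]
      ring
    rw [Finset.sum_congr rfl fun l _ => h1 l, Finset.sum_comm]
    have h2 : ∀ k : Fin n, ∑ l : Fin n, d i k * d1 k i * (ρ l j * a k ^ (l : ℕ)) =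
        if j = k then d i k * d1 k i else 0 := by
      intro k
      rw [← Finset.mul_sum, hdual j k]
      split_ifs <;> ring
    rw [Finset.sum_congr rfl fun k _ => h2 k, Finset.sum_ite_eq]
    simp
  rw [he]
  exact hsum

end Pool.Agent.Helper41.BJ
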