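import Pool.Agent.Helper41.BJ.H4
import Pool.Agent.Helper41.BJ.A1

/-! General degree version (project BJ, MP_5d2531_al) of the corresponding file of helper58 / helper76. -/

namespace Pool.Agent.Helper41.BJ

open Matrix Finset

variable {n : ℕ} [NeZero n] {F : Type*} {Ω : Type*} [Field F] [Field Ω] [Algebra F Ω]

private lemma h5_dens [Infinite F] (D : Subalgebra F (MN n Ω)) (hD : IsForm D) :
    ∃ g ∈ D, ∀ i j, g i j ≠ 0 := by
  classical
  obtain ⟨g, hg, h1⟩ := A1 D hD (∏ p : Fin n × Fin n, MvPolynomial.X p)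
    (Finset.prod_ne_zero_iff.2 fun p _ => MvPolynomial.X_ne_zero p)
  refine ⟨g, hg, fun i j h0 => h1 ?_⟩
  rw [map_prod]
  refine Finset.prod_eq_zero (Finset.mem_univ (i, j)) ?_
  rw [MvPolynomial.eval_X]
  exact h0

theorem H5 [Infinite F] {m : ℕ} (hm : n = 2 * m + 1) (D : Subalgebra F (MN n Ω)) (hD : IsForm D) (a : Fin n → Ω)
    (ha : Function.Injective a) (hθ : Matrix.diagonal a ∈ D) :
    ∃ h ∈ D, (∀ i, h i i = 1) ∧ ∀ i j, h i j * h j i = 1 := by
  classical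
  obtain ⟨g, hg, h0⟩ := h5_dens D hD
  have hgd : Matrix.diagonal (fun i => g i i) ∈ D := A5 D hD a ha hθ g hg
  obtain ⟨ν, hν⟩ : ∃ ν : Fin n → Fin n → Ω,
      ν = fun i j => (∏ k, (g i k * g k j)) * ((g i j) ^ n)⁻¹ := ⟨_, rfl⟩
  have hnA : ν ∈ Arr D := by
    rw [hν]
    exact H4 D hD a ha hθ g hg h0
  obtain ⟨u, hu⟩ : ∃ u : Fin n → Fin n → Ω, u = fun i j => g i j * g j i := ⟨_, rfl⟩
  have huA : u ∈ Arr D := by
    rw [hu]
    exact H2 D hD a ha hθ g g hg hg
  obtain ⟨U, hU⟩ : ∃ U : Fin n → Ω, U = fun j => ∏ k, (g j k * g k j) := ⟨_, rfl⟩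
  have hn0 : ∀ i j, ν i j ≠ 0 := by
    intro i j
    rw [hν]
    exact mul_ne_zero (Finset.prod_ne_zero_iff.2 fun k _ => mul_ne_zero (h0 i k) (h0 k j))
      (inv_ne_zero (pow_ne_zero n (h0 i j)))
  have hu0 : ∀ i j, u i j ≠ 0 := by
    intro i j
    rw [hu]
    exact mul_ne_zero (h0 i j) (h0 j i)
  have hU0 : ∀ j, U j ≠ 0 := by
    intro j
    rw [hU]
    exact Finset.prod_ne_zero_iff.2 fun k _ => mul_ne_zero (h0 j k) (h0 k j)
  have hnd : Matrix.diagonal (fun i => ν i i) ∈ D := by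
    have h1 : had ν 1 ∈ D := hnA 1 D.one_mem
    have h2 : had ν 1 = Matrix.diagonal (fun i => ν i i) := by
      ext i j
      by_cases hij : i = j
      · subst hij
        simp [had]
      · simp [had, Matrix.one_apply_ne hij, Matrix.diagonal_apply_ne _ hij]
    rw [← h2]
    exact h1
  have hUD : Matrix.diagonal U ∈ D := by
    have h1 := D.mul_mem hnd (D.pow_mem hgd n)
    rw [Matrix.diagonal_pow, Matrix.diagonal_mul_diagonal] at h1
    have h2 : (fun i => ν i i * ((fun i => g i i) ^ n : Fin n → Ω) i) = U := by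
      funext i
      rw [hν, hU]
      change (∏ k, (g i k * g k i)) * ((g i i) ^ n)⁻¹ * (g i i) ^ n = _
      rw [mul_assoc, inv_mul_cancel₀ (pow_ne_zero n (h0 i i)), mul_one]
    rw [← h2]
    exact h1
  have hUA : (fun _ j => U j : Fin n → Fin n → Ω) ∈ Arr D := col_mem D U hUD
  obtain ⟨f, hf⟩ : ∃ f : Fin n → Fin n → Ω, f = ν * u ^ (m + 1) := ⟨_, rfl⟩
  have hfA : f ∈ Arr D := by
    rw [hf]
    exact (Arr D).mul_mem hnA ((Arr D).pow_mem huA (m + 1))
  have hfe : ∀ i j, f i j = ν i j * u i j ^ (m + 1) := by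
    intro i j
    rw [hf]
    rfl
  have hf0 : ∀ i j, f i j ≠ 0 := by
    intro i j
    rw [hfe]
    exact mul_ne_zero (hn0 i j) (pow_ne_zero (m + 1) (hu0 i j))
  have hfi := H3 D hD f hfA hf0
  have hκ := (Arr D).mul_mem hUA hfi
  have hh := hκ g hg
  have hpn : ∀ x : Ω, x ≠ 0 → (x ^ n)⁻¹ * (x * x) ^ (m + 1) = x := by
    intro x hx
    have e1 : x ^ n = x ^ (2 * m + 1) := congrArg (fun k => x ^ k) hm
    have e2 : (x * x) ^ (m + 1) = x ^ (2 * m + 1) * x := by ring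
    rw [e1, e2, ← mul_assoc, inv_mul_cancel₀ (pow_ne_zero _ hx), one_mul]
  refine ⟨_, hh, fun i => ?_, fun i j => ?_⟩
  · change U i * (f i i)⁻¹ * g i i = 1
    have h1 : f i i * 1 = U i * g i i := by
      rw [hfe, hν, hu, hU]
      change (∏ k, (g i k * g k i)) * ((g i i) ^ n)⁻¹ * (g i i * g i i) ^ (m + 1) * 1 =
        (∏ k, (g i k * g k i)) * g i i
      have h2 := h0 i i
      rw [mul_one, mul_assoc, hpn _ h2]
    have h3 : U i * g i i = f i i := by
      rw [← h1, mul_one]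
    calc U i * (f i i)⁻¹ * g i i = (U i * g i i) * (f i i)⁻¹ := by ring
      _ = 1 := by rw [h3, mul_inv_cancel₀ (hf0 i i)]
  · change U j * (f i j)⁻¹ * g i j * (U i * (f j i)⁻¹ * g j i) = 1
    have h1 : U j * g i j * (U i * g j i) = f i j * f j i := by
      rw [hfe, hfe, hν, hu, hU]
      change (∏ k, (g j k * g k j)) * g i j * ((∏ k, (g i k * g k i)) * g j i) =
        (∏ k, (g i k * g k j)) * ((g i j) ^ n)⁻¹ * (g i j * g j i) ^ (m + 1) *
        ((∏ k, (g j k * g k i)) * ((g j i) ^ n)⁻¹ * (g j i * g i j) ^ (m + 1))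
      have h2 : (∏ k, (g j k * g k j)) * (∏ k, (g i k * g k i)) =
          (∏ k, (g i k * g k j)) * (∏ k, (g j k * g k i)) := by
        rw [← Finset.prod_mul_distrib, ← Finset.prod_mul_distrib]
        exact Finset.prod_congr rfl fun k _ => by ring
      obtain ⟨P, hP⟩ : ∃ P : Ω, P = ∏ k, (g j k * g k j) := ⟨_, rfl⟩
      obtain ⟨Q, hQ⟩ : ∃ Q : Ω, Q = ∏ k, (g i k * g k i) := ⟨_, rfl⟩
      obtain ⟨R, hR⟩ : ∃ R : Ω, R = ∏ k, (g i k * g k j) := ⟨_, rfl⟩
      obtain ⟨S, hS⟩ : ∃ S : Ω, S = ∏ k, (g j k * g k i) := ⟨_, rfl⟩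
      rw [← hP, ← hQ, ← hR, ← hS] at h2
      rw [← hP, ← hQ, ← hR, ← hS]
      have h3 := h0 i j
      have h4 := h0 j i
      calc P * g i j * (Q * g j i) = P * Q * (g i j * g j i) := by ring
        _ = R * S * (g i j * g j i) := by rw [h2]
        _ = R * (g i j ^ n)⁻¹ * (g i j * g j i) ^ (m + 1) *
            (S * (g j i ^ n)⁻¹ * (g j i * g i j) ^ (m + 1)) := by
          have e1 := hpn _ (mul_ne_zero h3 h4)
          rw [mul_pow (g i j) (g j i) n, mul_inv] at e1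
          conv_lhs => rw [← e1]
          ring
    calc U j * (f i j)⁻¹ * g i j * (U i * (f j i)⁻¹ * g j i)
        = (U j * g i j * (U i * g j i)) * ((f i j)⁻¹ * (f j i)⁻¹) := by ring
      _ = 1 := by
        rw [h1]
        have h3 := hf0 i j
        have h4 := hf0 j i
        field_simp

end Pool.Agent.Helper41.BJ
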