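import Pool.Agent.Helper41.BJ.Defs
import Pool.Agent.Helper96.CY.B0

/-!
PROJECT BJ (MP_5d2531_al): characteristic polynomials of the elements of a division form of prime
degree have coefficients in `F`.
-/

namespace Pool.Agent.Helper41.BJ

open Matrix Finset

variable {n : ℕ} {F : Type*} {Ω : Type*} [Field F] [Field Ω] [Algebra F Ω]

theorem form_finite (D : Subalgebra F (MN n Ω)) (hD : IsForm D) :
    Module.Finite F D ∧ Module.finrank F D = n * n := by
  obtain ⟨b, hbD, hb, hspan⟩ := hD
  have hDs : Subalgebra.toSubmodule D = Submodule.span F (Set.range b) := by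
    apply le_antisymm
    · intro z hz
      obtain ⟨c, hc⟩ := hspan z hz
      rw [hc]
      exact Submodule.sum_mem _ fun i _ => Submodule.smul_mem _ _ (Submodule.subset_span ⟨i, rfl⟩)
    · rw [Submodule.span_le]
      rintro _ ⟨i, rfl⟩
      exact hbD i
  have hfin : Module.Finite F (Subalgebra.toSubmodule D) := by
    rw [hDs]
    exact Module.Finite.span_of_finite F (Set.finite_range b)
  refine ⟨hfin, ?_⟩
  have hbF : LinearIndependent F b := hb.restrict_scalars' F
  have h1 : Module.finrank F (Subalgebra.toSubmodule D) = n * n := by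
    rw [hDs, finrank_span_eq_card hbF]
    simp
  exact h1

/-- elements of a form which are linearly independent over `F` are so over `Ω` -/
theorem form_indep (D : Subalgebra F (MN n Ω)) (hD : IsForm D) {ι : Type*} (v : ι → D)
    (hli : LinearIndependent F v) : LinearIndependent Ω (fun i => (v i : MN n Ω)) := by
  classical
  obtain ⟨hfin, hrank⟩ := form_finite D hD
  have hfin' : Module.Finite F D := hfin
  obtain ⟨b, hbD, hb, hspan⟩ := hD
  let B := Module.Basis.sumExtend hli
  have hfB : Finite (ι ⊕ Module.Basis.sumExtendIndex hli) := Module.Finite.finite_basis B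
  have hFB : Fintype (ι ⊕ Module.Basis.sumExtendIndex hli) := Fintype.ofFinite _
  have hcard : Fintype.card (ι ⊕ Module.Basis.sumExtendIndex hli) = n * n := by
    rw [← hrank]
    exact (Module.finrank_eq_card_basis B).symm
  have htop : Submodule.span Ω (Set.range b) = ⊤ := by
    apply hb.span_eq_top_of_card_eq_finrank'
    simp [Module.finrank_matrix]
  have hli2 : LinearIndependent Ω (fun k => ((B k : D) : MN n Ω)) := by
    apply linearIndependent_of_top_le_span_of_card_eq_finrank
    · rw [← htop, Submodule.span_le]
      rintro _ ⟨i, rfl⟩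
      have h1 := B.sum_repr (⟨b i, hbD i⟩ : D)
      have h2 := congrArg (Subtype.val) h1
      have h3 : b i = ∑ k, (B.repr (⟨b i, hbD i⟩ : D) k) • ((B k : D) : MN n Ω) := by
        have h4 : ((∑ k, (B.repr (⟨b i, hbD i⟩ : D) k) • (B k : D) : D) : MN n Ω) = b i := h2
        exact h4.symm.trans (map_sum D.val _ _)
      rw [h3]
      refine Submodule.sum_mem _ fun k _ => ?_
      rw [← algebraMap_smul Ω]
      exact Submodule.smul_mem _ _ (Submodule.subset_span ⟨k, rfl⟩)
    · rw [hcard, Module.finrank_matrix]
      simp
  have h5 := hli2.comp Sum.inl Sum.inl_injective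
  have h6 : ((fun k => ((B k : D) : MN n Ω)) ∘ Sum.inl) = fun i => (v i : MN n Ω) := by
    funext i
    simp only [B, Module.Basis.sumExtend, Function.comp_apply, Module.Basis.reindex_apply,
      Equiv.symm_symm, Module.Basis.extend_apply_self]
    rfl
  rw [h6] at h5
  exact h5

end Pool.Agent.Helper41.BJ
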