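import Pool.Agent.Helper41.BJ.K1

/-!
PROJECT BJ (MP_5d2531_al): characteristic polynomials of the elements of a division form of prime
degree have coefficients in `F`.
-/

namespace Pool.Agent.Helper41.BJ

open Matrix Finset

variable {n : ℕ} [NeZero n] {F : Type*} {Ω : Type*} [Field F] [Field Ω] [Algebra F Ω]

theorem scalar_mem (D : Subalgebra F (MN n Ω)) (hD : IsForm D) (c : Ω)
    (hc : c • (1 : MN n Ω) ∈ D) : ∃ c0 : F, c = algebraMap F Ω c0 := by
  by_contra hcon
  push Not at hcon
  have h1 : LinearIndependent F ![(1 : D), (⟨c • (1 : MN n Ω), hc⟩ : D)] := by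
    rw [LinearIndependent.pair_iff]
    intro s t hst
    have h2 := congrArg Subtype.val hst
    have h3 : s • (1 : MN n Ω) + t • (c • (1 : MN n Ω)) = 0 := h2
    have h4 := congrFun (congrFun h3 0) 0
    rw [Matrix.add_apply, Matrix.smul_apply, Matrix.smul_apply, Matrix.smul_apply,
      Matrix.one_apply_eq, Algebra.smul_def, Algebra.smul_def, smul_eq_mul, mul_one, mul_one,
      Matrix.zero_apply] at h4
    have ht : t = 0 := by
      by_contra ht
      have ht' : algebraMap F Ω t ≠ 0 := (map_ne_zero (algebraMap F Ω)).mpr ht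
      apply hcon (-(s * t⁻¹))
      rw [map_neg, map_mul, map_inv₀]
      field_simp
      linear_combination h4
    refine ⟨?_, ht⟩
    rw [ht, map_zero, zero_mul, add_zero] at h4
    exact (map_eq_zero (algebraMap F Ω)).mp h4
  have h5 := form_indep D hD _ h1
  have h6 := Fintype.linearIndependent_iff.mp h5 ![c, -1] (by
    rw [Fin.sum_univ_two]
    change c • (1 : MN n Ω) + (-1 : Ω) • (c • (1 : MN n Ω)) = 0
    rw [neg_one_smul, add_neg_cancel]) 1
  simp at h6

theorem centre_form (D : Subalgebra F (MN n Ω)) (hD : IsForm D) (y : MN n Ω) (hy : y ∈ D)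
    (hcomm : ∀ x ∈ D, x * y = y * x) : ∃ c : F, y = c • (1 : MN n Ω) := by
  have hspan : Submodule.span Ω (D : Set (MN n Ω)) = ⊤ := by
    obtain ⟨b, hbD, hb, -⟩ := hD
    have htop : Submodule.span Ω (Set.range b) = ⊤ := by
      apply hb.span_eq_top_of_card_eq_finrank'
      simp [Module.finrank_matrix]
    rw [eq_top_iff, ← htop]
    apply Submodule.span_mono
    rintro _ ⟨i, rfl⟩
    exact hbD i
  have hall : ∀ x : MN n Ω, x * y = y * x := by
    intro x
    have hx : x ∈ Submodule.span Ω (D : Set (MN n Ω)) := by rw [hspan]; trivial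
    induction hx using Submodule.span_induction with
    | mem z hz => exact hcomm z hz
    | zero => rw [zero_mul, mul_zero]
    | add u w _ _ hu hw => rw [add_mul, mul_add, hu, hw]
    | smul c u _ hu => rw [smul_mul_assoc, mul_smul_comm, hu]
  have h1 : y ∈ Set.range (Matrix.scalar (Fin n) : Ω →+* MN n Ω) := by
    rw [Matrix.mem_range_scalar_iff_commute_single']
    intro i j
    exact hall _
  obtain ⟨c, hc⟩ := h1
  have hc' : y = c • (1 : MN n Ω) := by
    rw [← hc, Matrix.scalar_apply, Matrix.smul_one_eq_diagonal]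
  obtain ⟨c0, hc0⟩ := scalar_mem D hD c (by rw [← hc']; exact hy)
  exact ⟨c0, by rw [hc', hc0, algebraMap_smul]⟩

theorem minpoly_natDegree (hp : n.Prime) (D : Subalgebra F (MN n Ω)) (hD : IsForm D)
    (hdiv : IsDiv D) (y : D) (hy : ∀ c : F, (y : MN n Ω) ≠ c • (1 : MN n Ω)) :
    (minpoly F y).natDegree = n := by
  classical
  obtain ⟨hfin, hrank⟩ := form_finite D hD
  have hfin' : Module.Finite F D := hfin
  have hunit : ∀ a : D, IsUnit a ∨ a = 0 := by
    intro a
    by_cases ha : a = 0
    · exact Or.inr ha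
    · left
      obtain ⟨d, hd, had⟩ := hdiv a a.2 (fun h => ha (Subtype.ext h))
      have hda : d * (a : MN n Ω) = 1 := mul_eq_one_comm.mp had
      exact ⟨⟨a, ⟨d, hd⟩, Subtype.ext had, Subtype.ext hda⟩, rfl⟩
  have hnt : Nontrivial D := ⟨⟨0, 1, fun h => by
    have h1 : (0 : MN n Ω) = 1 := congrArg Subtype.val h
    exact zero_ne_one h1⟩⟩
  letI : DivisionRing D := DivisionRing.ofIsUnitOrEqZero hunit
  have hdvd : (minpoly F y).natDegree ∣ n ^ 2 := by
    have h1 := Pool.Agent.Helper96.CY.natDegree_minpoly_dvd (F := F) y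
    rw [hrank, ← sq] at h1
    exact h1
  have hint : IsIntegral F y := Algebra.IsIntegral.isIntegral y
  obtain ⟨i, hi, hi'⟩ := (Nat.dvd_prime_pow hp).1 hdvd
  have hi3 : i = 0 ∨ i = 1 ∨ i = 2 := by omega
  rcases hi3 with rfl | rfl | rfl
  · exfalso
    rw [pow_zero, minpoly.natDegree_eq_one_iff] at hi'
    obtain ⟨c, hc⟩ := hi'
    apply hy c
    rw [← hc]
    change algebraMap F (MN n Ω) c = _
    rw [Algebra.algebraMap_eq_smul_one]
  · simpa using hi'
  · exfalso
    have hn2 : (minpoly F y).natDegree = n * n := by rw [hi', sq]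
    have hli : LinearIndependent F (fun i : Fin (n * n) => y ^ (i : ℕ)) := by
      have h1 : LinearIndependent F (fun i : Fin (minpoly F y).natDegree => y ^ (i : ℕ)) :=
        linearIndependent_pow y
      rw [hn2] at h1
      exact h1
    have hne : Nonempty (Fin (n * n)) := ⟨⟨0, Nat.mul_pos hp.pos hp.pos⟩⟩
    have htop := hli.span_eq_top_of_card_eq_finrank' (by rw [hrank, Fintype.card_fin])
    have hcomm : ∀ x : D, x * y = y * x := by
      intro x
      have hx : x ∈ Submodule.span F (Set.range fun i : Fin (n * n) => y ^ (i : ℕ)) := by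
        rw [htop]; trivial
      induction hx using Submodule.span_induction with
      | mem z hz =>
        obtain ⟨k, rfl⟩ := hz
        exact (Commute.refl y).pow_left _
      | zero => rw [zero_mul, mul_zero]
      | add u w _ _ hu hw => rw [add_mul, mul_add, hu, hw]
      | smul c u _ hu => rw [smul_mul_assoc, mul_smul_comm, hu]
    obtain ⟨c, hc⟩ := centre_form D hD y y.2 (fun x hx =>
      congrArg Subtype.val (hcomm ⟨x, hx⟩))
    exact hy c hc

theorem charpoly_eq (hp : n.Prime) (D : Subalgebra F (MN n Ω)) (hD : IsForm D)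
    (hdiv : IsDiv D) (y : D) (hy : ∀ c : F, (y : MN n Ω) ≠ c • (1 : MN n Ω)) :
    (y : MN n Ω).charpoly = (minpoly F y).map (algebraMap F Ω) := by
  obtain ⟨hfin, hrank⟩ := form_finite D hD
  have hfin' : Module.Finite F D := hfin
  have hdeg := minpoly_natDegree hp D hD hdiv y hy
  have hint : IsIntegral F y := Algebra.IsIntegral.isIntegral y
  have hmon : (minpoly F y).Monic := minpoly.monic hint
  set m : Polynomial Ω := (minpoly F y).map (algebraMap F Ω) with hm
  have hmm : m.Monic := hmon.map _
  have hmd : m.natDegree = n := by rw [hm, hmon.natDegree_map, hdeg]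
  have hcm : (y : MN n Ω).charpoly.Monic := Matrix.charpoly_monic _
  have hcd : (y : MN n Ω).charpoly.natDegree = n := by
    rw [Matrix.charpoly_natDegree_eq_dim]; simp
  set g : Polynomial Ω := (y : MN n Ω).charpoly - m with hg
  have hgd : g.natDegree < n := by
    by_cases hg0 : g = 0
    · rw [hg0, Polynomial.natDegree_zero]; exact hp.pos
    · have h1 : g.degree < (y : MN n Ω).charpoly.degree := by
        apply Polynomial.degree_sub_lt
        · rw [Polynomial.degree_eq_natDegree hcm.ne_zero, Polynomial.degree_eq_natDegree hmm.ne_zero,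
            hcd, hmd]
        · exact hcm.ne_zero
        · rw [hcm.leadingCoeff, hmm.leadingCoeff]
      rw [Polynomial.degree_eq_natDegree hcm.ne_zero, hcd] at h1
      exact (Polynomial.natDegree_lt_iff_degree_lt hg0).mpr h1
  have hgy : Polynomial.aeval (y : MN n Ω) g = 0 := by
    rw [hg, map_sub, Matrix.aeval_self_charpoly, hm, Polynomial.aeval_map_algebraMap]
    have h1 : Polynomial.aeval (y : MN n Ω) (minpoly F y) = D.val (Polynomial.aeval y (minpoly F y)) := by
      rw [← Polynomial.aeval_algHom_apply]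
      rfl
    rw [h1, minpoly.aeval, map_zero, sub_zero]
  have hli : LinearIndependent F (fun i : Fin n => y ^ (i : ℕ)) := by
    have h1 : LinearIndependent F (fun i : Fin (minpoly F y).natDegree => y ^ (i : ℕ)) :=
      linearIndependent_pow y
    rw [hdeg] at h1
    exact h1
  have hli2 := form_indep D hD _ hli
  rw [Polynomial.aeval_eq_sum_range' hgd, Finset.sum_range] at hgy
  have h3 := Fintype.linearIndependent_iff.mp hli2 (fun i => g.coeff i) hgy
  have hg0 : g = 0 := by
    ext k
    rw [Polynomial.coeff_zero]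
    by_cases hk : k < n
    · exact h3 ⟨k, hk⟩
    · exact Polynomial.coeff_eq_zero_of_natDegree_lt (by omega)
  exact sub_eq_zero.mp hg0

theorem coeff_mem (hp : n.Prime) (D : Subalgebra F (MN n Ω)) (hD : IsForm D)
    (hdiv : IsDiv D) (y : MN n Ω) (hy : y ∈ D) (k : ℕ) :
    ∃ c : F, y.charpoly.coeff k = algebraMap F Ω c := by
  by_cases h : ∃ c : F, y = c • (1 : MN n Ω)
  · obtain ⟨c, rfl⟩ := h
    refine ⟨((c • (1 : MN n F)).charpoly).coeff k, ?_⟩
    rw [← Polynomial.coeff_map, ← Matrix.charpoly_map]
    congr 2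
    ext i j
    rw [Matrix.map_apply, Matrix.smul_apply, Matrix.smul_apply, smul_eq_mul, map_mul,
      Algebra.smul_def]
    congr 1
    by_cases hij : i = j
    · subst hij; simp
    · rw [Matrix.one_apply_ne hij, Matrix.one_apply_ne hij, map_zero]
  · push Not at h
    refine ⟨(minpoly F (⟨y, hy⟩ : D)).coeff k, ?_⟩
    have h1 := charpoly_eq hp D hD hdiv ⟨y, hy⟩ h
    change y.charpoly = _ at h1
    rw [h1, Polynomial.coeff_map]

end Pool.Agent.Helper41.BJ
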