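import Pool.Agent.Helper41.BJ.C2
import Pool.Agent.Helper76.C5.St.C1

/-!
PROJECT BJ (MP_5d2531_al): linear algebra of alternating trilinear forms in 6 variables.
-/

namespace Pool.Agent.Helper41.BJ

open Matrix Finset

section

variable {Q : Type*} [Field Q]

/-- an alternating form in 5 variables is degenerate -/
theorem alt_five (B : Fin 5 → Fin 5 → Q) (hself : ∀ i, B i i = 0)
    (hsw : ∀ i j, B j i = -B i j) :
    ∃ x : Fin 5 → Q, x ≠ 0 ∧ ∀ k, ∑ j, x j * B j k = 0 := by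
  have hdet : (Matrix.of B).det = 0 := by
    rw [Pool.Agent.Helper76.C5.c1_det_five]
    simp only [Matrix.of_apply, hself, hsw 0 1, hsw 0 2, hsw 0 3, hsw 0 4, hsw 1 2, hsw 1 3,
      hsw 1 4, hsw 2 3, hsw 2 4, hsw 3 4]
    ring
  obtain ⟨v, hv, hv2⟩ := Matrix.exists_vecMul_eq_zero_iff.mpr hdet
  refine ⟨v, hv, fun k => ?_⟩
  have := congrFun hv2 k
  simpa [Matrix.vecMul, dotProduct] using this

theorem plucker4 (N : Fin 4 → Fin 4 → Q) (hself : ∀ i, N i i = 0)
    (hsw : ∀ i j, N j i = -N i j) (hPf : N 0 1 * N 2 3 - N 0 2 * N 1 3 + N 0 3 * N 1 2 = 0) :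
    ∀ i j k l, N i j * N k l - N i k * N j l + N i l * N j k = 0 := by
  have a0 : N 0 0 = 0 := hself 0
  have a1 : N 1 1 = 0 := hself 1
  have a2 : N 2 2 = 0 := hself 2
  have a3 : N 3 3 = 0 := hself 3
  have b10 : N 1 0 = -N 0 1 := hsw 0 1
  have b20 : N 2 0 = -N 0 2 := hsw 0 2
  have b30 : N 3 0 = -N 0 3 := hsw 0 3
  have b21 : N 2 1 = -N 1 2 := hsw 1 2
  have b31 : N 3 1 = -N 1 3 := hsw 1 3
  have b32 : N 3 2 = -N 2 3 := hsw 2 3
  intro i j k l
  fin_cases i <;> fin_cases j <;> fin_cases k <;> fin_cases l <;>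
    simp only [Fin.zero_eta, Fin.mk_one, Fin.reduceFinMk, a0, a1, a2, a3, b10, b20, b30, b21, b31, b32] <;>
    first
      | ring1
      | linear_combination hPf
      | linear_combination (-1 : Q) * hPf

theorem pf4 (N : Fin 4 → Fin 4 → Q) (hself : ∀ i, N i i = 0)
    (hsw : ∀ i j, N j i = -N i j) (hPf : N 0 1 * N 2 3 - N 0 2 * N 1 3 + N 0 3 * N 1 2 = 0) :
    ∃ φ ψ : Fin 4 → Q, ∀ b : Fin 4 → Q, ∑ j, φ j * b j = 0 → ∑ j, ψ j * b j = 0 →
      ∀ k, ∑ j, b j * N j k = 0 := by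
  have hP := plucker4 N hself hsw hPf
  by_cases hN : ∃ x y, N x y ≠ 0
  · obtain ⟨x, y, hxy⟩ := hN
    refine ⟨fun j => N x j, fun j => N y j, fun b h1 h2 k => ?_⟩
    have h3 : N x y * ∑ j, b j * N j k = N y k * (∑ j, N x j * b j) - N x k * ∑ j, N y j * b j := by
      rw [Finset.mul_sum, Finset.mul_sum, Finset.mul_sum, ← Finset.sum_sub_distrib]
      refine Finset.sum_congr rfl fun j _ => ?_
      linear_combination b j * hP x y j k
    rw [h1, h2, mul_zero, mul_zero, sub_zero] at h3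
    exact (mul_eq_zero.mp h3).resolve_left hxy
  · push Not at hN
    refine ⟨0, 0, fun b _ _ k => ?_⟩
    exact Finset.sum_eq_zero fun j _ => by rw [hN, mul_zero]

/-- the Pfaffian of the last four variables -/
def pf (N : Fin 6 → Fin 6 → Q) : Q := N 2 3 * N 4 5 - N 2 4 * N 3 5 + N 2 5 * N 3 4

theorem pf6 (M : Fin 6 → Fin 6 → Q) (hself : ∀ i, M i i = 0) (hsw : ∀ i j, M j i = -M i j)
    (h0 : ∀ k, M 0 k = 0) (u : Fin 6 → Q) (hu1 : u 1 ≠ 0)
    (hu : ∀ k, ∑ j, u j * M j k = 0) (hpf : pf M = 0) :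
    ∃ φ ψ : Fin 6 → Q, ∀ b : Fin 6 → Q, ∑ j, φ j * b j = 0 → ∑ j, ψ j * b j = 0 →
      ∀ k, ∑ j, b j * M j k = 0 := by
  obtain ⟨φ, ψ, h⟩ := pf4 (fun i j => M (Fin.natAdd 2 i) (Fin.natAdd 2 j)) (fun i => hself _)
    (fun i j => hsw _ _) hpf
  have hsum : ∀ f : Fin 6 → Q, ∑ j, f j = f 0 + f 1 + ∑ j : Fin 4, f (Fin.natAdd 2 j) := by
    intro f
    rw [Fin.sum_univ_six, Fin.sum_univ_four]
    change f 0 + f 1 + f 2 + f 3 + f 4 + f 5 = f 0 + f 1 + (f 2 + f 3 + f 4 + f 5)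
    ring
  refine ⟨![0, -∑ j, φ j * u (Fin.natAdd 2 j), u 1 * φ 0, u 1 * φ 1, u 1 * φ 2, u 1 * φ 3],
    ![0, -∑ j, ψ j * u (Fin.natAdd 2 j), u 1 * ψ 0, u 1 * ψ 1, u 1 * ψ 2, u 1 * ψ 3],
    fun b h1 h2 => ?_⟩
  set b' : Fin 4 → Q := fun j => u 1 * b (Fin.natAdd 2 j) - b 1 * u (Fin.natAdd 2 j) with hb'
  have hgen : ∀ χ : Fin 4 → Q, ∑ j, (![0, -∑ j, χ j * u (Fin.natAdd 2 j), u 1 * χ 0, u 1 * χ 1,
      u 1 * χ 2, u 1 * χ 3] : Fin 6 → Q) j * b j = ∑ j, χ j * b' j := by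
    intro χ
    rw [Fin.sum_univ_six, Fin.sum_univ_four, Fin.sum_univ_four]
    change 0 * b 0 + -(χ 0 * u 2 + χ 1 * u 3 + χ 2 * u 4 + χ 3 * u 5) * b 1 + (u 1 * χ 0) * b 2 +
      (u 1 * χ 1) * b 3 + (u 1 * χ 2) * b 4 + (u 1 * χ 3) * b 5 =
      χ 0 * (u 1 * b 2 - b 1 * u 2) + χ 1 * (u 1 * b 3 - b 1 * u 3) +
      χ 2 * (u 1 * b 4 - b 1 * u 4) + χ 3 * (u 1 * b 5 - b 1 * u 5)
    ring
  rw [hgen] at h1 h2
  have h3 := h b' h1 h2
  have hv : ∀ k : Fin 4, ∑ j, b j * M j (Fin.natAdd 2 k) = 0 := by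
    intro k
    have e1 : u 1 * ∑ j, b j * M j (Fin.natAdd 2 k) =
        ∑ j : Fin 4, b' j * M (Fin.natAdd 2 j) (Fin.natAdd 2 k) := by
      have e2 := hu (Fin.natAdd 2 k)
      rw [hsum, h0, mul_zero, zero_add] at e2
      have e3 : ∑ j : Fin 4, b' j * M (Fin.natAdd 2 j) (Fin.natAdd 2 k) =
          u 1 * (∑ j : Fin 4, b (Fin.natAdd 2 j) * M (Fin.natAdd 2 j) (Fin.natAdd 2 k)) -
          b 1 * (∑ j : Fin 4, u (Fin.natAdd 2 j) * M (Fin.natAdd 2 j) (Fin.natAdd 2 k)) := by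
        rw [Finset.mul_sum, Finset.mul_sum, ← Finset.sum_sub_distrib]
        refine Finset.sum_congr rfl fun j _ => ?_
        simp only [hb']
        ring
      rw [hsum (fun j => b j * M j (Fin.natAdd 2 k)), e3, h0]
      linear_combination b 1 * e2
    rw [h3 k] at e1
    exact (mul_eq_zero.mp e1).resolve_left hu1
  have hk0 : ∑ j, b j * M j 0 = 0 := Finset.sum_eq_zero fun j _ => by
    rw [hsw 0 j, h0, neg_zero, mul_zero]
  have hk1 : ∑ j, b j * M j 1 = 0 := by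
    have e1 : ∑ l, u l * ∑ j, b j * M j l = 0 := by
      simp only [Finset.mul_sum]
      rw [Finset.sum_comm]
      refine Finset.sum_eq_zero fun j _ => ?_
      have e2 : ∑ l, u l * (b j * M j l) = -(b j * ∑ l, u l * M l j) := by
        rw [Finset.mul_sum, ← Finset.sum_neg_distrib]
        refine Finset.sum_congr rfl fun l _ => ?_
        rw [hsw l j]
        ring
      rw [e2, hu, mul_zero, neg_zero]
    rw [hsum, hk0, mul_zero, zero_add] at e1
    have e3 : ∑ l : Fin 4, u (Fin.natAdd 2 l) * ∑ j, b j * M j (Fin.natAdd 2 l) = 0 :=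
      Finset.sum_eq_zero fun l _ => by rw [hv l, mul_zero]
    rw [e3, add_zero] at e1
    exact (mul_eq_zero.mp e1).resolve_left hu1
  intro k
  fin_cases k
  · exact hk0
  · exact hk1
  · exact hv 0
  · exact hv 1
  · exact hv 2
  · exact hv 3

/-- four linear forms in six variables have a common zero outside a given line -/
theorem pick (φ : Fin 4 → Fin 6 → Q) (a : Fin 6 → Q) :
    ∃ b : Fin 6 → Q, b ∉ Submodule.span Q {a} ∧ ∀ i, ∑ j, φ i j * b j = 0 := by
  by_contra hcon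
  push Not at hcon
  let g : (Fin 6 → Q) →ₗ[Q] (Fin 4 → Q) := (Matrix.of φ).mulVecLin
  have hg : ∀ b i, g b i = ∑ j, φ i j * b j := fun b i => rfl
  have hle : LinearMap.ker g ≤ Submodule.span Q {a} := by
    intro x hx
    by_contra hxs
    obtain ⟨i, hi⟩ := hcon x hxs
    apply hi
    rw [← hg, LinearMap.mem_ker.mp hx]
    rfl
  have h1 : Module.finrank Q (LinearMap.ker g) ≤ 1 :=
    (Submodule.finrank_mono hle).trans
      ((finrank_span_le_card ({a} : Set (Fin 6 → Q))).trans (by simp))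
  have h2 : Module.finrank Q (LinearMap.range g) ≤ 4 := by
    have := Submodule.finrank_le (LinearMap.range g)
    simpa using this
  have h3 := LinearMap.finrank_range_add_finrank_ker g
  have h4 : Module.finrank Q (Fin 6 → Q) = 6 := by simp
  omega

end

section

variable {F Q : Type*} [Field F] [Field Q] [Algebra F Q]

/-- the contraction of `W` with `s e_0 + t u` -/
def con (W : Fin 6 → Fin 6 → Fin 6 → F) (u : Fin 6 → F) (s t : Q) (j k : Fin 6) : Q :=
  s * algebraMap F Q (W 0 j k) + t * algebraMap F Q (∑ i, u i * W i j k)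

/-- the vector `s e_0 + t u` -/
def avec (u : Fin 6 → F) (s t : Q) (i : Fin 6) : Q :=
  (if i = 0 then s else 0) + t * algebraMap F Q (u i)

theorem con_eq (W : Fin 6 → Fin 6 → Fin 6 → F) (u : Fin 6 → F) (s t : Q) (j k : Fin 6) :
    con W u s t j k = ∑ i, avec u s t i * algebraMap F Q (W i j k) := by
  simp only [con, avec, add_mul, Finset.sum_add_distrib, ite_mul, zero_mul, Finset.sum_ite_eq',
    Finset.mem_univ, if_true, map_sum, map_mul, Finset.mul_sum, mul_assoc]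

/-- the middle coefficient of the quadratic form `pf (con W u s t)` -/
def pfB (W : Fin 6 → Fin 6 → Fin 6 → F) (u : Fin 6 → F) : F :=
  W 0 2 3 * (∑ i, u i * W i 4 5) + (∑ i, u i * W i 2 3) * W 0 4 5 -
  W 0 2 4 * (∑ i, u i * W i 3 5) - (∑ i, u i * W i 2 4) * W 0 3 5 +
    W 0 2 5 * (∑ i, u i * W i 3 4) + (∑ i, u i * W i 2 5) * W 0 3 4

/-- the quadratic form `pf (con W u s t)` in `s, t` -/
theorem pf_con (W : Fin 6 → Fin 6 → Fin 6 → F) (u : Fin 6 → F) (s t : Q) :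
    pf (con W u s t) = algebraMap F Q (pf (W 0)) * s ^ 2 + algebraMap F Q (pfB W u) * (s * t) +
      algebraMap F Q (pf (fun j k => ∑ i, u i * W i j k)) * t ^ 2 := by
  simp only [pf, pfB, con, map_add, map_sub, map_mul]
  ring

theorem step (W : Fin 6 → Fin 6 → Fin 6 → F)
    (hsw : ∀ i j k, W j i k = -W i j k) (hself : ∀ i k, W i i k = 0)
    (hself2 : ∀ i j, W i j j = 0) (hsw2 : ∀ i j k, W i k j = -W i j k)
    (u : Fin 6 → F) (hu1 : u 1 ≠ 0) (hu : ∀ k, ∑ j, u j * W 0 j k = 0)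
    (s t : Q) (hpf : pf (con W u s t) = 0) (f g : Fin 6 → Q) :
    ∃ b : Fin 6 → Q, b ∉ Submodule.span Q {avec u s t} ∧
      (∀ k, ∑ i, ∑ j, avec u s t i * b j * algebraMap F Q (W i j k) = 0) ∧
      ∑ j, f j * b j = 0 ∧ ∑ j, g j * b j = 0 := by
  have hM1 : ∀ i, con W u s t i i = 0 := by
    intro i
    simp only [con, hself2, mul_zero, Finset.sum_const_zero, map_zero, add_zero]
  have hM2 : ∀ i j, con W u s t j i = -con W u s t i j := by
    intro i j
    have e : ∑ l, u l * W l j i = -∑ l, u l * W l i j := by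
      rw [← Finset.sum_neg_distrib]
      exact Finset.sum_congr rfl fun l _ => by rw [hsw2 l i j]; ring
    simp only [con]
    rw [hsw2 0 i j, e, map_neg, map_neg]
    ring
  have hM3 : ∀ k, con W u s t 0 k = 0 := by
    intro k
    have e : ∑ l, u l * W l 0 k = 0 := by
      rw [← neg_eq_zero, ← Finset.sum_neg_distrib, ← hu k]
      exact Finset.sum_congr rfl fun l _ => by rw [hsw 0 l k]; ring
    simp only [con]
    rw [e, hself, map_zero, mul_zero, mul_zero, add_zero]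
  have hM4 : ∀ k, ∑ j, algebraMap F Q (u j) * con W u s t j k = 0 := by
    intro k
    have e1 : ∑ j, u j * ∑ i, u i * W i j k = 0 := by
      simp only [Finset.mul_sum]
      rw [sum_pairs']
      have e2 : ∑ i, u i * (u i * W i i k) = 0 :=
        Finset.sum_eq_zero fun i _ => by rw [hself, mul_zero, mul_zero]
      have e3 : S2 (fun j i => u j * (u i * W i j k) + u i * (u j * W j i k)) = 0 := by
        unfold S2
        refine Finset.sum_eq_zero fun j _ => Finset.sum_eq_zero fun i _ => ?_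
        split_ifs
        · beta_reduce
          rw [hsw i j k]
          ring
        · rfl
      rw [e2, e3, add_zero]
    have e4 : ∑ j, algebraMap F Q (u j) * con W u s t j k =
        s * algebraMap F Q (∑ j, u j * W 0 j k) +
        t * algebraMap F Q (∑ j, u j * ∑ i, u i * W i j k) := by
      rw [map_sum, map_sum, Finset.mul_sum, Finset.mul_sum, ← Finset.sum_add_distrib]
      refine Finset.sum_congr rfl fun j _ => ?_
      simp only [con, map_mul]
      ring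
    rw [e4, hu, e1, map_zero, mul_zero, mul_zero, add_zero]
  obtain ⟨φ, ψ, hφψ⟩ := pf6 (con W u s t) hM1 hM2 hM3 (fun j => algebraMap F Q (u j))
    (fun h => hu1 ((algebraMap F Q).injective (by rw [h, map_zero]))) hM4 hpf
  obtain ⟨b, hb, hb2⟩ := pick ![φ, ψ, f, g] (avec u s t)
  refine ⟨b, hb, ?_, hb2 2, hb2 3⟩
  intro k
  have h3 := hφψ b (hb2 0) (hb2 1) k
  rw [Finset.sum_comm, ← h3]
  refine Finset.sum_congr rfl fun j _ => ?_
  rw [con_eq, Finset.mul_sum]
  exact Finset.sum_congr rfl fun i _ => by ring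

end

end Pool.Agent.Helper41.BJ
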