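import Pool.Agent.Helper41.BJ.P1
import Pool.Agent.Helper41.BJ.A7

/-! General degree version (project BJ, MP_5d2531_al) of the corresponding file of helper58 / helper76. -/

namespace Pool.Agent.Helper41.BJ

open Matrix Finset

variable {n : ℕ} [NeZero n] {F : Type*} {Ω : Type*} [Field F] [Field Ω] [Algebra F Ω]

private lemma tr3 (h : MN n Ω) (u v w : Fin n → Ω) :
    Matrix.trace (Matrix.diagonal u * h * (Matrix.diagonal v * h) * (Matrix.diagonal w * h)) =
      ∑ i, ∑ j, ∑ k, (h i j * h j k * h k i) * (u i * v j * w k) := by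
  unfold Matrix.trace
  apply Finset.sum_congr rfl
  intro i _
  rw [Matrix.diag_apply, Matrix.mul_apply]
  have e : ∀ k, (Matrix.diagonal u * h * (Matrix.diagonal v * h)) i k * (Matrix.diagonal w * h) k i =
      ∑ j, (h i j * h j k * h k i) * (u i * v j * w k) := by
    intro k
    rw [Matrix.mul_apply, Finset.sum_mul]
    apply Finset.sum_congr rfl
    intro j _
    rw [Matrix.diagonal_mul, Matrix.diagonal_mul, Matrix.diagonal_mul]
    ring
  rw [Finset.sum_congr rfl (fun k _ => e k), Finset.sum_comm]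

theorem P2 (D : Subalgebra F (MN n Ω)) (hD : IsForm D) (a : Fin n → Ω) (ha : Function.Injective a)
    (hθ : Matrix.diagonal a ∈ D) (h : MN n Ω) (hh : h ∈ D) (u v w : Fin n → Ω)
    (hu : Matrix.diagonal u ∈ D) (hv : Matrix.diagonal v ∈ D) (hw : Matrix.diagonal w ∈ D) :
    ∃ c : F, om h u v w = algebraMap F Ω c := by
  have hU := D.mul_mem hu hh
  have hV := D.mul_mem hv hh
  have hW := D.mul_mem hw hh
  obtain ⟨c1, h1⟩ := A7 D hD a ha hθ _ (D.mul_mem (D.mul_mem hU hV) hW)
  obtain ⟨c2, h2⟩ := A7 D hD a ha hθ _ (D.mul_mem (D.mul_mem hU hW) hV)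
  rw [tr3] at h1 h2
  refine ⟨c1 - c2, ?_⟩
  rw [map_sub, ← h1, ← h2]
  unfold om
  rw [← Finset.sum_sub_distrib]
  apply Finset.sum_congr rfl
  intro i _
  have e2 : ∑ j, ∑ k, (h i j * h j k * h k i) * (u i * w j * v k) =
      ∑ j, ∑ k, (h i k * h k j * h j i) * (u i * w k * v j) := Finset.sum_comm
  rw [e2, ← Finset.sum_sub_distrib]
  apply Finset.sum_congr rfl
  intro j _
  rw [← Finset.sum_sub_distrib]
  apply Finset.sum_congr rfl
  intro k _
  ring

end Pool.Agent.Helper41.BJ
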