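import Pool.Agent.Helper41.BJ.K2
import Pool.Agent.Helper41.BJ.A7

/-!
PROJECT BJ (MP_5d2531_al): a quadratic extension `F(ρ)`, `ρ² = τ ρ - ν` (separable or not), and
the diagonal elements of `D ⊗ F(ρ)`.
-/

namespace Pool.Agent.Helper41.BJ

open Matrix Finset

section

variable {n : ℕ} {F : Type*} {Ω : Type*} [Field F] [Field Ω] [Algebra F Ω]

/-- vectors `v` with `diagonal v ∈ D` -/
def EE (D : Subalgebra F (MN n Ω)) : Subalgebra F (Fin n → Ω) :=
  D.comap (Matrix.diagonalAlgHom F)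

theorem mem_EE (D : Subalgebra F (MN n Ω)) (v : Fin n → Ω) : v ∈ EE D ↔ Matrix.diagonal v ∈ D :=
  Iff.rfl

theorem EE_trace [NeZero n] (D : Subalgebra F (MN n Ω)) (hD : IsForm D) (a : Fin n → Ω)
    (ha : Function.Injective a) (hθ : Matrix.diagonal a ∈ D) (v : Fin n → Ω) (hv : v ∈ EE D) :
    ∃ c : F, ∑ i, v i = algebraMap F Ω c := by
  obtain ⟨c, hc⟩ := A7 D hD a ha hθ _ hv
  have hc' : Matrix.trace (Matrix.diagonal v : MN n Ω) = algebraMap F Ω c := hc
  exact ⟨c, by rw [← hc', Matrix.trace_diagonal]⟩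

/-- inverses in `EE D` -/
theorem EE_inv (D : Subalgebra F (MN n Ω)) (hdiv : IsDiv D) (α : Fin n → Ω)
    (hα : α ∈ EE D) (h0 : α ≠ 0) : (∀ i, α i ≠ 0) ∧ (fun i => (α i)⁻¹) ∈ EE D := by
  have hne : (Matrix.diagonal α : MN n Ω) ≠ 0 := by
    intro h
    exact h0 (Matrix.diagonal_injective (h.trans (Matrix.diagonal_zero).symm))
  obtain ⟨N, hN, hNN⟩ := hdiv (Matrix.diagonal α) hα hne
  have hi : ∀ i, α i ≠ 0 := by
    intro i hi
    have f1 := congrFun (congrFun hNN i) i
    rw [Matrix.diagonal_mul, hi, zero_mul, Matrix.one_apply_eq] at f1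
    exact zero_ne_one f1
  refine ⟨hi, ?_⟩
  have e : N = Matrix.diagonal (fun i => (α i)⁻¹) := by
    ext i j
    have f1 := congrFun (congrFun hNN i) j
    rw [Matrix.diagonal_mul] at f1
    have f2 : N i j = (α i)⁻¹ * (1 : MN n Ω) i j := by
      rw [← f1, ← mul_assoc, inv_mul_cancel₀ (hi i), one_mul]
    rw [f2]
    by_cases hij : i = j
    · subst hij
      rw [Matrix.one_apply_eq, mul_one, Matrix.diagonal_apply_eq]
    · rw [Matrix.one_apply_ne hij, mul_zero, Matrix.diagonal_apply_ne _ hij]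
  rw [mem_EE, ← e]
  exact hN

variable {ρ : Ω} {τ ν : F} (hρ : ρ * ρ = algebraMap F Ω τ * ρ - algebraMap F Ω ν)
  (hind : ∀ x y : F, algebraMap F Ω x + ρ * algebraMap F Ω y = 0 → x = 0 ∧ y = 0)

include hρ in
/-- vectors over the quadratic extension -/
theorem EQ_mul (D : Subalgebra F (MN n Ω)) {a1 a2 b1 b2 : Fin n → Ω} (ha1 : a1 ∈ EE D)
    (ha2 : a2 ∈ EE D) (hb1 : b1 ∈ EE D) (hb2 : b2 ∈ EE D) :
    ∃ c1 ∈ EE D, ∃ c2 ∈ EE D, ∀ i, (a1 i + ρ * a2 i) * (b1 i + ρ * b2 i) = c1 i + ρ * c2 i := by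
  refine ⟨a1 * b1 - ν • (a2 * b2), (EE D).sub_mem ((EE D).mul_mem ha1 hb1)
    ((EE D).smul_mem ((EE D).mul_mem ha2 hb2) ν), a1 * b2 + a2 * b1 + τ • (a2 * b2),
    (EE D).add_mem ((EE D).add_mem ((EE D).mul_mem ha1 hb2) ((EE D).mul_mem ha2 hb1))
    ((EE D).smul_mem ((EE D).mul_mem ha2 hb2) τ), fun i => ?_⟩
  simp only [Pi.add_apply, Pi.sub_apply, Pi.mul_apply, Pi.smul_apply]
  simp only [Algebra.smul_def]
  linear_combination (a2 i * b2 i) * hρ

/-- the field `F(ρ)` -/
def SQ : IntermediateField F Ω where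
  carrier := {z | ∃ x y : F, z = algebraMap F Ω x + ρ * algebraMap F Ω y}
  mul_mem' := by
    rintro z z' ⟨x, y, rfl⟩ ⟨x', y', rfl⟩
    refine ⟨x * x' - ν * (y * y'), x * y' + y * x' + τ * (y * y'), ?_⟩
    simp only [map_add, map_sub, map_mul]
    linear_combination (algebraMap F Ω y * algebraMap F Ω y') * hρ
  add_mem' := by
    rintro z z' ⟨x, y, rfl⟩ ⟨x', y', rfl⟩
    refine ⟨x + x', y + y', ?_⟩
    simp only [map_add]
    ring
  algebraMap_mem' := fun c => ⟨c, 0, by simp⟩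
  inv_mem' := by
    rintro z ⟨x, y, rfl⟩
    have e : (algebraMap F Ω x + ρ * algebraMap F Ω y) *
        (algebraMap F Ω x + algebraMap F Ω τ * algebraMap F Ω y - ρ * algebraMap F Ω y) =
        algebraMap F Ω (x * x + τ * (x * y) + ν * (y * y)) := by
      simp only [map_add, map_mul]
      linear_combination (-(algebraMap F Ω y * algebraMap F Ω y)) * hρ
    by_cases hN : x * x + τ * (x * y) + ν * (y * y) = 0
    · rw [hN, map_zero] at e
      rcases mul_eq_zero.mp e with h | h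
      · exact ⟨0, 0, by rw [h]; simp⟩
      · have h2 := hind (x + τ * y) (-y) (by
          rw [map_add, map_mul, map_neg]
          linear_combination h)
        have hy : y = 0 := neg_eq_zero.mp h2.2
        have hx : x = 0 := by
          have := h2.1
          rwa [hy, mul_zero, add_zero] at this
        exact ⟨0, 0, by simp [hx, hy]⟩
    · have hN' : algebraMap F Ω (x * x + τ * (x * y) + ν * (y * y)) ≠ 0 :=
        (map_ne_zero (algebraMap F Ω)).mpr hN
      have hz : algebraMap F Ω x + ρ * algebraMap F Ω y ≠ 0 := by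
        intro h
        rw [h, zero_mul] at e
        exact hN' e.symm
      refine ⟨(x + τ * y) * (x * x + τ * (x * y) + ν * (y * y))⁻¹,
        -(y * (x * x + τ * (x * y) + ν * (y * y))⁻¹), ?_⟩
      have e2 : (algebraMap F Ω x + ρ * algebraMap F Ω y)⁻¹ =
          (algebraMap F Ω x + algebraMap F Ω τ * algebraMap F Ω y - ρ * algebraMap F Ω y) *
            (algebraMap F Ω (x * x + τ * (x * y) + ν * (y * y)))⁻¹ := by
        rw [eq_mul_inv_iff_mul_eq₀ hN', ← e, inv_mul_cancel_left₀ hz]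
      rw [e2]
      simp only [map_neg, map_mul, map_inv₀, map_add]
      ring

include hρ hind in
/-- a form of odd degree does not contain `F(ρ)` -/
theorem odd_root {m : ℕ} (hm : n = 2 * m + 1) (D : Subalgebra F (MN n Ω)) (hD : IsForm D)
    (z : MN n Ω) (hz : z ∈ D) (hzz : z * z = τ • z - ν • (1 : MN n Ω)) : False := by
  obtain ⟨hfin, hrank⟩ := form_finite D hD
  have hfin' : Module.Finite F D := hfin
  set f : Polynomial F := Polynomial.X ^ 2 + (Polynomial.C (-τ) * Polynomial.X + Polynomial.C ν)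
    with hf
  have hfm : f.Monic := by
    rw [hf]
    apply Polynomial.monic_X_pow_add
    refine lt_of_le_of_lt Polynomial.degree_linear_le ?_
    norm_num
  have hfd : f.natDegree = 2 := by
    rw [hf]
    compute_degree!
  have hirr : Irreducible f := by
    rw [hfm.irreducible_iff_roots_eq_zero_of_degree_le_three (by rw [hfd]) (by rw [hfd]; norm_num)]
    by_contra hcon
    obtain ⟨r, hr⟩ := Multiset.exists_mem_of_ne_zero hcon
    have h1 := (Polynomial.mem_roots hfm.ne_zero).mp hr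
    rw [Polynomial.IsRoot, hf] at h1
    simp only [Polynomial.eval_add, Polynomial.eval_pow, Polynomial.eval_X, Polynomial.eval_mul,
      Polynomial.eval_C] at h1
    have h2 : (algebraMap F Ω r - ρ) * (algebraMap F Ω r - algebraMap F Ω τ + ρ) = 0 := by
      have h3 := congrArg (algebraMap F Ω) h1
      simp only [map_add, map_mul, map_pow, map_neg, map_zero] at h3
      linear_combination h3 - hρ
    rcases mul_eq_zero.mp h2 with h | h
    · have := (hind (-r) 1 (by rw [map_neg, map_one]; linear_combination -h)).2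
      exact one_ne_zero this
    · have := (hind (r - τ) 1 (by rw [map_sub, map_one]; linear_combination h)).2
      exact one_ne_zero this
  haveI : Fact (Irreducible f) := ⟨hirr⟩
  let z' : D := ⟨z, hz⟩
  have haev : Polynomial.aeval z' f = 0 := by
    apply Subtype.ext
    have h1 : ((Polynomial.aeval z' f : D) : MN n Ω) = Polynomial.aeval z f := by
      have h2 := Polynomial.aeval_algHom_apply D.val z' f
      exact h2.symm
    rw [h1, hf]
    simp only [map_add, map_mul, map_pow, Polynomial.aeval_X, Polynomial.aeval_C, sq, hzz, map_neg]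
    rw [Algebra.smul_def, Algebra.smul_def, mul_one, neg_mul]
    change _ = (0 : MN n Ω)
    abel
  have hmem : ∀ a : Polynomial F, a ∈ Ideal.span {f} → Polynomial.aeval z' a = 0 := by
    intro a ha
    obtain ⟨b, rfl⟩ := Ideal.mem_span_singleton.1 ha
    rw [map_mul, haev, zero_mul]
  let φ : AdjoinRoot f →ₐ[F] D :=
    Ideal.Quotient.liftₐ (Ideal.span {f}) (Polynomial.aeval z') hmem
  letI : Module (AdjoinRoot f) D := Module.compHom D φ.toRingHom
  have hsm : ∀ (k : AdjoinRoot f) (d : D), k • d = φ k * d := fun _ _ => rfl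
  haveI : IsScalarTower F (AdjoinRoot f) D := ⟨fun r k d => by
    rw [hsm, hsm, map_smul, smul_mul_assoc]⟩
  have h1 := Module.finrank_mul_finrank F (AdjoinRoot f) D
  have h2 : Module.finrank F (AdjoinRoot f) = 2 := by
    rw [(AdjoinRoot.powerBasis hirr.ne_zero).finrank, AdjoinRoot.powerBasis_dim, hfd]
  rw [h2, hrank] at h1
  have h3 : n * n = 2 * (2 * m * m + 2 * m) + 1 := by rw [hm]; ring
  omega

include hρ hind in
/-- inverses of the vectors over `F(ρ)` -/
theorem EQ_inv {m : ℕ} (hm : n = 2 * m + 1) (D : Subalgebra F (MN n Ω)) (hD : IsForm D)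
    (hdiv : IsDiv D) {a1 a2 : Fin n → Ω} (ha1 : a1 ∈ EE D) (ha2 : a2 ∈ EE D)
    (h0 : ¬ (∀ i, a1 i + ρ * a2 i = 0)) :
    (∀ i, a1 i + ρ * a2 i ≠ 0) ∧ ∃ c1 ∈ EE D, ∃ c2 ∈ EE D, ∀ i,
      (a1 i + ρ * a2 i)⁻¹ = c1 i + ρ * c2 i := by
  set N : Fin n → Ω := a1 * a1 + τ • (a1 * a2) + ν • (a2 * a2) with hN
  have hNE : N ∈ EE D := (EE D).add_mem ((EE D).add_mem ((EE D).mul_mem ha1 ha1)
    ((EE D).smul_mem ((EE D).mul_mem ha1 ha2) τ)) ((EE D).smul_mem ((EE D).mul_mem ha2 ha2) ν)
  have hNi : ∀ i, N i = a1 i * a1 i + algebraMap F Ω τ * (a1 i * a2 i) +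
      algebraMap F Ω ν * (a2 i * a2 i) := by
    intro i
    simp only [hN, Pi.add_apply, Pi.mul_apply, Pi.smul_apply]
    simp only [Algebra.smul_def]
  have hNf : ∀ i, (a1 i + ρ * a2 i) * (a1 i + algebraMap F Ω τ * a2 i - ρ * a2 i) = N i := by
    intro i
    rw [hNi]
    linear_combination (-(a2 i * a2 i)) * hρ
  have hN0 : N ≠ 0 := by
    intro hN0
    have hN0i : ∀ i, a1 i * a1 i + algebraMap F Ω τ * (a1 i * a2 i) +
      algebraMap F Ω ν * (a2 i * a2 i) = 0 := fun i => by rw [← hNi, hN0]; rfl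
    by_cases ha20 : a2 = 0
    · apply h0
      intro i
      have h1 := hN0i i
      rw [ha20, Pi.zero_apply, mul_zero, mul_zero, mul_zero, mul_zero, add_zero, add_zero] at h1
      rw [ha20, Pi.zero_apply, mul_zero, add_zero]
      exact mul_self_eq_zero.mp h1
    · obtain ⟨hai, hainv⟩ := EE_inv D hdiv a2 ha2 ha20
      have hzE : (-(a1 * fun i => (a2 i)⁻¹)) ∈ EE D := (EE D).neg_mem ((EE D).mul_mem ha1 hainv)
      refine odd_root hρ hind hm D hD _ hzE ?_
      have e : ∀ i, (-(a1 * fun i => (a2 i)⁻¹)) i = -(a1 i * (a2 i)⁻¹) := fun i => rfl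
      ext i j
      by_cases hij : i = j
      · subst hij
        change (Matrix.diagonal (-(a1 * fun i => (a2 i)⁻¹)) *
          Matrix.diagonal (-(a1 * fun i => (a2 i)⁻¹)) : MN n Ω) i i =
          (τ • Matrix.diagonal (-(a1 * fun i => (a2 i)⁻¹)) - ν • (1 : MN n Ω)) i i
        rw [Matrix.diagonal_mul_diagonal, Matrix.diagonal_apply_eq, Matrix.sub_apply,
          Matrix.smul_apply, Matrix.smul_apply, Matrix.diagonal_apply_eq, Matrix.one_apply_eq,
          Algebra.smul_def, Algebra.smul_def, mul_one, e]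
        have h1 := hN0i i
        have h2 := hai i
        field_simp
        linear_combination h1
      · change (Matrix.diagonal (-(a1 * fun i => (a2 i)⁻¹)) *
          Matrix.diagonal (-(a1 * fun i => (a2 i)⁻¹)) : MN n Ω) i j =
          (τ • Matrix.diagonal (-(a1 * fun i => (a2 i)⁻¹)) - ν • (1 : MN n Ω)) i j
        rw [Matrix.diagonal_mul_diagonal, Matrix.diagonal_apply_ne _ hij, Matrix.sub_apply,
          Matrix.smul_apply, Matrix.smul_apply, Matrix.diagonal_apply_ne _ hij,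
          Matrix.one_apply_ne hij, smul_zero, smul_zero, sub_zero]
  obtain ⟨hNne, hNinv⟩ := EE_inv D hdiv N hNE hN0
  have hne : ∀ i, a1 i + ρ * a2 i ≠ 0 := by
    intro i h
    apply hNne i
    rw [← hNf, h, zero_mul]
  refine ⟨hne, (a1 + τ • a2) * (fun i => (N i)⁻¹), (EE D).mul_mem ((EE D).add_mem ha1
    ((EE D).smul_mem ha2 τ)) hNinv, -(a2 * fun i => (N i)⁻¹),
    (EE D).neg_mem ((EE D).mul_mem ha2 hNinv), fun i => ?_⟩
  have h1 : (a1 i + ρ * a2 i)⁻¹ = (a1 i + algebraMap F Ω τ * a2 i - ρ * a2 i) * (N i)⁻¹ := by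
    rw [eq_mul_inv_iff_mul_eq₀ (hNne i), ← hNf, inv_mul_cancel_left₀ (hne i)]
  rw [h1]
  simp only [Pi.add_apply, Pi.mul_apply, Pi.smul_apply, Pi.neg_apply]
  simp only [Algebra.smul_def]
  ring

end

end Pool.Agent.Helper41.BJ
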