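import Pool.Agent.Helper41.BJ.Bas
import Pool.Agent.Helper41.BJ.H5
import Pool.Agent.Helper41.BJ.L1
import Pool.Agent.Helper41.BJ.P2
import Pool.Agent.Helper41.BJ.Q3

/-!
PROJECT BJ (MP_5d2531_al): preparation of the main step (adapted basis, properties of `XC`, the third
root of a cubic), all characteristics.
-/

namespace Pool.Agent.Helper41.BJ

open Matrix Finset

section general

variable {n : ℕ} {Ω : Type*} [Field Ω]

/-- `om` in the first variable -/
def omA (h : MN n Ω) (v w : Fin n → Ω) : (Fin n → Ω) →ₗ[Ω] Ω where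
  toFun u := om h u v w
  map_add' x y := by
    have := om_lin1 h 1 1 x y v w
    simpa using this
  map_smul' c x := by
    have := om_lin1 h c 0 x 0 v w
    simpa using this

/-- `om` in the second variable -/
def omB (h : MN n Ω) (u w : Fin n → Ω) : (Fin n → Ω) →ₗ[Ω] Ω where
  toFun v := om h u v w
  map_add' x y := by
    have := om_lin2 h 1 1 u x y w
    simpa using this
  map_smul' c x := by
    have := om_lin2 h c 0 u x 0 w
    simpa using this

/-- `om` in the third variable -/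
def omC (h : MN n Ω) (u v : Fin n → Ω) : (Fin n → Ω) →ₗ[Ω] Ω where
  toFun w := om h u v w
  map_add' x y := by
    have := om_lin3 h 1 1 u v x y
    simpa using this
  map_smul' c x := by
    have := om_lin3 h c 0 u v x 0
    simpa using this

theorem om_sum {m : ℕ} (h : MN n Ω) (b : Fin m → Fin n → Ω) (x y : Fin m → Ω) (w : Fin n → Ω) :
    om h (∑ i, x i • b i) (∑ j, y j • b j) w = ∑ i, ∑ j, x i * y j * om h (b i) (b j) w := by
  change omA h _ w (∑ i, x i • b i) = _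
  rw [map_sum]
  refine Finset.sum_congr rfl fun i _ => ?_
  rw [map_smul]
  change x i • omB h (b i) w (∑ j, y j • b j) = _
  rw [map_sum, Finset.smul_sum]
  refine Finset.sum_congr rfl fun j _ => ?_
  rw [map_smul, smul_eq_mul, smul_eq_mul, mul_assoc]
  rfl

theorem om_zero_of_basis {m : ℕ} (h : MN n Ω) (b : Fin m → Fin n → Ω) (w0 : Fin n → Ω)
    (hspan : ∀ w : Fin n → Ω, ∃ (x : Fin m → Ω) (c : Ω), w = ∑ j, x j • b j + c • w0)
    (u v : Fin n → Ω) (h1 : ∀ k, om h u v (b k) = 0) (h2 : om h u v w0 = 0) (w : Fin n → Ω) :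
    om h u v w = 0 := by
  obtain ⟨x, c, rfl⟩ := hspan w
  change omC h u v (∑ j, x j • b j + c • w0) = 0
  rw [map_add, map_sum, map_smul]
  have e1 : ∀ k, omC h u v (b k) = 0 := h1
  have e2 : omC h u v w0 = 0 := h2
  rw [e2, smul_zero, add_zero]
  exact Finset.sum_eq_zero fun k _ => by rw [map_smul, e1, smul_zero]

/-- the second and the third coefficient of `XC h α (β / α)` vanish -/
theorem XC_props (h : MN n Ω) (hs : ∀ i j, h i j * h j i = 1) (α β : Fin n → Ω)
    (hα : ∀ i, α i ≠ 0) (sα : ∑ i, α i = 0) (sβ : ∑ i, β i = 0) (hom : ∀ w, om h α β w = 0) :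
    E2 (XC h α (fun i => β i * (α i)⁻¹)) = 0 ∧ E3 (XC h α (fun i => β i * (α i)⁻¹)) = 0 := by
  have e : (fun i => β i * (α i)⁻¹ * α i) = β := by
    funext i
    rw [mul_assoc, inv_mul_cancel₀ (hα i), mul_one]
  refine ⟨?_, ?_⟩
  · apply E2_XC_one h hs _ _ sα
    rw [← sβ]
    exact Finset.sum_congr rfl fun i _ => congrFun e i
  · rw [E3_XC]
    have e2 : (fun i => (fun i => β i * (α i)⁻¹) i * α i) = β := e
    rw [e2, hom, neg_zero]

/-- `XC h α (β / α)` is not zero -/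
theorem XC_ne {m : ℕ} [NeZero n] (h : MN n Ω) (hs : ∀ i j, h i j * h j i = 1)
    (b : Fin m → Fin n → Ω) (hbi : ∀ x : Fin m → Ω, ∑ j, x j • b j = 0 → x = 0)
    (x y : Fin m → Ω) (hα : ∀ i, (∑ j, x j • b j) i ≠ 0)
    (h0 : XC h (∑ j, x j • b j) (fun i => (∑ j, y j • b j) i * ((∑ j, x j • b j) i)⁻¹) = 0) :
    ∃ c : Ω, ∀ j, y j = c * x j := by
  set α : Fin n → Ω := ∑ j, x j • b j with hαd
  set β : Fin n → Ω := ∑ j, y j • b j with hβd
  refine ⟨β 0 * (α 0)⁻¹, ?_⟩
  have h1 : β = (β 0 * (α 0)⁻¹) • α := by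
    funext i
    have f1 := congrFun (congrFun h0 0) i
    simp only [XC, Matrix.of_apply, Matrix.zero_apply] at f1
    have f2 : h 0 i ≠ 0 := fun h3 => by
      have := hs 0 i
      rw [h3, zero_mul] at this
      exact zero_ne_one this
    have f3 : β i * (α i)⁻¹ - β 0 * (α 0)⁻¹ = 0 := by
      have f4 := (mul_eq_zero.mp f1).resolve_left f2
      exact (mul_eq_zero.mp f4).resolve_right (hα i)
    rw [Pi.smul_apply, smul_eq_mul, ← sub_eq_zero.mp f3, mul_assoc, inv_mul_cancel₀ (hα i), mul_one]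
  have h2 := hbi (fun j => y j - (β 0 * (α 0)⁻¹) * x j) (by
    have e : ∑ j, (y j - (β 0 * (α 0)⁻¹) * x j) • b j = β - (β 0 * (α 0)⁻¹) • α := by
      rw [hαd, hβd, Finset.smul_sum, ← Finset.sum_sub_distrib]
      exact Finset.sum_congr rfl fun j _ => by rw [sub_smul, mul_smul]
    rw [e, ← h1, sub_self])
  intro j
  exact sub_eq_zero.mp (congrFun h2 j)

theorem sum_zero {m : ℕ} (b : Fin m → Fin n → Ω) (hb0 : ∀ j, ∑ i, b j i = 0) (x : Fin m → Ω) :
    ∑ i, (∑ j, x j • b j) i = 0 := by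
  simp only [Finset.sum_apply, Pi.smul_apply, smul_eq_mul]
  rw [Finset.sum_comm]
  refine Finset.sum_eq_zero fun j _ => ?_
  rw [← Finset.mul_sum, hb0, mul_zero]

theorem mem_span_of_ratio {Q : Type*} [Field Q] [Algebra Q Ω] (x y : Fin 6 → Q) (hx : x ≠ 0)
    (c : Ω) (h : ∀ j, algebraMap Q Ω (y j) = c * algebraMap Q Ω (x j)) :
    y ∈ Submodule.span Q {x} := by
  obtain ⟨j0, hj0⟩ : ∃ j, x j ≠ 0 := by
    by_contra hcon
    push Not at hcon
    exact hx (funext hcon)
  have hj0' : algebraMap Q Ω (x j0) ≠ 0 := (map_ne_zero (algebraMap Q Ω)).mpr hj0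
  rw [Submodule.mem_span_singleton]
  refine ⟨y j0 * (x j0)⁻¹, ?_⟩
  funext j
  apply (algebraMap Q Ω).injective
  rw [Pi.smul_apply, smul_eq_mul, map_mul, map_mul, map_inv₀, h j, h j0]
  field_simp

end general

section basis

variable {F : Type*} {Ω : Type*} [Field F] [Field Ω] [Algebra F Ω]

/-- the adapted basis -/
theorem good_basis (D : Subalgebra F (MN 7 Ω)) (hD : IsForm D) (a : Fin 7 → Ω)
    (ha : Function.Injective a) (hθ : Matrix.diagonal a ∈ D) (h : MN 7 Ω) (hh : h ∈ D) :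
    ∃ (b : Fin 6 → Fin 7 → Ω) (w0 : Fin 7 → Ω) (W : Fin 6 → Fin 6 → Fin 6 → F)
      (G : Fin 6 → Fin 6 → F) (u : Fin 6 → F),
      (∀ j, Matrix.diagonal (b j) ∈ D) ∧ (∀ j, ∑ i, b j i = 0) ∧
      (∀ x : Fin 6 → Ω, ∑ j, x j • b j = 0 → x = 0) ∧
      (∀ w : Fin 7 → Ω, ∃ (x : Fin 6 → Ω) (c : Ω), w = ∑ j, x j • b j + c • w0) ∧
      (∀ i j k, om h (b i) (b j) (b k) = algebraMap F Ω (W i j k)) ∧
      (∀ i j, om h (b i) (b j) w0 = algebraMap F Ω (G i j)) ∧
      (∀ i j k, W j i k = -W i j k) ∧ (∀ i k, W i i k = 0) ∧ (∀ i j, W i j j = 0) ∧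
      (∀ i j k, W i k j = -W i j k) ∧ u 1 ≠ 0 ∧ ∀ k, ∑ j, u j * W 0 j k = 0 := by
  obtain ⟨b, w0, hbD, hb0, hw0D, -, hbi, hspan⟩ := basis_E (m := 6) D hD a ha hθ
  choose W hW using fun i j k => P2 D hD a ha hθ h hh (b i) (b j) (b k) (hbD i) (hbD j) (hbD k)
  choose G hG using fun i j => P2 D hD a ha hθ h hh (b i) (b j) w0 (hbD i) (hbD j) hw0D
  have hinj : Function.Injective (algebraMap F Ω) := (algebraMap F Ω).injective
  have hsw : ∀ i j k, W j i k = -W i j k := fun i j k =>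
    hinj (by rw [← hW, map_neg, ← hW, om_swap])
  have hself : ∀ i k, W i i k = 0 := fun i k => hinj (by rw [← hW, map_zero, om_self])
  have hcyc : ∀ i j k, W j k i = W i j k := fun i j k => hinj (by rw [← hW, ← hW, om_cyc])
  have hself2 : ∀ i j, W i j j = 0 := fun i j => by rw [← hcyc i j j, hself]
  have hsw2 : ∀ i j k, W i k j = -W i j k := fun i j k => by
    rw [← hcyc i k j, hsw j k i, hcyc i j k]
  obtain ⟨x, hx0, hx⟩ := alt_five (fun j k => W 0 j.succ k.succ) (fun i => hself2 _ _)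
    (fun i j => hsw2 _ _ _)
  obtain ⟨m, hm⟩ : ∃ m, x m ≠ 0 := by
    by_contra hcon
    push Not at hcon
    exact hx0 (funext hcon)
  set u0 : Fin 6 → F := Fin.cons 0 x with hu0
  have hu : ∀ k, ∑ j, u0 j * W 0 j k = 0 := by
    intro k
    rw [Fin.sum_univ_succ]
    simp only [hu0, Fin.cons_zero, zero_mul, zero_add, Fin.cons_succ]
    rcases Fin.eq_zero_or_eq_succ k with rfl | ⟨k', rfl⟩
    · refine Finset.sum_eq_zero fun j _ => ?_
      have : W 0 j.succ 0 = 0 := by rw [hsw2, hself, neg_zero]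
      rw [this, mul_zero]
    · exact hx k'
  let σ : Equiv.Perm (Fin 6) := Equiv.swap 1 m.succ
  have hσ0 : σ 0 = 0 := Equiv.swap_apply_of_ne_of_ne (by decide) (Fin.succ_ne_zero m).symm
  have hσ1 : σ 1 = m.succ := Equiv.swap_apply_left _ _
  refine ⟨fun j => b (σ j), w0, fun i j k => W (σ i) (σ j) (σ k), fun i j => G (σ i) (σ j),
    fun j => u0 (σ j), fun j => hbD _, fun j => hb0 _, ?_, ?_, fun i j k => hW _ _ _,
    fun i j => hG _ _, fun i j k => hsw _ _ _, fun i k => hself _ _, fun i j => hself2 _ _,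
    fun i j k => hsw2 _ _ _, ?_, ?_⟩
  · intro y hy
    have e : ∑ j, y (σ.symm j) • b j = 0 := by
      rw [← hy, ← Equiv.sum_comp σ]
      exact Finset.sum_congr rfl fun j _ => by rw [Equiv.symm_apply_apply]
    have e2 := hbi (fun j => y (σ.symm j)) e
    funext j
    have := congrFun e2 (σ j)
    simpa using this
  · intro w
    obtain ⟨y, c, rfl⟩ := hspan w
    refine ⟨fun j => y (σ j), c, ?_⟩
    congr 1
    exact (Equiv.sum_comp σ (fun j => y j • b j)).symm
  · change u0 (σ 1) ≠ 0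
    rw [hσ1, hu0, Fin.cons_succ]
    exact hm
  · intro k
    change ∑ j, u0 (σ j) * W (σ 0) (σ j) (σ k) = 0
    rw [hσ0]
    have := Equiv.sum_comp σ (fun j => u0 j * W 0 j (σ k))
    rw [this]
    exact hu (σ k)

end basis

section third

variable {n : ℕ} {F : Type*} {Ω : Type*} [Field F] [Field Ω] [Algebra F Ω]

theorem third_root (hn : 3 ≤ n) {ρ : Ω} {τ ν : F}
    (hρ : ρ * ρ = algebraMap F Ω τ * ρ - algebraMap F Ω ν)
    (hind : ∀ x y : F, algebraMap F Ω x + ρ * algebraMap F Ω y = 0 → x = 0 ∧ y = 0)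
    (D : Subalgebra F (MN n Ω))
    (hcoef : ∀ y ∈ D, ∀ k, ∃ c : F, y.charpoly.coeff k = algebraMap F Ω c)
    (htr : ∀ y ∈ D, ∃ c : F, Matrix.trace y = algebraMap F Ω c)
    (u v : MN n Ω) (hu : u ∈ D) (hv : v ∈ D)
    (hu0 : ∀ i, u i i = 0) (hv0 : ∀ i, v i i = 0) (hne : u + ρ • v ≠ 0) (h2v : E2 v = 0)
    (h2 : E2 (u + ρ • v) = 0) (h3 : E3 (u + ρ • v) = 0) :
    ∃ y ∈ D, y ≠ 0 ∧ (∀ i, y i i = 0) ∧ E2 y = 0 ∧ E3 y = 0 := by
  obtain ⟨p2, hp2⟩ := hcoef u hu (n - 2)
  rw [coeff_two' u hu0 (by omega)] at hp2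
  obtain ⟨p3, hp3⟩ := hcoef u hu (n - 3)
  rw [coeff_three u hu0 hn] at hp3
  obtain ⟨γ, hγ⟩ := hcoef v hv (n - 3)
  rw [coeff_three v hv0 hn] at hγ
  obtain ⟨q, hq⟩ := htr (u * v) (D.mul_mem hu hv)
  obtain ⟨α, hα⟩ := htr (u * u * v) (D.mul_mem (D.mul_mem hu hu) hv)
  obtain ⟨β, hβ⟩ := htr (v * v * u) (D.mul_mem (D.mul_mem hv hv) hu)
  -- second coefficients
  have f2 := E2_pencil u v hu0 1 ρ
  rw [one_smul, h2, h2v, hq] at f2
  obtain ⟨g1, g2⟩ := hind (-p2) q (by
    rw [map_neg, ← hp2]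
    linear_combination -f2)
  have hE2u : E2 u = 0 := by
    have : p2 = 0 := neg_eq_zero.mp g1
    rw [this, map_zero] at hp2
    exact neg_eq_zero.mp hp2
  have hquv : Matrix.trace (u * v) = 0 := by rw [hq, g2, map_zero]
  -- third coefficients
  have f3 := E3_pencil u v hu0 hv0 1 ρ
  rw [one_smul, h3, hα, hβ] at f3
  obtain ⟨g3, g4⟩ := hind (-p3 - ν * β + τ * ν * γ) (α + τ * β - (τ * τ - ν) * γ) (by
    simp only [map_add, map_sub, map_mul, map_neg]
    rw [← hp3, ← hγ]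
    linear_combination -f3 - (algebraMap F Ω β + ρ * E3 v + algebraMap F Ω τ * E3 v) * hρ)
  have hp3' : p3 = -(ν * β) + τ * ν * γ := by linear_combination -g3
  have hα' : α = -(τ * β) + (τ * τ - ν) * γ := by linear_combination g4
  have hE3u : E3 u = algebraMap F Ω (ν * β - τ * ν * γ) := by
    have : E3 u = -algebraMap F Ω p3 := by rw [← hp3, neg_neg]
    rw [this, hp3', ← map_neg]
    congr 1
    ring
  have hE3v : E3 v = algebraMap F Ω (-γ) := by rw [map_neg, ← hγ, neg_neg]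
  by_cases hzero : β = 0 ∧ γ = 0
  · obtain ⟨hβ0, hγ0⟩ := hzero
    have hE3u0 : E3 u = 0 := by rw [hE3u, hβ0, hγ0]; simp
    have hE3v0 : E3 v = 0 := by rw [hE3v, hγ0]; simp
    by_cases hu1 : u = 0
    · refine ⟨v, hv, ?_, hv0, h2v, hE3v0⟩
      rintro rfl
      apply hne
      rw [hu1, smul_zero, add_zero]
    · exact ⟨u, hu, hu1, hu0, hE2u, hE3u0⟩
  · -- y = γ u + (β - τ γ) v
    set y : MN n Ω := algebraMap F Ω γ • u + algebraMap F Ω (β - τ * γ) • v with hy
    have hyD : y ∈ D := by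
      rw [hy, algebraMap_smul, algebraMap_smul]
      exact D.add_mem (D.smul_mem hu γ) (D.smul_mem hv _)
    refine ⟨y, hyD, ?_, ?_, ?_, ?_⟩
    · intro hy0
      by_cases hγ0 : γ = 0
      · have hβ0 : β ≠ 0 := fun h => hzero ⟨h, hγ0⟩
        rw [hy, hγ0, map_zero, zero_smul, zero_add, mul_zero, sub_zero] at hy0
        have hv1 : v = 0 := (smul_eq_zero.mp hy0).resolve_left
          ((map_ne_zero (algebraMap F Ω)).mpr hβ0)
        rw [hv1, zero_mul, zero_mul, Matrix.trace_zero] at hβ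
        exact hβ0 ((map_eq_zero (algebraMap F Ω)).mp hβ.symm)
      · have hγ' : algebraMap F Ω γ ≠ 0 := (map_ne_zero (algebraMap F Ω)).mpr hγ0
        set κ : F := -((β - τ * γ) * γ⁻¹) with hκ
        have huv : u = algebraMap F Ω κ • v := by
          have h5 : (algebraMap F Ω γ)⁻¹ • y = 0 := by rw [hy0, smul_zero]
          rw [hy, smul_add, smul_smul, smul_smul, inv_mul_cancel₀ hγ', one_smul] at h5
          have h6 : algebraMap F Ω κ = -((algebraMap F Ω γ)⁻¹ * algebraMap F Ω (β - τ * γ)) := by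
            rw [hκ, map_neg, map_mul, map_inv₀]
            ring
          rw [h6, neg_smul]
          exact eq_neg_of_add_eq_zero_left h5
        have hκρ : algebraMap F Ω κ + ρ ≠ 0 := by
          intro h0
          have := (hind κ 1 (by rw [map_one, mul_one]; exact h0)).2
          exact one_ne_zero this
        have h6 := E3_pencil v v hv0 hv0 (algebraMap F Ω κ + ρ) 0
        rw [zero_smul, add_zero] at h6
        have h7 : u + ρ • v = (algebraMap F Ω κ + ρ) • v := by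
          conv_lhs => rw [huv]
          rw [add_smul]
        rw [← h7, h3] at h6
        have h8 : (algebraMap F Ω κ + ρ) ^ 3 * E3 v = 0 := by linear_combination -h6
        have h9 : E3 v = 0 := (mul_eq_zero.mp h8).resolve_left (pow_ne_zero 3 hκρ)
        rw [hE3v, map_neg, neg_eq_zero] at h9
        exact hγ' h9
    · intro i
      rw [hy, Matrix.add_apply, Matrix.smul_apply, Matrix.smul_apply, hu0, hv0]
      simp
    · rw [hy, E2_pencil u v hu0, hE2u, hquv, h2v]
      ring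
    · rw [hy, E3_pencil u v hu0 hv0, hE3u, hE3v, hα, hβ, hα']
      simp only [map_add, map_sub, map_mul, map_neg]
      ring

end third

end Pool.Agent.Helper41.BJ
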