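import Pool.Agent.Helper41.BJ.M3

/-!
PROJECT BJ (MP_5d2531_al): the main theorem for division forms of degree 7, all characteristics.
-/

namespace Pool.Agent.Helper41.BJ

open Matrix Finset

variable {F : Type*} {Ω : Type*} [Field F] [Field Ω] [Algebra F Ω]

theorem XC_mem {n : ℕ} (D : Subalgebra F (MN n Ω)) (h : MN n Ω) (hh : h ∈ D) (a c : Fin n → Ω)
    (ha : a ∈ EE D) (hc : c ∈ EE D) : XC h a c ∈ D := by
  rw [XC_eq]
  have hca : Matrix.diagonal (fun i => c i * a i) ∈ D := (EE D).mul_mem hc ha
  exact D.sub_mem (D.mul_mem hh hca) (D.mul_mem (D.mul_mem hc hh) ha)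

theorem main_all [Infinite F] [IsAlgClosed Ω] (D : Subalgebra F (MN 7 Ω))
    (hD : IsForm D) (hdiv : IsDiv D) (a : Fin 7 → Ω) (ha : Function.Injective a)
    (hθ : Matrix.diagonal a ∈ D) :
    ∃ y ∈ D, y ≠ 0 ∧ (∀ i, y i i = 0) ∧ E2 y = 0 ∧ E3 y = 0 := by
  obtain ⟨h, hhD, hdiag, hinv⟩ := H5 (m := 3) (by norm_num) D hD a ha hθ
  obtain ⟨b, w0, W, G, u, hbD, hb0, hbi, hspan, hW, hG, hsw, hself, hself2, hsw2, hu1, hu⟩ :=
    good_basis D hD a ha hθ h hhD
  have hbE : ∀ j, b j ∈ EE D := hbD
  have hsumE : ∀ x : Fin 6 → F, (∑ j, algebraMap F Ω (x j) • b j) ∈ EE D := fun x =>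
    (EE D).sum_mem fun j _ => by rw [algebraMap_smul]; exact (EE D).smul_mem (hbE j) _
  -- the rational case
  have rat : ∀ s t : F, ¬ (s = 0 ∧ t = 0) → pf (con (Q := F) W u s t) = 0 →
      ∃ y ∈ D, y ≠ 0 ∧ (∀ i, y i i = 0) ∧ E2 y = 0 ∧ E3 y = 0 := by
    intro s t hst hpf
    obtain ⟨c, hc, hWc, hGc, -⟩ := step (Q := F) W hsw hself hself2 hsw2 u hu1 hu s t hpf
      (fun j => ∑ i, avec u s t i * G i j) 0
    set A : Fin 6 → F := avec u s t with hA
    have hA0 : A ≠ 0 := by
      intro h0
      have h1 := congrFun h0 1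
      have ht : t = 0 := by
        simp only [hA, avec] at h1
        have h3 : t * u 1 = 0 := by simpa using h1
        exact (mul_eq_zero.mp h3).resolve_right hu1
      have hs : s = 0 := by
        have h3 := congrFun h0 0
        simp only [hA, avec, ht] at h3
        simpa using h3
      exact hst ⟨hs, ht⟩
    set α : Fin 7 → Ω := ∑ j, algebraMap F Ω (A j) • b j with hαd
    set β : Fin 7 → Ω := ∑ j, algebraMap F Ω (c j) • b j with hβd
    have hαD : α ∈ EE D := hsumE A
    have hβD : β ∈ EE D := hsumE c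
    have hα0 : α ≠ 0 := by
      intro h0
      have h1 := hbi _ h0
      apply hA0
      funext j
      exact (algebraMap F Ω).injective (by rw [congrFun h1 j, Pi.zero_apply, Pi.zero_apply, map_zero])
    obtain ⟨hαi, hαinv⟩ := EE_inv D hdiv α hαD hα0
    have hom : ∀ w, om h α β w = 0 := by
      apply om_zero_of_basis h b w0 hspan
      · intro k
        rw [hαd, hβd, om_sum]
        have e := congrArg (algebraMap F Ω) (hWc k)
        simp only [map_sum, map_mul, map_zero, Algebra.algebraMap_self_apply] at e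
        rw [← e]
        exact Finset.sum_congr rfl fun i _ => Finset.sum_congr rfl fun j _ => by rw [hW]
      · rw [hαd, hβd, om_sum]
        have e := congrArg (algebraMap F Ω) hGc
        simp only [map_sum, map_mul, map_zero, Finset.sum_mul] at e
        rw [Finset.sum_comm, ← e]
        exact Finset.sum_congr rfl fun j _ => Finset.sum_congr rfl fun i _ => by rw [hG]; ring
    obtain ⟨p2, p3⟩ := XC_props h hinv α β hαi (sum_zero b hb0 _) (sum_zero b hb0 _) hom
    refine ⟨XC h α (fun i => β i * (α i)⁻¹), XC_mem D h hhD _ _ hαD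
      ((EE D).mul_mem hβD hαinv), ?_, fun i => XC_diag _ _ _ i, p2, p3⟩
    intro h0
    obtain ⟨c0, hc0⟩ := XC_ne h hinv b hbi _ _ hαi h0
    exact hc (mem_span_of_ratio A c hA0 c0 hc0)
  by_cases hA0 : pf (W 0) = 0
  · refine rat 1 0 (by simp) ?_
    rw [pf_con, hA0]
    simp
  · set Aq : F := pf (W 0) with hAq
    set Bq : F := pfB W u with hBq
    set Cq : F := pf (fun j k => ∑ i, u i * W i j k) with hCq
    have hAΩ : algebraMap F Ω Aq ≠ 0 := (map_ne_zero (algebraMap F Ω)).mpr hA0
    -- a root
    obtain ⟨ρ, hroot⟩ : ∃ ρ : Ω, algebraMap F Ω Aq * ρ ^ 2 + algebraMap F Ω Bq * ρ +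
        algebraMap F Ω Cq = 0 := by
      set f : Polynomial Ω := Polynomial.C (algebraMap F Ω Aq) * Polynomial.X ^ 2 +
        Polynomial.C (algebraMap F Ω Bq) * Polynomial.X + Polynomial.C (algebraMap F Ω Cq) with hf
      have hdeg : f.degree ≠ 0 := by
        rw [hf, Polynomial.degree_quadratic hAΩ]
        norm_num
      obtain ⟨ρ, hρ⟩ := IsAlgClosed.exists_root f hdeg
      refine ⟨ρ, ?_⟩
      rw [Polynomial.IsRoot, hf] at hρ
      simpa using hρ
    by_cases hrat : ∃ r : F, algebraMap F Ω r = ρ
    · obtain ⟨r, rfl⟩ := hrat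
      refine rat r 1 (by simp) ?_
      rw [pf_con]
      simp only [Algebra.algebraMap_self_apply, ← hAq, ← hBq, ← hCq]
      apply (algebraMap F Ω).injective
      simp only [map_add, map_mul, map_pow, map_one, map_zero]
      linear_combination hroot
    · set τ : F := -(Bq * Aq⁻¹) with hτ
      set ν : F := Cq * Aq⁻¹ with hν
      have hρ : ρ * ρ = algebraMap F Ω τ * ρ - algebraMap F Ω ν := by
        rw [hτ, hν, map_neg, map_mul, map_mul, map_inv₀]
        field_simp
        linear_combination hroot
      have hind : ∀ x y : F, algebraMap F Ω x + ρ * algebraMap F Ω y = 0 → x = 0 ∧ y = 0 := by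
        intro x y hxy
        have hy : y = 0 := by
          by_contra hy
          have hy' : algebraMap F Ω y ≠ 0 := (map_ne_zero (algebraMap F Ω)).mpr hy
          apply hrat
          refine ⟨-(x * y⁻¹), ?_⟩
          rw [map_neg, map_mul, map_inv₀]
          field_simp
          linear_combination -hxy
        refine ⟨?_, hy⟩
        rw [hy, map_zero, mul_zero, add_zero] at hxy
        exact (map_eq_zero (algebraMap F Ω)).mp hxy
      -- the quadratic extension
      let K := SQ hρ hind
      let s : K := ⟨ρ, 0, 1, by simp⟩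
      have hsv : (s : Ω) = ρ := rfl
      have hval : ∀ x : F, ((algebraMap F K x : K) : Ω) = algebraMap F Ω x := fun _ => rfl
      have hpf : pf (con W u s 1) = 0 := by
        rw [pf_con]
        apply Subtype.val_injective
        simp only [← hAq, ← hBq, ← hCq]
        push_cast
        rw [hsv]
        linear_combination hroot
      -- coordinates
      set A : Fin 6 → K := avec u s 1 with hA
      have hAv : ∀ i, (A i : Ω) = (if i = 0 then ρ else 0) + algebraMap F Ω (u i) := by
        intro i
        have e0 : A i = (if i = 0 then s else 0) + 1 * algebraMap F K (u i) := rfl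
        rw [e0, one_mul]
        split_ifs
        · rfl
        · rfl
      have hA0' : A ≠ 0 := by
        intro h0
        have h1 := congrArg (fun x : K => (x : Ω)) (congrFun h0 1)
        have h2 := hAv 1
        rw [if_neg (by decide), zero_add] at h2
        have h3 : algebraMap F Ω (u 1) = 0 := by rw [← h2]; exact h1
        exact hu1 ((map_eq_zero (algebraMap F Ω)).mp h3)
      set a1 : Fin 7 → Ω := ∑ j, algebraMap F Ω (u j) • b j with ha1
      set a2 : Fin 7 → Ω := b 0 with ha2
      have ha1E : a1 ∈ EE D := hsumE u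
      have ha2E : a2 ∈ EE D := hbE 0
      set α : Fin 7 → Ω := ∑ j, (A j : Ω) • b j with hαd
      have hαi : ∀ i, α i = a1 i + ρ * a2 i := by
        intro i
        have e : α = ρ • b 0 + a1 := by
          rw [hαd, ha1]
          simp only [hAv, add_smul, Finset.sum_add_distrib, ite_smul, zero_smul,
            Finset.sum_ite_eq', Finset.mem_univ, if_true]
        rw [e, Pi.add_apply, Pi.smul_apply, smul_eq_mul]
        ring
      have hα0 : ¬ (∀ i, a1 i + ρ * a2 i = 0) := by
        intro h0
        have h1 : α = 0 := funext fun i => by rw [hαi, h0]; rfl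
        have h2 := hbi _ h1
        apply hA0'
        funext j
        exact Subtype.val_injective (congrFun h2 j)
      obtain ⟨hαne, e1, he1, e2, he2, hαinv⟩ := EQ_inv hρ hind (m := 3) (by norm_num) D hD hdiv
        ha1E ha2E hα0
      have hαne' : ∀ i, α i ≠ 0 := fun i => by rw [hαi]; exact hαne i
      -- the second functional
      have hgm : ∀ j, (∑ i, a2 i * b j i * (α i)⁻¹) ∈ SQ hρ hind := by
        intro j
        obtain ⟨x, hx⟩ := EE_trace D hD a ha hθ (a2 * b j * e1)
          ((EE D).mul_mem ((EE D).mul_mem ha2E (hbE j)) he1)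
        obtain ⟨y, hy⟩ := EE_trace D hD a ha hθ (a2 * b j * e2)
          ((EE D).mul_mem ((EE D).mul_mem ha2E (hbE j)) he2)
        refine ⟨x, y, ?_⟩
        rw [← hx, ← hy, Finset.mul_sum, ← Finset.sum_add_distrib]
        refine Finset.sum_congr rfl fun i _ => ?_
        rw [hαi, hαinv]
        simp only [Pi.mul_apply]
        ring
      let g : Fin 6 → K := fun j => ⟨_, hgm j⟩
      obtain ⟨c, hc, hWc, hGc, hgc⟩ := step (Q := K) W hsw hself hself2 hsw2 u hu1 hu s 1 hpf
        (fun j => ∑ i, avec u s 1 i * algebraMap F K (G i j)) g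
      choose x y hxy using fun j => (c j).2
      set b1 : Fin 7 → Ω := ∑ j, algebraMap F Ω (x j) • b j with hb1
      set b2 : Fin 7 → Ω := ∑ j, algebraMap F Ω (y j) • b j with hb2
      have hb1E : b1 ∈ EE D := hsumE x
      have hb2E : b2 ∈ EE D := hsumE y
      set β : Fin 7 → Ω := ∑ j, (c j : Ω) • b j with hβd
      have hβi : ∀ i, β i = b1 i + ρ * b2 i := by
        intro i
        rw [hβd, hb1, hb2, Finset.sum_apply, Finset.sum_apply, Finset.sum_apply, Finset.mul_sum,
          ← Finset.sum_add_distrib]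
        refine Finset.sum_congr rfl fun j _ => ?_
        rw [Pi.smul_apply, Pi.smul_apply, Pi.smul_apply, hxy j, smul_eq_mul, smul_eq_mul, smul_eq_mul]
        ring
      have homW : ∀ k, ∑ i, ∑ j, (A i : Ω) * (c j : Ω) * algebraMap F Ω (W i j k) = 0 := by
        intro k
        have e := congrArg (fun x : K => (x : Ω)) (hWc k)
        push_cast at e
        exact e
      have homG : ∑ i, ∑ j, (A i : Ω) * (c j : Ω) * algebraMap F Ω (G i j) = 0 := by
        have hGc' : ∑ j, (∑ i, A i * algebraMap F K (G i j)) * c j = 0 := hGc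
        have e := congrArg (fun x : K => (x : Ω)) hGc'
        push_cast at e
        rw [Finset.sum_comm, ← e]
        refine Finset.sum_congr rfl fun j _ => ?_
        rw [Finset.sum_mul]
        refine Finset.sum_congr rfl fun i _ => ?_
        ring
      have hom : ∀ w, om h α β w = 0 := by
        apply om_zero_of_basis h b w0 hspan
        · intro k
          rw [hαd, hβd, om_sum, ← homW k]
          exact Finset.sum_congr rfl fun i _ => Finset.sum_congr rfl fun j _ => by rw [hW]
        · rw [hαd, hβd, om_sum, ← homG]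
          exact Finset.sum_congr rfl fun i _ => Finset.sum_congr rfl fun j _ => by rw [hG]
      have sα : ∑ i, α i = 0 := sum_zero b hb0 (fun j => (A j : Ω))
      have sβ : ∑ i, β i = 0 := sum_zero b hb0 (fun j => (c j : Ω))
      have sa1 : ∑ i, a1 i = 0 := sum_zero b hb0 _
      have sa2 : ∑ i, a2 i = 0 := hb0 0
      obtain ⟨p2, p3⟩ := XC_props h hinv α β hαne' sα sβ hom
      -- the quotient
      obtain ⟨c1, hc1, c2, hc2, hcc⟩ := EQ_mul hρ D hb1E hb2E he1 he2
      have hci : ∀ i, β i * (α i)⁻¹ = c1 i + ρ * c2 i := by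
        intro i
        rw [hβi, hαi, hαinv, hcc]
      have hcfun : (fun i => β i * (α i)⁻¹) = fun i => c1 i + ρ * c2 i := funext hci
      have tr : ∀ v : Fin 7 → Ω, v ∈ EE D → ∃ c : F, ∑ i, v i = algebraMap F Ω c :=
        fun v hv => EE_trace D hD a ha hθ v hv
      -- relations between traces
      obtain ⟨t21, h21⟩ := tr (a2 * c1) ((EE D).mul_mem ha2E hc1)
      obtain ⟨t22, h22⟩ := tr (a2 * c2) ((EE D).mul_mem ha2E hc2)
      obtain ⟨t11, h11⟩ := tr (a1 * c1) ((EE D).mul_mem ha1E hc1)
      obtain ⟨t12, h12⟩ := tr (a1 * c2) ((EE D).mul_mem ha1E hc2)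
      simp only [Pi.mul_apply] at h21 h22 h11 h12
      have r1 : ∑ i, a2 i * (β i * (α i)⁻¹) = 0 := by
        have e := congrArg (fun x : K => (x : Ω)) hgc
        push_cast at e
        have e2 : ∀ j, ((g j : K) : Ω) = ∑ i, a2 i * b j i * (α i)⁻¹ := fun j => rfl
        simp only [e2, Finset.sum_mul] at e
        rw [Finset.sum_comm] at e
        rw [← e]
        refine Finset.sum_congr rfl fun i _ => ?_
        rw [hβd, Finset.sum_apply, Finset.sum_mul, Finset.mul_sum]
        refine Finset.sum_congr rfl fun j _ => ?_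
        rw [Pi.smul_apply, smul_eq_mul]
        ring
      have r2 : algebraMap F Ω t21 + ρ * algebraMap F Ω t22 = 0 := by
        rw [← h21, ← h22, ← r1, Finset.mul_sum, ← Finset.sum_add_distrib]
        refine Finset.sum_congr rfl fun i _ => ?_
        rw [hci]
        ring
      obtain ⟨z21, z22⟩ := hind _ _ r2
      have s21 : ∑ i, a2 i * c1 i = 0 := by rw [h21, z21, map_zero]
      have s22 : ∑ i, a2 i * c2 i = 0 := by rw [h22, z22, map_zero]
      have r3 : algebraMap F Ω t11 + ρ * algebraMap F Ω t12 = 0 := by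
        have e : ∑ i, β i = ∑ i, (a1 i + ρ * a2 i) * (c1 i + ρ * c2 i) := by
          refine Finset.sum_congr rfl fun i _ => ?_
          rw [← hci, ← hαi, mul_comm (α i), mul_assoc, inv_mul_cancel₀ (hαne' i), mul_one]
        rw [sβ] at e
        have e2 : ∑ i, (a1 i + ρ * a2 i) * (c1 i + ρ * c2 i) =
            ∑ i, a1 i * c1 i + ρ * ∑ i, a1 i * c2 i + ρ * ∑ i, a2 i * c1 i +
              ρ * ρ * ∑ i, a2 i * c2 i := by
          simp only [Finset.mul_sum, ← Finset.sum_add_distrib]
          exact Finset.sum_congr rfl fun i _ => by ring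
        rw [e2, s21, s22, h11, h12] at e
        linear_combination -e
      obtain ⟨-, z12⟩ := hind _ _ r3
      have s12 : ∑ i, a1 i * c2 i = 0 := by rw [h12, z12, map_zero]
      -- the two components
      set U : MN 7 Ω := XC h a1 c1 - ν • XC h a2 c2 with hU
      set V : MN 7 Ω := XC h a2 c1 + XC h (a1 + τ • a2) c2 with hV
      have hUD : U ∈ D := D.sub_mem (XC_mem D h hhD _ _ ha1E hc1)
        (D.smul_mem (XC_mem D h hhD _ _ ha2E hc2) ν)
      have hVD : V ∈ D := D.add_mem (XC_mem D h hhD _ _ ha2E hc1)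
        (XC_mem D h hhD _ _ ((EE D).add_mem ha1E ((EE D).smul_mem ha2E τ)) hc2)
      have hU0 : ∀ i, U i i = 0 := by
        intro i
        rw [hU, Matrix.sub_apply, Matrix.smul_apply, XC_diag, XC_diag, smul_zero, sub_zero]
      have hV0 : ∀ i, V i i = 0 := by
        intro i
        rw [hV, Matrix.add_apply, XC_diag, XC_diag, add_zero]
      have hX : XC h α (fun i => β i * (α i)⁻¹) = U + ρ • V := by
        rw [hcfun]
        ext i j
        rw [hU, hV, Matrix.add_apply, Matrix.sub_apply, Matrix.smul_apply, Matrix.smul_apply,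
          Matrix.add_apply]
        simp only [XC, Matrix.of_apply, Pi.add_apply, Pi.smul_apply]
        rw [hαi j]
        simp only [Algebra.smul_def, Algebra.algebraMap_self_apply]
        linear_combination (h i j * (c2 j - c2 i) * a2 j) * hρ
      have hXne : U + ρ • V ≠ 0 := by
        rw [← hX]
        intro h0
        obtain ⟨c0, hc0⟩ := XC_ne h hinv b hbi _ _ hαne' h0
        exact hc (mem_span_of_ratio (Q := K) A c hA0' c0 hc0)
      have hE2V : E2 V = 0 := by
        have sq1 : ∑ i, (a1 + τ • a2) i = 0 := by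
          simp only [Pi.add_apply, Pi.smul_apply, Finset.sum_add_distrib]
          rw [sa1, ← Finset.smul_sum, sa2, smul_zero, add_zero]
        rw [hV, E2_XC h hinv a2 (a1 + τ • a2) c1 c2 sa2 sq1]
        have k1 : ∑ i, c1 i * a2 i = 0 := by
          rw [← s21]
          exact Finset.sum_congr rfl fun i _ => mul_comm _ _
        have k2 : ∑ i, c2 i * a2 i = 0 := by
          rw [← s22]
          exact Finset.sum_congr rfl fun i _ => mul_comm _ _
        have k3 : ∑ i, c2 i * (a1 + τ • a2) i = 0 := by
          have e : ∑ i, c2 i * (a1 + τ • a2) i = ∑ i, a1 i * c2 i +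
              algebraMap F Ω τ * ∑ i, a2 i * c2 i := by
            rw [Finset.mul_sum, ← Finset.sum_add_distrib]
            refine Finset.sum_congr rfl fun i _ => ?_
            rw [Pi.add_apply, Pi.smul_apply, Algebra.smul_def]
            ring
          rw [e, s12, s22]
          ring
        rw [k1, k2, k3]
        ring
      rw [hX] at p2 p3
      exact third_root (by norm_num) hρ hind D
        (fun y hy k => coeff_mem (by norm_num) D hD hdiv y hy k)
        (fun y hy => A7 D hD a ha hθ y hy) U V hUD hVD hU0 hV0 hXne hE2V p2 p3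

end Pool.Agent.Helper41.BJ
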