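import Pool.Agent.Helper41.BJ.Defs

/-! General degree version (project BJ, MP_5d2531_al) of the corresponding file of helper58 / helper76. -/

namespace Pool.Agent.Helper41.BJ

open Matrix Finset

section
variable {n : ℕ} {Ω : Type*} [CommRing Ω]

theorem om_lin1 (h : MN n Ω) (c c1 : Ω) (u u1 v w : Fin n → Ω) :
    om h (c • u + c1 • u1) v w = c * om h u v w + c1 * om h u1 v w := by
  simp only [om, Finset.mul_sum, ← Finset.sum_add_distrib]
  refine Finset.sum_congr rfl fun i _ => Finset.sum_congr rfl fun j _ =>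
    Finset.sum_congr rfl fun k _ => ?_
  simp only [Pi.add_apply, Pi.smul_apply, smul_eq_mul]
  ring

theorem om_lin2 (h : MN n Ω) (c c1 : Ω) (u v v1 w : Fin n → Ω) :
    om h u (c • v + c1 • v1) w = c * om h u v w + c1 * om h u v1 w := by
  simp only [om, Finset.mul_sum, ← Finset.sum_add_distrib]
  refine Finset.sum_congr rfl fun i _ => Finset.sum_congr rfl fun j _ =>
    Finset.sum_congr rfl fun k _ => ?_
  simp only [Pi.add_apply, Pi.smul_apply, smul_eq_mul]
  ring

theorem om_lin3 (h : MN n Ω) (c c1 : Ω) (u v w w1 : Fin n → Ω) :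
    om h u v (c • w + c1 • w1) = c * om h u v w + c1 * om h u v w1 := by
  simp only [om, Finset.mul_sum, ← Finset.sum_add_distrib]
  refine Finset.sum_congr rfl fun i _ => Finset.sum_congr rfl fun j _ =>
    Finset.sum_congr rfl fun k _ => ?_
  simp only [Pi.add_apply, Pi.smul_apply, smul_eq_mul]
  ring

theorem om_cyc (h : MN n Ω) (u v w : Fin n → Ω) : om h v w u = om h u v w := by
  have e : om h u v w = ∑ j, ∑ k, ∑ i,
      (h i j * h j k * h k i - h i k * h k j * h j i) * (u i * v j * w k) := by
    rw [om, Finset.sum_comm]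
    refine Finset.sum_congr rfl fun j _ => ?_
    rw [Finset.sum_comm]
  rw [e, om]
  refine Finset.sum_congr rfl fun i _ => Finset.sum_congr rfl fun j _ =>
    Finset.sum_congr rfl fun k _ => ?_
  ring

theorem om_swap (h : MN n Ω) (u v w : Fin n → Ω) : om h v u w = -om h u v w := by
  have e : om h u v w = ∑ j, ∑ i, ∑ k,
      (h i j * h j k * h k i - h i k * h k j * h j i) * (u i * v j * w k) := by
    rw [om, Finset.sum_comm]
  rw [e, om, ← Finset.sum_neg_distrib]
  refine Finset.sum_congr rfl fun i _ => ?_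
  rw [← Finset.sum_neg_distrib]
  refine Finset.sum_congr rfl fun j _ => ?_
  rw [← Finset.sum_neg_distrib]
  refine Finset.sum_congr rfl fun k _ => ?_
  ring

theorem om_self (h : MN n Ω) (u w : Fin n → Ω) : om h u u w = 0 := by
  have e : om h u u w = ∑ k, (∑ i, ∑ j, (h i j * h j k * h k i) * (u i * u j * w k) -
      ∑ i, ∑ j, (h j i * h i k * h k j) * (u j * u i * w k)) := by
    rw [om]
    have e1 : ∀ i, (∑ j, ∑ k, (h i j * h j k * h k i - h i k * h k j * h j i) * (u i * u j * w k)) =
        ∑ k, ∑ j, (h i j * h j k * h k i - h i k * h k j * h j i) * (u i * u j * w k) :=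
      fun i => Finset.sum_comm
    rw [Finset.sum_congr rfl fun i _ => e1 i, Finset.sum_comm]
    refine Finset.sum_congr rfl fun k _ => ?_
    rw [← Finset.sum_sub_distrib]
    refine Finset.sum_congr rfl fun i _ => ?_
    rw [← Finset.sum_sub_distrib]
    refine Finset.sum_congr rfl fun j _ => ?_
    ring
  rw [e]
  refine Finset.sum_eq_zero fun k _ => ?_
  rw [sub_eq_zero]
  exact Finset.sum_comm

end

end Pool.Agent.Helper41.BJ
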