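import Mathlib

/-! Prime degree version (project BJ, MP_5d2531_al) of the corresponding file of helper96. -/

namespace Pool.Agent.Helper41.BJ

/-- the linear equivalence `M_p(K) = K^(p^2)` -/
noncomputable def r1_flat {p : ℕ} (K : Type*) [Field K] (e : Fin (p * p) ≃ Fin p × Fin p) :
    Matrix (Fin p) (Fin p) K ≃ₗ[K] (Fin (p * p) → K) where
  toFun M := fun j => M (e j).1 (e j).2
  map_add' _ _ := rfl
  map_smul' _ _ := rfl
  invFun v := fun i j => v (e.symm (i, j))
  left_inv M := by
    ext i j
    simp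
  right_inv v := by
    ext j
    simp

theorem r1_iff {p : ℕ} {K : Type*} [Field K] (e : Fin (p * p) ≃ Fin p × Fin p)
    (b : Fin (p * p) → Matrix (Fin p) (Fin p) K) :
    LinearIndependent K b ↔ IsUnit (Matrix.of fun i j => b i (e j).1 (e j).2) := by
  rw [← Matrix.linearIndependent_rows_iff_isUnit]
  rw [← (r1_flat K e).toLinearMap.linearIndependent_iff (LinearMap.ker_eq_bot.2
    (r1_flat K e).injective)]
  exact Iff.rfl

theorem linearIndependent_map {p : ℕ} {L Ω : Type*} [Field L] [Field Ω] (f : L →+* Ω)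
    (b : Fin (p * p) → Matrix (Fin p) (Fin p) L) (hb : LinearIndependent L b) :
    LinearIndependent Ω (fun i => (b i).map f) := by
  let e : Fin (p * p) ≃ Fin p × Fin p := (finProdFinEquiv : Fin p × Fin p ≃ Fin (p * p)).symm
  rw [r1_iff e] at hb ⊢
  have h := hb.map (f.mapMatrix : Matrix (Fin (p * p)) (Fin (p * p)) L →+* Matrix (Fin (p * p)) (Fin (p * p)) Ω)
  exact h

end Pool.Agent.Helper41.BJ
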