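import Mathlib
import Pool.Agent.Helper41.BJ.Defs
import Pool.Agent.Helper41.BJ.B1
import Pool.Agent.Helper41.BJ.B2
import Pool.Agent.Helper41.BJ.R1

/-! Prime degree version (project BJ, MP_5d2531_al) of the corresponding file of helper96. -/

namespace Pool.Agent.Helper41.BJ

open Pool.Agent.Helper96.CY

theorem exists_form {p : ℕ} (hp : p.Prime) {F D Ω : Type*} [Field F] [DivisionRing D] [Algebra F D] [Field Ω]
    [Algebra F Ω] [IsAlgClosed Ω]
    (hcen : ∀ x : D, (∀ y, x * y = y * x) → ∃ c : F, algebraMap F D c = x)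
    (hdim : Module.finrank F D = p * p) :
    ∃ φ : D →ₐ[F] MN p Ω, Function.Injective φ ∧ IsForm φ.range := by
  classical
  haveI : NeZero p := ⟨hp.ne_zero⟩
  have hfin : FiniteDimensional F D := Module.finite_of_finrank_pos (by rw [hdim]; exact Nat.mul_pos hp.pos hp.pos)
  let b : Module.Basis (Fin (p * p)) F D := Module.finBasisOfFinrankEq F D hdim
  obtain ⟨L, hLf, hLa, θ, ι, hL, hθ⟩ := exists_subfield hp hcen hdim
  obtain ⟨ρ, hρ⟩ := exists_rep hp.pos hcen hdim ι hL θ hθ
  have hLfin : FiniteDimensional F L := Module.finite_of_finrank_pos (by rw [hL]; exact hp.pos)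
  have hli5 : LinearIndependent F (fun i : Fin p => θ ^ (i : ℕ)) := by
    have h1 : LinearIndependent F (fun i : Fin (minpoly F θ).natDegree => θ ^ (i : ℕ)) :=
      linearIndependent_pow θ
    rw [hθ] at h1
    exact h1
  let pb : Module.Basis (Fin p) F L := basisOfLinearIndependentOfCardEqFinrank hli5 (by simp [hL])
  have hpb : ∀ i, pb i = θ ^ (i : ℕ) := fun i => by simp [pb]
  have hli : LinearIndependent L (fun i => ρ (b i)) := by
    rw [Fintype.linearIndependent_iff]
    intro g hg i
    have h1 : ∑ j : Fin p, θ ^ (j : ℕ) • ρ (∑ i, pb.repr (g i) j • b i) = 0 := by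
      have h2 : ∀ j : Fin p, θ ^ (j : ℕ) • ρ (∑ i, pb.repr (g i) j • b i) =
          ∑ i, (pb.repr (g i) j • θ ^ (j : ℕ)) • ρ (b i) := by
        intro j
        rw [map_sum, Finset.smul_sum]
        refine Finset.sum_congr rfl fun i _ => ?_
        rw [map_smul, smul_assoc, smul_comm]
      rw [Finset.sum_congr rfl fun j _ => h2 j, Finset.sum_comm]
      rw [← hg]
      refine Finset.sum_congr rfl fun i _ => ?_
      rw [← Finset.sum_smul]
      congr 1
      have h3 := pb.sum_repr (g i)
      simp only [hpb] at h3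
      exact h3
    have h4 := hρ _ h1
    have h5 : ∀ j, pb.repr (g i) j = 0 := by
      intro j
      exact (Fintype.linearIndependent_iff.1 b.linearIndependent) _ (h4 j) i
    have h6 : pb.repr (g i) = 0 := by
      ext j
      exact h5 j
    exact (LinearEquiv.map_eq_zero_iff pb.repr).1 h6
  have halg : Algebra.IsAlgebraic F L := Algebra.IsAlgebraic.of_finite F L
  let g : L →ₐ[F] Ω := IsAlgClosed.lift
  let φ : D →ₐ[F] MN p Ω := g.mapMatrix.comp ρ
  have hφ : ∀ d, φ d = (ρ d).map g := fun d => rfl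
  refine ⟨φ, φ.toRingHom.injective, fun i => φ (b i), fun i => ⟨b i, rfl⟩, ?_, ?_⟩
  · exact linearIndependent_map (g : L →+* Ω) _ hli
  · rintro _ ⟨d, rfl⟩
    refine ⟨fun i => b.repr d i, ?_⟩
    have h := b.sum_repr d
    change φ d = _
    conv_lhs => rw [← h]
    rw [map_sum]
    refine Finset.sum_congr rfl fun i _ => ?_
    rw [map_smul]

end Pool.Agent.Helper41.BJ
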