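import Pool.Agent.Helper41.BJ.Defs

/-!
PROJECT BJ (MP_5d2531_al): sums over triples. A function on triples which vanishes when two indices
coincide has the same sum as the sum over `i < j < k` of its six rearrangements.
-/

namespace Pool.Agent.Helper41.BJ

open Matrix Finset

section

variable {n : ℕ} {Ω : Type*} [CommRing Ω]

theorem S3_add (f g : Fin n → Fin n → Fin n → Ω) :
    S3 (fun i j k => f i j k + g i j k) = S3 f + S3 g := by
  simp only [S3, ← Finset.sum_add_distrib]
  refine Finset.sum_congr rfl fun i _ => Finset.sum_congr rfl fun j _ =>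
    Finset.sum_congr rfl fun k _ => ?_
  split_ifs
  · rfl
  · rw [add_zero]

theorem S3_smul (c : Ω) (f : Fin n → Fin n → Fin n → Ω) :
    S3 (fun i j k => c * f i j k) = c * S3 f := by
  simp only [S3, Finset.mul_sum]
  refine Finset.sum_congr rfl fun i _ => Finset.sum_congr rfl fun j _ =>
    Finset.sum_congr rfl fun k _ => ?_
  split_ifs
  · rfl
  · rw [mul_zero]

/-- the sum over all ordered triples of distinct indices -/
theorem sum_triples (f : Fin n → Fin n → Fin n → Ω) (h1 : ∀ i k, f i i k = 0)
    (h2 : ∀ i k, f i k i = 0) (h3 : ∀ i k, f k i i = 0) :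
    ∑ i, ∑ j, ∑ k, f i j k =
      S3 (fun i j k => f i j k + f i k j + f j i k + f j k i + f k i j + f k j i) := by
  have e : ∀ i j k, f i j k =
      (if i < j ∧ j < k then f i j k else 0) + (if i < k ∧ k < j then f i j k else 0) +
      (if j < i ∧ i < k then f i j k else 0) + (if k < i ∧ i < j then f i j k else 0) +
      (if j < k ∧ k < i then f i j k else 0) + (if k < j ∧ j < i then f i j k else 0) := by
    intro i j k
    rcases lt_trichotomy i j with hij | hij | hij
    · rcases lt_trichotomy j k with hjk | hjk | hjk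
      · simp [hij, hjk, hij.not_gt, hjk.not_gt, (hij.trans hjk), (hij.trans hjk).not_gt]
      · subst hjk
        simp [h3]
      · rcases lt_trichotomy i k with hik | hik | hik
        · simp [hij, hjk, hij.not_gt, hjk.not_gt, hik, hik.not_gt]
        · subst hik
          simp [h2]
        · simp [hij, hjk, hij.not_gt, hjk.not_gt, hik, hik.not_gt]
    · subst hij
      simp [h1]
    · rcases lt_trichotomy j k with hjk | hjk | hjk
      · rcases lt_trichotomy i k with hik | hik | hik
        · simp [hij, hjk, hij.not_gt, hjk.not_gt, hik, hik.not_gt]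
        · subst hik
          simp [h2]
        · simp [hij, hjk, hij.not_gt, hjk.not_gt, hik, hik.not_gt]
      · subst hjk
        simp [h3]
      · simp [hij, hjk, hij.not_gt, hjk.not_gt, (hjk.trans hij), (hjk.trans hij).not_gt]
  have hsum : ∑ i, ∑ j, ∑ k, f i j k =
      (∑ i, ∑ j, ∑ k, if i < j ∧ j < k then f i j k else 0) +
      (∑ i, ∑ j, ∑ k, if i < k ∧ k < j then f i j k else 0) +
      (∑ i, ∑ j, ∑ k, if j < i ∧ i < k then f i j k else 0) +
      (∑ i, ∑ j, ∑ k, if k < i ∧ i < j then f i j k else 0) +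
      (∑ i, ∑ j, ∑ k, if j < k ∧ k < i then f i j k else 0) +
      (∑ i, ∑ j, ∑ k, if k < j ∧ j < i then f i j k else 0) := by
    simp only [← Finset.sum_add_distrib]
    exact Finset.sum_congr rfl fun i _ => Finset.sum_congr rfl fun j _ =>
      Finset.sum_congr rfl fun k _ => e i j k
  -- the six sums after renaming
  have r2 : (∑ i, ∑ j, ∑ k, if i < k ∧ k < j then f i j k else 0) =
      ∑ i, ∑ j, ∑ k, if i < j ∧ j < k then f i k j else 0 :=
    Finset.sum_congr rfl fun i _ => Finset.sum_comm
  have r3 : (∑ i, ∑ j, ∑ k, if j < i ∧ i < k then f i j k else 0) =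
      ∑ i, ∑ j, ∑ k, if i < j ∧ j < k then f j i k else 0 := Finset.sum_comm
  have r4 : (∑ i, ∑ j, ∑ k, if k < i ∧ i < j then f i j k else 0) =
      ∑ i, ∑ j, ∑ k, if i < j ∧ j < k then f j k i else 0 := by
    -- (i,j,k) ↦ (j,k,i)
    have a1 : (∑ i, ∑ j, ∑ k, if k < i ∧ i < j then f i j k else 0) =
        ∑ i, ∑ k, ∑ j, if k < i ∧ i < j then f i j k else 0 :=
      Finset.sum_congr rfl fun i _ => Finset.sum_comm
    rw [a1, Finset.sum_comm]
  have r5 : (∑ i, ∑ j, ∑ k, if j < k ∧ k < i then f i j k else 0) =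
      ∑ i, ∑ j, ∑ k, if i < j ∧ j < k then f k i j else 0 := by
    rw [Finset.sum_comm]
    refine Finset.sum_congr rfl fun i _ => ?_
    rw [Finset.sum_comm]
  have r6 : (∑ i, ∑ j, ∑ k, if k < j ∧ j < i then f i j k else 0) =
      ∑ i, ∑ j, ∑ k, if i < j ∧ j < k then f k j i else 0 := by
    have a1 : (∑ i, ∑ j, ∑ k, if k < j ∧ j < i then f i j k else 0) =
        ∑ i, ∑ k, ∑ j, if k < j ∧ j < i then f i j k else 0 :=
      Finset.sum_congr rfl fun i _ => Finset.sum_comm
    rw [a1, Finset.sum_comm]
    refine Finset.sum_congr rfl fun i _ => ?_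
    rw [Finset.sum_comm]
  rw [hsum, r2, r3, r4, r5, r6]
  simp only [S3, ← Finset.sum_add_distrib]
  refine Finset.sum_congr rfl fun i _ => Finset.sum_congr rfl fun j _ =>
    Finset.sum_congr rfl fun k _ => ?_
  split_ifs
  · rfl
  · simp

/-- the alternating coefficient -/
def alt3 (h : MN n Ω) (i j k : Fin n) : Ω :=
  h i j * h j k * h k i - h i k * h k j * h j i

/-- the determinant of three rows -/
def det3 (u v w : Fin n → Ω) (i j k : Fin n) : Ω :=
  u i * v j * w k - u i * v k * w j - u j * v i * w k + u j * v k * w i + u k * v i * w j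
    - u k * v j * w i

theorem om_S3 (h : MN n Ω) (u v w : Fin n → Ω) :
    om h u v w = S3 (fun i j k => alt3 h i j k * det3 u v w i j k) := by
  have e0 : om h u v w = ∑ i, ∑ j, ∑ k, alt3 h i j k * (u i * v j * w k) := rfl
  rw [e0, sum_triples]
  · congr 1
    funext i j k
    simp only [alt3, det3]
    ring
  · intro i k
    simp only [alt3]
    ring
  · intro i k
    simp only [alt3]
    ring
  · intro i k
    simp only [alt3]
    ring

/-- the trace of `M ^ 2 N` for matrices with zero diagonal -/
theorem trace_three (M N P : MN n Ω) : Matrix.trace (M * N * P) =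
    ∑ i, ∑ j, ∑ k, M i j * N j k * P k i := by
  unfold Matrix.trace
  refine Finset.sum_congr rfl fun i _ => ?_
  rw [Matrix.diag_apply, Matrix.mul_apply]
  have e : ∀ k, (M * N) i k * P k i = ∑ j, M i j * N j k * P k i := fun k => by
    rw [Matrix.mul_apply, Finset.sum_mul]
  rw [Finset.sum_congr rfl fun k _ => e k, Finset.sum_comm]

theorem trace_three_S3 (M N P : MN n Ω) (hM : ∀ i, M i i = 0) (hN : ∀ i, N i i = 0)
    (hP : ∀ i, P i i = 0) : Matrix.trace (M * N * P) =
    S3 (fun i j k => M i j * N j k * P k i + M i k * N k j * P j i + M j i * N i k * P k j +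
      M j k * N k i * P i j + M k i * N i j * P j k + M k j * N j i * P i k) := by
  rw [trace_three, sum_triples]
  · intro i k
    rw [hM]; ring
  · intro i k
    rw [hP]; ring
  · intro i k
    rw [hN]; ring

/-- expansion of `E3` along a pencil of matrices with zero diagonals -/
theorem E3_pencil (u v : MN n Ω) (hu : ∀ i, u i i = 0) (hv : ∀ i, v i i = 0) (s t : Ω) :
    E3 (s • u + t • v) = s ^ 3 * E3 u + s ^ 2 * t * Matrix.trace (u * u * v) +
      s * t ^ 2 * Matrix.trace (v * v * u) + t ^ 3 * E3 v := by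
  rw [trace_three_S3 u u v hu hu hv, trace_three_S3 v v u hv hv hu]
  unfold E3
  rw [← S3_smul, ← S3_smul, ← S3_smul, ← S3_smul, ← S3_add, ← S3_add, ← S3_add]
  congr 1
  funext i j k
  simp only [cyc3, Matrix.add_apply, Matrix.smul_apply, smul_eq_mul]
  ring

end

/-- the third coefficient of `XX h r s` -/
theorem E3_XX {n : ℕ} {Ω : Type*} [Field Ω] (h : MN n Ω) (r s : Fin n → Ω) (hr : ∀ i, r i ≠ 0) :
    E3 (XX h r s) = - om h r s (fun i => s i ^ 2 * (r i)⁻¹) := by
  rw [om_S3]
  have e : - S3 (fun i j k => alt3 h i j k * det3 r s (fun i => s i ^ 2 * (r i)⁻¹) i j k) =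
      S3 (fun i j k => (-1) * (alt3 h i j k * det3 r s (fun i => s i ^ 2 * (r i)⁻¹) i j k)) := by
    rw [S3_smul]; ring
  rw [e]
  unfold E3
  congr 1
  funext i j k
  have hi := hr i
  have hj := hr j
  have hk := hr k
  simp only [cyc3, XX, Matrix.of_apply, alt3, det3]
  field_simp
  ring

end Pool.Agent.Helper41.BJ
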