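import Pool.Agent.Helper41.BJ.M4
import Pool.Agent.Helper41.BJ.A3b
import Pool.Agent.Helper41.BJ.A3c
import Pool.Agent.Helper41.BJ.A4

/-!
PROJECT BJ (MP_5d2531_al): every division form of `M_7(Ω)` contains a nonscalar element whose
characteristic polynomial has vanishing coefficients in degrees 6, 5, 4.
-/

namespace Pool.Agent.Helper41.BJ

open Matrix Finset

variable {F : Type*} {Ω : Type*} [Field F] [Field Ω] [Algebra F Ω]

theorem charpoly_conj (S S' y : MN 7 Ω) (hS : S * S' = 1) :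
    (S * y * S').charpoly = y.charpoly := by
  have hS' : S' * S = 1 := mul_eq_one_comm.mp hS
  obtain ⟨u, hu⟩ : ∃ u : (MN 7 Ω)ˣ, (u : MN 7 Ω) = S := ⟨⟨S, S', hS, hS'⟩, rfl⟩
  have h := Matrix.charpoly_units_conj u y
  rw [hu, Matrix.inv_eq_right_inv hS] at h
  exact h

theorem main_form [Infinite F] [IsAlgClosed Ω] (D : Subalgebra F (MN 7 Ω))
    (hD : IsForm D) (hdiv : IsDiv D) :
    ∃ z ∈ D, (∀ c : Ω, z ≠ c • (1 : MN 7 Ω)) ∧ z.charpoly.coeff 6 = 0 ∧ z.charpoly.coeff 5 = 0 ∧
      z.charpoly.coeff 4 = 0 := by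
  obtain ⟨θ, hθ, hdisc⟩ := A3c D hD
  obtain ⟨S, S', a, hS, hdiag, hinj⟩ := A3b θ hdisc
  have hS' : S' * S = 1 := mul_eq_one_comm.mp hS
  have e1 : ∀ x : MN 7 Ω, S * (S' * x * S) * S' = x := by
    intro x
    calc S * (S' * x * S) * S' = (S * S') * x * (S * S') := by simp only [mul_assoc]
      _ = x := by rw [hS, one_mul, mul_one]
  have hθ' : Matrix.diagonal a ∈ conjD D S S' hS := by
    rw [mem_conjD, ← hdiag, e1]
    exact hθ
  obtain ⟨y, hy, hy0, hyd, h2, h3⟩ := main_all (conjD D S S' hS) (A4a D S S' hS hD)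
    (A4b D S S' hS hdiv) a hinj hθ'
  have hch : (S * y * S').charpoly = y.charpoly := charpoly_conj S S' y hS
  refine ⟨S * y * S', hy, ?_, ?_, ?_, ?_⟩
  · intro c hc
    have e2 : y = c • (1 : MN 7 Ω) := by
      calc y = (S' * S) * y * (S' * S) := by rw [hS', one_mul, mul_one]
        _ = S' * (S * y * S') * S := by simp only [mul_assoc]
        _ = c • (1 : MN 7 Ω) := by
          rw [hc, mul_smul_comm, mul_one, smul_mul_assoc, hS']
    have e3 := hyd 0
    rw [e2, Matrix.smul_apply, Matrix.one_apply_eq, smul_eq_mul, mul_one] at e3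
    apply hy0
    rw [e2, e3, zero_smul]
  · rw [hch]
    exact coeff_one y hyd
  · rw [hch]
    have h := coeff_two' y hyd (by norm_num)
    rw [h2, neg_zero] at h
    exact h
  · rw [hch]
    have h := coeff_three y hyd (by norm_num)
    rw [h3, neg_zero] at h
    exact h

end Pool.Agent.Helper41.BJ
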