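import Pool.Agent.Helper41.BJ.Z1
import Pool.Agent.Helper41.BJ.R2

/-!
PROJECT BJ (MP_5d2531_al): every central division algebra of dimension 49 contains a noncentral
element with minimal polynomial `X^7 + a X^3 + b X^2 + c X + d`.
-/

namespace Pool.Agent.Helper41.BJ

open Matrix Finset

theorem not_finite {F D : Type*} [Field F] [Finite F] [DivisionRing D] [Algebra F D]
    (hcen : ∀ x : D, (∀ y, x * y = y * x) → ∃ c : F, algebraMap F D c = x)
    (hdim : Module.finrank F D = 7 * 7) : False := by
  have hfd : FiniteDimensional F D := Module.finite_of_finrank_pos (by omega)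
  have hD : Finite D := Module.finite_of_finite F
  have hcomm : ∀ x y : D, x * y = y * x := by
    intro x y
    exact @mul_comm D (littleWedderburn D).toCommRing.toCommMonoid.toCommSemigroup.toCommMagma x y
  have h1 : Module.finrank F D ≤ 1 := by
    apply finrank_le_one (1 : D)
    intro x
    obtain ⟨c, hc⟩ := hcen x (hcomm x)
    exact ⟨c, by rw [← hc, Algebra.algebraMap_eq_smul_one]⟩
  omega

theorem exists_bring {F D : Type*} [Field F] [DivisionRing D] [Algebra F D]
    (hcen : ∀ x : D, (∀ y, x * y = y * x) → ∃ c : F, algebraMap F D c = x)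
    (hdim : Module.finrank F D = 7 * 7) :
    ∃ (x : D) (a b c d : F), minpoly F x = Polynomial.X ^ 7 + Polynomial.C a * Polynomial.X ^ 3 +
      Polynomial.C b * Polynomial.X ^ 2 + Polynomial.C c * Polynomial.X + Polynomial.C d := by
  rcases finite_or_infinite F with hF | hF
  · exact (not_finite hcen hdim).elim
  · obtain ⟨φ, hφ, hform⟩ := exists_form (by norm_num : Nat.Prime 7) (F := F) (D := D)
      (Ω := AlgebraicClosure F) hcen hdim
    have hdiv : IsDiv φ.range := by
      rintro _ ⟨x, rfl⟩ hx
      have hx0 : x ≠ 0 := by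
        rintro rfl
        exact hx (map_zero φ)
      refine ⟨φ x⁻¹, ⟨x⁻¹, rfl⟩, ?_⟩
      change φ x * φ x⁻¹ = 1
      rw [← map_mul, mul_inv_cancel₀ hx0, map_one]
    obtain ⟨z, ⟨x, hxz⟩, hz, h6, h5, h4⟩ := main_form φ.range hform hdiv
    have hxz' : φ x = z := hxz
    subst hxz'
    have hyc : ∀ c : F, ((⟨φ x, ⟨x, rfl⟩⟩ : φ.range) : MN 7 (AlgebraicClosure F)) ≠
        c • (1 : MN 7 (AlgebraicClosure F)) := by
      intro c hc
      apply hz (algebraMap F _ c)
      rw [algebraMap_smul]
      exact hc
    have hdeg := minpoly_natDegree (by norm_num : Nat.Prime 7) φ.range hform hdiv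
      ⟨φ x, ⟨x, rfl⟩⟩ hyc
    have hch := charpoly_eq (by norm_num : Nat.Prime 7) φ.range hform hdiv
      ⟨φ x, ⟨x, rfl⟩⟩ hyc
    have hmin : minpoly F (⟨φ x, ⟨x, rfl⟩⟩ : φ.range) = minpoly F x := by
      rw [← minpoly.algHom_eq φ.range.val Subtype.val_injective]
      exact minpoly.algHom_eq φ hφ x
    rw [hmin] at hdeg hch
    change (φ x).charpoly = _ at hch
    have hfd : FiniteDimensional F D := Module.finite_of_finrank_pos (by omega)
    have hint : IsIntegral F x := Algebra.IsIntegral.isIntegral x
    have hmon : (minpoly F x).Monic := minpoly.monic hint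
    have hz : ∀ k, (φ x).charpoly.coeff k = 0 → (minpoly F x).coeff k = 0 := by
      intro k hk
      rw [hch, Polynomial.coeff_map] at hk
      exact (map_eq_zero (algebraMap F (AlgebraicClosure F))).mp hk
    refine ⟨x, (minpoly F x).coeff 3, (minpoly F x).coeff 2, (minpoly F x).coeff 1,
      (minpoly F x).coeff 0, ?_⟩
    have h7 : (minpoly F x).coeff 7 = 1 := by
      have := hmon.leadingCoeff
      rw [Polynomial.leadingCoeff, hdeg] at this
      exact this
    have e := (minpoly F x).as_sum_range_C_mul_X_pow' (n := 8) (by rw [hdeg]; norm_num)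
    refine e.trans ?_
    simp only [Finset.sum_range_succ, Finset.sum_range_zero, h7, hz 6 h6, hz 5 h5, hz 4 h4, map_one,
      map_zero, zero_mul, add_zero, zero_add, pow_zero, mul_one, one_mul, pow_one]
    ring

end Pool.Agent.Helper41.BJ
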